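import Mathlib
set_option autoImplicit false
open Finset
namespace Pool.Agent.L5helper32.TC

/-- `(L, z) ↦ (update L y z, L y)` is an involution -/
def updEquiv {Y Z : Type} [DecidableEq Y] (y : Y) : ((Y → Z) × Z) ≃ ((Y → Z) × Z) where
  toFun p := (Function.update p.1 y p.2, p.1 y)
  invFun p := (Function.update p.1 y p.2, p.1 y)
  left_inv := by
    rintro ⟨L, z⟩
    simp
  right_inv := by
    rintro ⟨L, z⟩
    simp

theorem coord_avg {Y Z : Type} [Fintype Y] [DecidableEq Y] [Fintype Z] (g : (Y → Z) → ℝ) (y : Y) :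
    (Fintype.card Z : ℝ) * ∑ L, g L = ∑ L, ∑ z, g (Function.update L y z) := by
  classical
  have h1 : ∑ L, ∑ z, g (Function.update L y z) =
      ∑ p : (Y → Z) × Z, g (Function.update p.1 y p.2) := by
    rw [Fintype.sum_prod_type]
  have h2 : ∑ p : (Y → Z) × Z, g (Function.update p.1 y p.2) = ∑ p : (Y → Z) × Z, g p.1 :=
    Equiv.sum_comp (updEquiv y) (fun p : (Y → Z) × Z => g p.1)
  rw [h1, h2, Fintype.sum_prod_type]
  simp only [Finset.sum_const, Finset.card_univ, nsmul_eq_mul]
  rw [Finset.mul_sum]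

/-- if `g` does not depend on the coordinate `y` -/
theorem coord_eq {Y Z : Type} [Fintype Y] [DecidableEq Y] [Fintype Z] [DecidableEq Z]
    (g : (Y → Z) → ℝ) (y : Y) (z0 : Z) (hg : ∀ L z, g (Function.update L y z) = g L) :
    (Fintype.card Z : ℝ) * ∑ L, g L * (if L y = z0 then 1 else 0) = ∑ L, g L := by
  rw [coord_avg (fun L => g L * (if L y = z0 then 1 else 0)) y]
  refine Finset.sum_congr rfl fun L _ => ?_
  have h : ∀ z, g (Function.update L y z) * (if Function.update L y z y = z0 then (1 : ℝ) else 0) =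
      if z = z0 then g L else 0 := by
    intro z
    rw [hg, Function.update_self]
    split_ifs <;> simp
  calc ∑ z, g (Function.update L y z) * (if Function.update L y z y = z0 then (1 : ℝ) else 0)
      = ∑ z, (if z = z0 then g L else 0) := Finset.sum_congr rfl fun z _ => h z
    _ = g L := by rw [Finset.sum_ite_eq' Finset.univ z0, if_pos (Finset.mem_univ _)]

/-- Chebyshev for the sum of independent weighted indicators `c e [v e = u e]` -/
theorem cheb {E Z : Type} [Fintype E] [DecidableEq E] [Fintype Z] [DecidableEq Z] [Nonempty Z]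
    (R : Finset E) (c : E → ℝ) (ω : ℝ) (hω : 0 ≤ ω) (hc : ∀ e ∈ R, 0 ≤ c e ∧ c e ≤ ω)
    (u : E → Z) :
    ((univ.filter fun v : E → Z => ∑ e ∈ R.filter (fun e => v e = u e), c e ≤
        (∑ e ∈ R, c e) / (2 * Fintype.card Z)).card : ℝ) * (∑ e ∈ R, c e) ≤
      4 * Fintype.card Z * ω * Fintype.card (E → Z) := by
  classical
  set N : ℝ := (Fintype.card Z : ℝ) with hN
  set M : ℝ := ∑ e ∈ R, c e with hM
  set T : ℝ := (Fintype.card (E → Z) : ℝ) with hT
  have hNpos : 0 < N := by
    rw [hN]
    exact_mod_cast Fintype.card_pos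
  have hT0 : 0 ≤ T := by rw [hT]; positivity
  have hM0 : 0 ≤ M := Finset.sum_nonneg fun e he => (hc e he).1
  set I : E → (E → Z) → ℝ := fun e v => if v e = u e then 1 else 0 with hI
  set X : (E → Z) → ℝ := fun v => ∑ e ∈ R, c e * I e v with hX
  have hXeq : ∀ v : E → Z, ∑ e ∈ R.filter (fun e => v e = u e), c e = X v := by
    intro v
    rw [Finset.sum_filter, hX]
    refine Finset.sum_congr rfl fun e _ => ?_
    simp only [hI]
    split_ifs <;> simp
  have hIsum : ∀ e, N * ∑ v, I e v = T := by
    intro e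
    have h := coord_eq (Y := E) (Z := Z) (fun _ => 1) e (u e) (fun _ _ => rfl)
    simp only [one_mul, Finset.sum_const, Finset.card_univ, nsmul_eq_mul, mul_one] at h
    exact h
  have hIsq : ∀ e v, I e v * I e v = I e v := by
    intro e v
    simp only [hI]
    split_ifs <;> simp
  have hI2 : ∀ e e', e ≠ e' → N * (N * ∑ v, I e v * I e' v) = T := by
    intro e e' hne
    have h := coord_eq (Y := E) (Z := Z) (fun v => I e v) e' (u e') (by
      intro L z
      simp only [hI]
      rw [Function.update_of_ne hne])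
    rw [← hIsum e]
    congr 1
  -- first moment
  have hS1 : N * ∑ v, X v = M * T := by
    simp only [hX]
    rw [Finset.sum_comm, Finset.mul_sum, hM, Finset.sum_mul]
    refine Finset.sum_congr rfl fun e _ => ?_
    rw [← Finset.mul_sum, ← hIsum e]
    ring
  -- second moment
  have hS2 : N * (N * ∑ v, X v ^ 2) ≤ (M ^ 2 + N * (ω * M)) * T := by
    have e1 : ∑ v, X v ^ 2 = ∑ e ∈ R, ∑ e' ∈ R, c e * c e' * ∑ v, I e v * I e' v := by
      simp only [hX, sq, Finset.sum_mul_sum]
      rw [Finset.sum_comm]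
      refine Finset.sum_congr rfl fun e _ => ?_
      rw [Finset.sum_comm]
      refine Finset.sum_congr rfl fun e' _ => ?_
      rw [Finset.mul_sum]
      refine Finset.sum_congr rfl fun v _ => ?_
      ring
    rw [e1, Finset.mul_sum, Finset.mul_sum]
    have e2 : ∀ e ∈ R, N * (N * ∑ e' ∈ R, c e * c e' * ∑ v, I e v * I e' v) ≤
        (c e * M + N * (ω * c e)) * T := by
      intro e he
      have e3 : N * (N * ∑ e' ∈ R, c e * c e' * ∑ v, I e v * I e' v) =
          ∑ e' ∈ R, c e * c e' * (N * (N * ∑ v, I e v * I e' v)) := by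
        rw [Finset.mul_sum, Finset.mul_sum]
        refine Finset.sum_congr rfl fun e' _ => ?_
        ring
      rw [e3]
      have e4 : ∀ e' ∈ R, c e * c e' * (N * (N * ∑ v, I e v * I e' v)) ≤
          c e * c e' * T + (if e' = e then N * (ω * c e) * T else 0) := by
        intro e' he'
        by_cases h : e' = e
        · subst h
          rw [if_pos rfl]
          have h1 : N * (N * ∑ v, I e' v * I e' v) = N * T := by
            simp only [hIsq]
            rw [hIsum]
          rw [h1]
          have h2 : c e' * c e' * (N * T) ≤ N * (ω * c e') * T := by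
            have h3 : c e' * c e' ≤ ω * c e' := mul_le_mul_of_nonneg_right (hc e' he).2 (hc e' he).1
            have h4 : 0 ≤ N * T := mul_nonneg hNpos.le hT0
            nlinarith
          have h5 : 0 ≤ c e' * c e' * T := mul_nonneg (mul_self_nonneg _) hT0
          linarith
        · rw [if_neg h, hI2 e e' (Ne.symm h), add_zero]
      refine (Finset.sum_le_sum e4).trans (le_of_eq ?_)
      rw [Finset.sum_add_distrib, Finset.sum_ite_eq' R e, if_pos he, ← Finset.sum_mul,
        ← Finset.mul_sum, ← hM]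
      ring
    refine (Finset.sum_le_sum e2).trans (le_of_eq ?_)
    rw [← Finset.sum_mul, Finset.sum_add_distrib, ← Finset.sum_mul, ← hM, ← Finset.mul_sum,
      ← Finset.mul_sum, ← hM]
    ring
  -- variance
  have hvar : N * (N * ∑ v, (X v - M / N) ^ 2) ≤ N * (ω * M) * T := by
    have e1 : ∑ v, (X v - M / N) ^ 2 = ∑ v, X v ^ 2 - 2 * (M / N) * ∑ v, X v + (M / N) ^ 2 * T := by
      have : ∀ v, (X v - M / N) ^ 2 = X v ^ 2 - 2 * (M / N) * X v + (M / N) ^ 2 := by
        intro v; ring
      simp only [this]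
      rw [Finset.sum_add_distrib, Finset.sum_sub_distrib, ← Finset.mul_sum, Finset.sum_const,
        Finset.card_univ, nsmul_eq_mul, hT]
      ring
    rw [e1]
    have e2 : N * (N * (∑ v, X v ^ 2 - 2 * (M / N) * ∑ v, X v + (M / N) ^ 2 * T)) =
        N * (N * ∑ v, X v ^ 2) - 2 * M * (N * ∑ v, X v) + M ^ 2 * T := by
      field_simp
    rw [e2, hS1]
    nlinarith
  set F := univ.filter fun v : E → Z => ∑ e ∈ R.filter (fun e => v e = u e), c e ≤ M / (2 * N)
    with hF
  have hmarkov : (F.card : ℝ) * (M / (2 * N)) ^ 2 ≤ ∑ v, (X v - M / N) ^ 2 := by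
    have h1 : ∑ v ∈ F, (X v - M / N) ^ 2 ≤ ∑ v, (X v - M / N) ^ 2 :=
      Finset.sum_le_univ_sum_of_nonneg fun v => sq_nonneg _
    refine le_trans ?_ h1
    rw [← nsmul_eq_mul]
    refine Finset.card_nsmul_le_sum _ _ _ fun v hv => ?_
    rw [hF, Finset.mem_filter, hXeq v] at hv
    have h2 : 0 ≤ M / (2 * N) := by positivity
    have h3 : M / (2 * N) ≤ M / N - X v := by
      have : M / N = M / (2 * N) + M / (2 * N) := by field_simp; ring
      linarith [hv.2]
    nlinarith
  rcases hM0.eq_or_lt with h0 | hpos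
  · rw [← h0, mul_zero]
    positivity
  · have h1 : N * (N * ((F.card : ℝ) * (M / (2 * N)) ^ 2)) ≤ N * (ω * M) * T :=
      (mul_le_mul_of_nonneg_left (mul_le_mul_of_nonneg_left hmarkov hNpos.le) hNpos.le).trans hvar
    have h2 : N * (N * ((F.card : ℝ) * (M / (2 * N)) ^ 2)) = (F.card : ℝ) * M ^ 2 / 4 := by
      field_simp
      ring
    rw [h2] at h1
    have h3 : ((F.card : ℝ) * M) * M ≤ (4 * N * ω * T) * M := by nlinarith
    exact le_of_mul_le_mul_right h3 hpos

end Pool.Agent.L5helper32.TC
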