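import Pool.Agent.L5helper32.TC.Stmt

/-!
# From the stages to circuits, and to graphs
-/

set_option autoImplicit false

open Finset

namespace Pool.Agent.L5helper32.TC

/-! ### values of the gates -/

theorem run_eq {ι : Type} (C : Circuit ι) (lev : Fin C.size → ℕ) (h1 : ∀ i, 1 ≤ lev i)
    (hlev : ∀ i j, Sum.inr j ∈ C.ins i → lev j < lev i) (x : ι → Bool) :
    ∀ (m : ℕ) (i : Fin C.size), lev i ≤ m → ∀ k k', lev i ≤ k → lev i ≤ k' →
      C.run x k i = C.run x k' i := by
  intro m
  induction m with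
  | zero =>
    intro i hi
    have := h1 i
    omega
  | succ m ih =>
    intro i hi k k' hk hk'
    obtain ⟨k₁, rfl⟩ : ∃ k₁, k = k₁ + 1 := ⟨k - 1, by have := h1 i; omega⟩
    obtain ⟨k₂, rfl⟩ : ∃ k₂, k' = k₂ + 1 := ⟨k' - 1, by have := h1 i; omega⟩
    refine C.loc i _ _ ?_
    rintro (a | j) ha
    · rfl
    · have := hlev i j ha
      exact ih j (by omega) k₁ k₂ (by omega) (by omega)

/-! ### the invariant -/

/-- the state after `k` stages -/
def Inv {n : ℕ} {A : Type} (lv : A → ℕ) (val : (Ed n → Bool) → A → Bool) (W k D : ℕ) : Prop :=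
  ∃ (G : Finset (Ed n)) (b : Ed n → Bool) (sg : A → Option (Ed n)),
    (∀ a, lv a ≤ k → ∀ e ∈ sg a, e ∈ G) ∧
    (∀ a, lv a ≤ k → ∀ z z' : Ed n → Bool, (∀ e ∈ sg a, z e = z' e) →
      val (ext G b z) a = val (ext G b z') a) ∧
    0 < (tris G).card ∧
    (∀ T : Tr n, (∀ t, te T t ∈ G ∨ b (te T t) = true) → ∀ t, te T t ∈ G) ∧
    4 * n * W ≤ D * (tris G).card

theorem ext_ext {n : ℕ} {G G' : Finset (Ed n)} (h : G' ⊆ G) (b b' z : Ed n → Bool) :
    ext G' (fun e => if e ∈ G then b' e else b e) z = ext G b (ext G' b' z) := by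
  funext e
  unfold ext
  by_cases h1 : e ∈ G'
  · rw [if_pos h1, if_pos (h h1), if_pos h1]
  · rw [if_neg h1]
    by_cases h2 : e ∈ G
    · simp only [h2, h1, if_true, if_false]
    · simp only [h2, if_false]

/-- a function of sources each of which reads one edge: threshold form -/
theorem threshold_sources {n : ℕ} {A : Type} [DecidableEq (Ed n)] (s : Finset A)
    (v : (Ed n → Bool) → A → Bool) (sg : A → Option (Ed n))
    (hv : ∀ a ∈ s, ∀ z z' : Ed n → Bool, (∀ e ∈ sg a, z e = z' e) → v z a = v z' a)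
    (w : A → ℝ) (S : Finset (Ed n)) (hS : ∀ a ∈ s, ∀ e ∈ sg a, e ∈ S) (z : Ed n → Bool) :
    ∑ a ∈ s, w a * (if v z a then 1 else 0) =
      ∑ a ∈ s, w a * (if v (fun _ => false) a then 1 else 0) +
      ∑ e ∈ S, (∑ a ∈ s, if sg a = some e then w a * ((if v (fun _ => true) a then 1 else 0) -
        (if v (fun _ => false) a then 1 else 0)) else 0) * (if z e then 1 else 0) := by
  have h1 : ∀ e ∈ S, (∑ a ∈ s, if sg a = some e then
      w a * ((if v (fun _ => true) a then (1 : ℝ) else 0) -
        (if v (fun _ => false) a then 1 else 0)) else 0) * (if z e then (1 : ℝ) else 0) =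
      ∑ a ∈ s, if sg a = some e then w a * ((if v (fun _ => true) a then (1 : ℝ) else 0) -
        (if v (fun _ => false) a then 1 else 0)) * (if z e then (1 : ℝ) else 0) else 0 := by
    intro e _
    rw [Finset.sum_mul]
    refine sum_congr rfl fun a _ => ?_
    split_ifs <;> simp
  rw [sum_congr rfl h1, sum_comm, ← sum_add_distrib]
  refine sum_congr rfl fun a ha => ?_
  cases hsg : sg a with
  | none =>
    have h2 : v z a = v (fun _ => false) a := hv a ha _ _ (by rw [hsg]; simp)
    rw [h2]
    simp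
  | some e =>
    have he : e ∈ S := hS a ha e (by rw [hsg]; rfl)
    rw [sum_eq_single_of_mem e he]
    · rw [if_pos rfl]
      by_cases hz : z e = true
      · have h2 : v z a = v (fun _ => true) a := by
          refine hv a ha _ _ fun e' he' => ?_
          rw [hsg] at he'
          have : e = e' := by simpa using he'
          rw [← this, hz]
        rw [h2, hz]
        simp only [if_true]
        ring
      · have hz' : z e = false := by simpa using hz
        have h2 : v z a = v (fun _ => false) a := by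
          refine hv a ha _ _ fun e' he' => ?_
          rw [hsg] at he'
          have : e = e' := by simpa using he'
          rw [← this, hz']
        rw [h2, hz']
        simp
    · intro e' _ hne
      rw [if_neg]
      intro h
      exact hne (Option.some.inj h).symm

theorem inv_step (hs : StageStmt) {n κ : ℕ} {ι : Type} (C : Circuit ι)
    (lev : Fin C.size → ℕ) (hlev : ∀ i j, Sum.inr j ∈ C.ins i → lev j < lev i)
    (hg : ∀ i, C.Threshold i ∨ (C.ins i).card ≤ κ)
    (val : (Ed n → Bool) → (ι ⊕ Fin C.size) → Bool)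
    (hval : ∀ z i, val z (Sum.inr i) = C.fn i (val z)) (k D : ℕ) (hD : 1 ≤ D) (hκ : κ ≤ D)
    (hn : 10 ^ 47 * D ^ 24 ≤ n)
    (h : Inv (Sum.elim (fun _ => 0) lev) val C.wires k D) :
    Inv (Sum.elim (fun _ => 0) lev) val C.wires (k + 1) (2 * 10 ^ 62 * D ^ 31) := by
  classical
  obtain ⟨G, b, sg, hsgG, hsg, hpos, hsafe, hW⟩ := h
  set lv : ι ⊕ Fin C.size → ℕ := Sum.elim (fun _ => 0) lev with hlv
  let I := {i : Fin C.size // lev i = k + 1}
  let S : I → Finset (Ed n) := fun i => (C.ins i.1).biUnion fun a => (sg a).toFinset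
  let f : I → (Ed n → Bool) → Bool := fun i z => val (ext G b z) (Sum.inr i.1)
  have hins : ∀ i : I, ∀ a ∈ C.ins i.1, lv a ≤ k := by
    intro i a ha
    rcases a with a | j
    · exact Nat.zero_le _
    · have h1 := hlev i.1 j ha
      have h2 := i.2
      show lev j ≤ k
      omega
  have hSG : ∀ i, S i ⊆ G := by
    intro i e he
    obtain ⟨a, ha, hea⟩ := mem_biUnion.mp he
    exact hsgG a (hins i a ha) e (by simpa using hea)
  have hcard : ∀ i, (S i).card ≤ (C.ins i.1).card := by
    intro i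
    refine card_biUnion_le.trans ?_
    rw [card_eq_sum_ones]
    refine sum_le_sum fun a _ => ?_
    cases sg a with
    | none => simp
    | some e => simp
  have hloc : ∀ i, ∀ x y : Ed n → Bool, (∀ e ∈ S i, x e = y e) → f i x = f i y := by
    intro i x y hxy
    show val (ext G b x) (Sum.inr i.1) = val (ext G b y) (Sum.inr i.1)
    rw [hval, hval]
    refine C.loc i.1 _ _ fun a ha => ?_
    refine hsg a (hins i a ha) x y fun e he => hxy e ?_
    exact mem_biUnion.mpr ⟨a, ha, by simpa using he⟩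
  have hgate : ∀ i, Gate (S i) D (f i) := by
    intro i
    refine ⟨hloc i, ?_⟩
    rcases hg i.1 with ⟨w, t, hwt⟩ | hc
    · right
      refine ⟨fun e => ∑ a ∈ C.ins i.1, if sg a = some e then
        w a * ((if val (ext G b (fun _ => true)) a then 1 else 0) -
          (if val (ext G b (fun _ => false)) a then 1 else 0)) else 0,
        t - ∑ a ∈ C.ins i.1, w a * (if val (ext G b (fun _ => false)) a then 1 else 0), ?_⟩
      intro x
      show val (ext G b x) (Sum.inr i.1) = true ↔ _
      rw [hval, hwt, threshold_sources (C.ins i.1) (fun z => val (ext G b z)) sg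
        (fun a ha z z' hz => hsg a (hins i a ha) z z' hz) w (S i)
        (fun a ha e he => mem_biUnion.mpr ⟨a, ha, by simpa using he⟩) x, sub_le_iff_le_add']
    · left
      exact (hcard i).trans (hc.trans hκ)
  have hsum : ∑ i : I, (S i).card ≤ C.wires := by
    calc ∑ i : I, (S i).card ≤ ∑ i : I, (C.ins i.1).card := sum_le_sum fun i _ => hcard i
      _ = ∑ i ∈ univ.filter (fun i => lev i = k + 1), (C.ins i).card := by
          rw [← Finset.sum_subtype_eq_sum_filter]
          refine Finset.sum_bij (fun i _ => i) ?_ ?_ ?_ ?_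
          · intro i _; simp
          · intro i _ j _ h; exact h
          · intro i _; exact ⟨i, by simp, rfl⟩
          · intro i _; rfl
      _ ≤ C.wires := sum_le_sum_of_subset (filter_subset _ _)
  have hcond : 4 * n * (∑ i : I, (S i).card) ≤ D * (tris G).card :=
    (Nat.mul_le_mul_left _ hsum).trans hW
  obtain ⟨G', b', hG', hq, hsafe', ho⟩ := hs n D hD hn G I S f hSG hgate hcond
  choose o ho1 ho2 using ho
  refine ⟨G', fun e => if e ∈ G then b' e else b e, fun a => if lv a ≤ k then
    (sg a).filter (fun e => decide (e ∈ G')) else Sum.elim (fun _ => none)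
      (fun i => if hi : lev i = k + 1 then o ⟨i, hi⟩ else none) a, ?_, ?_, ?_, ?_, ?_⟩
  · intro a ha e he
    by_cases h1 : lv a ≤ k
    · simp only [if_pos h1] at he
      have := Option.mem_filter_iff.mp he
      simpa using this.2
    · simp only [if_neg h1] at he
      rcases a with a | i
      · exact absurd (Nat.zero_le k) h1
      · have hi : lev i = k + 1 := by
          have h2 : lev i ≤ k + 1 := ha
          have h3 : ¬ lev i ≤ k := h1
          omega
        simp only [Sum.elim_inr, dif_pos hi] at he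
        exact ho1 _ e he
  · intro a ha z z' hz
    rw [ext_ext hG', ext_ext hG']
    by_cases h1 : lv a ≤ k
    · simp only [if_pos h1] at hz
      refine hsg a h1 _ _ fun e he => ?_
      unfold ext
      by_cases h2 : e ∈ G'
      · rw [if_pos h2, if_pos h2]
        exact hz e (Option.mem_filter_iff.mpr ⟨he, by simpa using h2⟩)
      · rw [if_neg h2, if_neg h2]
    · simp only [if_neg h1] at hz
      rcases a with a | i
      · exact absurd (Nat.zero_le k) h1
      · have hi : lev i = k + 1 := by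
          have h2 : lev i ≤ k + 1 := ha
          have h3 : ¬ lev i ≤ k := h1
          omega
        simp only [Sum.elim_inr, dif_pos hi] at hz
        exact ho2 ⟨i, hi⟩ z z' hz
  · rcases Nat.eq_zero_or_pos (tris G').card with h0 | h0
    · rw [h0, mul_zero] at hq
      omega
    · exact h0
  · intro T hT
    have h1 : ∀ t, te T t ∈ G := by
      refine hsafe T fun t => ?_
      rcases hT t with h | h
      · exact Or.inl (hG' h)
      · by_cases h2 : te T t ∈ G
        · exact Or.inl h2
        · right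
          simpa [h2] using h
    refine hsafe' T fun t => ?_
    rcases hT t with h | h
    · exact Or.inl h
    · right
      refine ⟨h1 t, ?_⟩
      simpa [h1 t] using h
  · calc 4 * n * C.wires ≤ D * (tris G).card := hW
      _ ≤ D * (2 * 10 ^ 62 * D ^ 30 * (tris G').card) := Nat.mul_le_mul_left _ hq
      _ = 2 * 10 ^ 62 * D ^ 31 * (tris G').card := by ring

/-- the parameters -/
def DD (D₀ : ℕ) : ℕ → ℕ
  | 0 => D₀
  | k + 1 => 2 * 10 ^ 62 * DD D₀ k ^ 31

theorem DD_pos {D₀ : ℕ} (h : 1 ≤ D₀) (k : ℕ) : 1 ≤ DD D₀ k := by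
  induction k with
  | zero => exact h
  | succ k ih =>
    show 1 ≤ 2 * 10 ^ 62 * DD D₀ k ^ 31
    have : 1 ≤ DD D₀ k ^ 31 := Nat.one_le_pow _ _ ih
    omega

theorem DD_ge {D₀ : ℕ} (h : 1 ≤ D₀) (k : ℕ) : D₀ ≤ DD D₀ k := by
  induction k with
  | zero => exact le_rfl
  | succ k ih =>
    show D₀ ≤ 2 * 10 ^ 62 * DD D₀ k ^ 31
    have h1 : DD D₀ k ≤ DD D₀ k ^ 31 := Nat.le_self_pow (by norm_num) _
    omega

theorem DD_le {D₀ : ℕ} (k : ℕ) : 130 * DD D₀ k ≤ (130 * D₀) ^ (31 ^ k) := by
  induction k with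
  | zero => simp [DD]
  | succ k ih =>
    show 130 * (2 * 10 ^ 62 * DD D₀ k ^ 31) ≤ _
    calc 130 * (2 * 10 ^ 62 * DD D₀ k ^ 31) ≤ 130 ^ 31 * DD D₀ k ^ 31 := by
          rw [← mul_assoc]
          exact Nat.mul_le_mul_right _ (by norm_num)
      _ = (130 * DD D₀ k) ^ 31 := by rw [mul_pow]
      _ ≤ ((130 * D₀) ^ (31 ^ k)) ^ 31 := Nat.pow_le_pow_left ih _
      _ = (130 * D₀) ^ (31 ^ (k + 1)) := by rw [← pow_mul, pow_succ]

/-- Circuits whose inputs are functions of at most one edge of the tripartite graph. -/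
theorem circuit_core (hs : StageStmt) (n d κ : ℕ) {ι : Type} (C : Circuit ι)
    (hd : C.HasDepth d) (hg : ∀ i, C.Threshold i ∨ (C.ins i).card ≤ κ)
    (inp : ι → (Ed n → Bool) → Bool) (σ : ι → Option (Ed n))
    (hσ : ∀ a (z z' : Ed n → Bool), (∀ e ∈ σ a, z e = z' e) → inp a z = inp a z')
    (hC : ∀ z : Ed n → Bool, C.run (fun a => inp a z) d C.out = true ↔
      ∃ T : Tr n, ∀ t, z (te T t) = true)
    (D₀ : ℕ) (hD : 1 ≤ D₀) (hκ : κ ≤ D₀) (hW : 4 * C.wires ≤ D₀ * n ^ 2) :
    n < (130 * D₀) ^ (31 ^ d) := by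
  classical
  by_contra hcon
  push Not at hcon
  obtain ⟨lev, hlev1, hlev⟩ := hd
  let val : (Ed n → Bool) → (ι ⊕ Fin C.size) → Bool := fun z =>
    Sum.elim (fun a => inp a z) (C.run (fun a => inp a z) d)
  have hval : ∀ z i, val z (Sum.inr i) = C.fn i (val z) := by
    intro z i
    show C.run (fun a => inp a z) d i = C.run (fun a => inp a z) (d + 1) i
    exact run_eq C lev (fun i => (hlev1 i).1) hlev _ (lev i) i le_rfl d (d + 1) (hlev1 i).2
      ((hlev1 i).2.trans (Nat.le_succ d))
  have hn1 : 1 ≤ n := by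
    refine le_trans ?_ hcon
    exact Nat.one_le_pow _ _ (by omega)
  have hinv : ∀ k, k ≤ d → Inv (Sum.elim (fun _ => 0) lev) val C.wires k (DD D₀ k) := by
    intro k
    induction k with
    | zero =>
      intro _
      have htri : (tris (univ : Finset (Ed n))) = univ := by
        unfold tris
        simp
      have hcardT : (tris (univ : Finset (Ed n))).card = n ^ 3 := by
        rw [htri, card_univ]
        simp
      refine ⟨univ, fun _ => false, Sum.elim σ (fun _ => none), fun _ _ _ _ => mem_univ _, ?_, ?_,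
        fun _ _ _ => mem_univ _, ?_⟩
      · intro a ha z z' hz
        have hext : ∀ z : Ed n → Bool, ext univ (fun _ => false) z = z := by
          intro z; funext e; simp [ext]
        rw [hext, hext]
        rcases a with a | i
        · exact hσ a z z' hz
        · have h1 := (hlev1 i).1
          have h2 : lev i ≤ 0 := ha
          omega
      · rw [hcardT]
        positivity
      · rw [hcardT]
        show 4 * n * C.wires ≤ D₀ * n ^ 3
        calc 4 * n * C.wires = n * (4 * C.wires) := by ring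
          _ ≤ n * (D₀ * n ^ 2) := Nat.mul_le_mul_left _ hW
          _ = D₀ * n ^ 3 := by ring
    | succ k ih =>
      intro hk
      refine inv_step hs C lev hlev hg val hval k (DD D₀ k) (DD_pos hD k)
        (hκ.trans (DD_ge hD k)) ?_ (ih (by omega))
      have h1 : (130 * DD D₀ k) ^ 31 ≤ n := by
        calc (130 * DD D₀ k) ^ 31 ≤ ((130 * D₀) ^ (31 ^ k)) ^ 31 :=
              Nat.pow_le_pow_left (DD_le k) _
          _ = (130 * D₀) ^ (31 ^ (k + 1)) := by rw [← pow_mul, pow_succ]
          _ ≤ (130 * D₀) ^ (31 ^ d) :=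
              Nat.pow_le_pow_right (by omega) (Nat.pow_le_pow_right (by norm_num) hk)
          _ ≤ n := hcon
      refine le_trans ?_ h1
      rw [mul_pow]
      exact Nat.mul_le_mul (by norm_num) (Nat.pow_le_pow_right (DD_pos hD k) (by norm_num))
  obtain ⟨G, b, sg, -, hsg, hpos, hsafe, -⟩ := hinv d le_rfl
  obtain ⟨T, hT⟩ := card_pos.mp hpos
  have hT' : ∀ t, te T t ∈ G := by
    have := (mem_filter.mp hT).2
    exact this
  set so := sg (Sum.inr C.out) with hso
  have hdep := hsg (Sum.inr C.out) (hlev1 C.out).2 (fun _ => true)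
    (fun e => decide (e ∈ so)) (fun e he => by simp [← hso] at he ⊢; exact he)
  have h1 : val (ext G b (fun _ => true)) (Sum.inr C.out) = true := by
    refine (hC _).mpr ⟨T, fun t => ?_⟩
    simp [ext, hT' t]
  have h2 : val (ext G b (fun e => decide (e ∈ so))) (Sum.inr C.out) = true := by
    rw [← hdep]; exact h1
  obtain ⟨T', hT2⟩ := (hC _).mp h2
  have h3 : ∀ t, te T' t ∈ G := by
    refine hsafe T' fun t => ?_
    by_cases h4 : te T' t ∈ G
    · exact Or.inl h4
    · right
      have := hT2 t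
      simpa [ext, h4] using this
  have h5 : ∀ t, te T' t ∈ so := by
    intro t
    have := hT2 t
    simpa [ext, h3 t] using this
  have h6 := h5 0
  have h7 := h5 1
  have h8 : te T' 0 = te T' 1 := by
    rw [Option.mem_def] at h6 h7
    rw [h6] at h7
    exact Option.some.inj h7
  have h9 : (0 : Fin 3) = 1 := congrArg Prod.fst h8
  exact absurd h9 (by decide)

/-! ### graphs -/

theorem fin3_a : ∀ c : Fin 3, c ≠ c + 1 + 1 := by decide

theorem fin3_b : ∀ c : Fin 3, ¬ c = c + 1 := by decide

theorem fin3_c : ∀ c : Fin 3, ¬ c + 1 = c := by decide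

theorem fin3_d : ∀ ca cb cc : Fin 3, ca ≠ cb → cb ≠ cc → ca ≠ cc →
    ∀ t, t = ca ∨ t = cb ∨ t = cc := by decide

/-- class and number of a vertex -/
def dec (N : ℕ) (p : Fin N) : Option (Fin 3 × Fin (N / 3)) :=
  if h : p.1 < 3 * (N / 3) then
    some (⟨p.1 / (N / 3), Nat.div_lt_of_lt_mul (by rw [mul_comm]; exact h)⟩,
      ⟨p.1 % (N / 3), Nat.mod_lt _ (by omega)⟩) else none

/-- the vertex with class `c` and number `u` -/
def enc (N : ℕ) (c : Fin 3) (u : Fin (N / 3)) : Fin N :=
  ⟨(N / 3) * c.1 + u.1, by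
    have h1 := c.2
    have h2 := u.2
    have h3 : (N / 3) * c.1 ≤ (N / 3) * 2 := Nat.mul_le_mul_left _ (by omega)
    omega⟩

theorem dec_enc (N : ℕ) (c : Fin 3) (u : Fin (N / 3)) : dec N (enc N c u) = some (c, u) := by
  have h1 := c.2
  have h2 := u.2
  have h3 : (N / 3) * c.1 ≤ (N / 3) * 2 := Nat.mul_le_mul_left _ (by omega)
  have h4 : (enc N c u).1 < 3 * (N / 3) := by
    show (N / 3) * c.1 + u.1 < _
    omega
  unfold dec
  rw [dif_pos h4]
  congr 1
  ext
  · show ((N / 3) * c.1 + u.1) / (N / 3) = c.1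
    rw [Nat.mul_add_div (by omega), Nat.div_eq_of_lt h2, add_zero]
  · show ((N / 3) * c.1 + u.1) % (N / 3) = u.1
    rw [Nat.mul_add_mod, Nat.mod_eq_of_lt h2]

/-- the edge read by an entry of the adjacency matrix -/
def sgm (N : ℕ) (p : Fin N × Fin N) : Option (Ed (N / 3)) :=
  match dec N p.1, dec N p.2 with
  | some (c, u), some (c', v) =>
      if c' = c + 1 then some (c, u, v) else if c = c' + 1 then some (c', v, u) else none
  | _, _ => none

theorem sgm_comm (N : ℕ) (p q : Fin N) : sgm N (p, q) = sgm N (q, p) := by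
  unfold sgm
  simp only
  cases dec N p with
  | none => cases dec N q <;> rfl
  | some x =>
    cases dec N q with
    | none => rfl
    | some y =>
      obtain ⟨c, u⟩ := x
      obtain ⟨c', v⟩ := y
      simp only
      by_cases h1 : c' = c + 1
      · have h2 : c ≠ c' + 1 := by
          rw [h1]
          exact fin3_a c
        rw [if_pos h1, if_neg h2, if_pos h1]
      · by_cases h2 : c = c' + 1
        · rw [if_neg h1, if_pos h2, if_pos h2]
        · rw [if_neg h1, if_neg h2, if_neg h2, if_neg h1]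

theorem sgm_enc (N : ℕ) (c : Fin 3) (u v : Fin (N / 3)) :
    sgm N (enc N c u, enc N (c + 1) v) = some (c, u, v) := by
  unfold sgm
  simp only [dec_enc, if_true]

/-- the entry of the adjacency matrix of the graph `z` -/
def inpm (N : ℕ) (p : Fin N × Fin N) (z : Ed (N / 3) → Bool) : Bool :=
  match sgm N p with
  | some e => z e
  | none => false

theorem inpm_true (N : ℕ) (p : Fin N × Fin N) (z : Ed (N / 3) → Bool) :
    inpm N p z = true ↔ ∃ e, sgm N p = some e ∧ z e = true := by
  unfold inpm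
  cases sgm N p with
  | none => simp
  | some e => simp

theorem inpm_true' (N : ℕ) (p q : Fin N) (z : Ed (N / 3) → Bool) (h : inpm N (p, q) z = true) :
    ∃ c u c' v, dec N p = some (c, u) ∧ dec N q = some (c', v) ∧ c ≠ c' ∧
      ∀ (_ : c' = c + 1), z (c, u, v) = true := by
  obtain ⟨e, he, hz⟩ := (inpm_true N (p, q) z).mp h
  unfold sgm at he
  simp only at he
  cases hp : dec N p with
  | none => rw [hp] at he; cases dec N q <;> simp at he
  | some x =>
    cases hq : dec N q with
    | none => rw [hp, hq] at he; simp at he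
    | some y =>
      obtain ⟨c, u⟩ := x
      obtain ⟨c', v⟩ := y
      rw [hp, hq] at he
      simp only at he
      refine ⟨c, u, c', v, rfl, rfl, ?_, ?_⟩
      · rintro rfl
        have h3 : ¬ (c = c + 1) := fin3_b c
        simp only [h3, if_false] at he
        cases he
      · intro hc
        rw [if_pos hc] at he
        rw [Option.some.inj he]
        exact hz

/-- graphs on `N` vertices, adjacency matrix as input -/
theorem graph_core (hs : StageStmt) (N d κ : ℕ) (hN : 3 ≤ N) (C : Circuit (Fin N × Fin N))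
    (hd : C.HasDepth d) (hg : ∀ i, C.Threshold i ∨ (C.ins i).card ≤ κ)
    (hC : ∀ (G : SimpleGraph (Fin N)) (x : Fin N × Fin N → Bool),
      (∀ p, x p = true ↔ G.Adj p.1 p.2) →
      (C.run x d C.out = true ↔ ∃ a b c, G.Adj a b ∧ G.Adj b c ∧ G.Adj a c)) :
    (N : ℝ) ≤ (10 ^ 5 * ((C.wires : ℝ) / N ^ 2 + κ + 1)) ^ (31 ^ d) := by
  set n := N / 3 with hn
  have hn1 : 1 ≤ n := by omega
  have hN5 : N ≤ 5 * n := by omega
  have hn1' : (1 : ℝ) ≤ n := by exact_mod_cast hn1
  have hN5' : (N : ℝ) ≤ 5 * n := by exact_mod_cast hN5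
  have hN0 : (0 : ℝ) < N := by
    have : (3 : ℝ) ≤ N := by exact_mod_cast hN
    linarith
  -- the graph of `z`
  have hsymm : ∀ (z : Ed n → Bool) (p q : Fin N), inpm N (p, q) z = inpm N (q, p) z := by
    intro z p q
    unfold inpm
    rw [sgm_comm]
  have hirr : ∀ (z : Ed n → Bool) (p : Fin N), ¬ inpm N (p, p) z = true := by
    intro z p h
    obtain ⟨c, u, c', v, h1, h2, h3, -⟩ := inpm_true' N p p z h
    rw [h1] at h2
    exact h3 (congrArg Prod.fst (Option.some.inj h2))
  let GG : (Ed n → Bool) → SimpleGraph (Fin N) := fun z =>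
    { Adj := fun p q => inpm N (p, q) z = true
      symm := ⟨fun p q h => by rw [hsymm]; exact h⟩
      loopless := ⟨fun p h => hirr z p h⟩ }
  have hC' : ∀ z : Ed n → Bool, C.run (fun a => inpm N a z) d C.out = true ↔
      ∃ T : Tr n, ∀ t, z (te T t) = true := by
    intro z
    rw [hC (GG z) (fun a => inpm N a z) (fun p => Iff.rfl)]
    constructor
    · rintro ⟨a, b, c, hab, hbc, hac⟩
      obtain ⟨ca, ua, cb, ub, ha, hb, hne1, -⟩ := inpm_true' N a b z hab
      obtain ⟨cb', ub', cc, uc, hb', hc, hne2, -⟩ := inpm_true' N b c z hbc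
      obtain ⟨ca', ua', cc', uc', ha', hc', hne3, -⟩ := inpm_true' N a c z hac
      rw [hb] at hb'
      obtain ⟨rfl, rfl⟩ := Prod.mk.inj (Option.some.inj hb')
      rw [ha] at ha'
      obtain ⟨rfl, rfl⟩ := Prod.mk.inj (Option.some.inj ha')
      rw [hc] at hc'
      obtain ⟨rfl, rfl⟩ := Prod.mk.inj (Option.some.inj hc')
      have hadj : ∀ x ∈ ({a, b, c} : Set (Fin N)), ∀ y ∈ ({a, b, c} : Set (Fin N)), x ≠ y →
          inpm N (x, y) z = true := by
        intro x hx y hy hxy
        simp only [Set.mem_insert_iff, Set.mem_singleton_iff] at hx hy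
        rcases hx with rfl | rfl | rfl <;> rcases hy with rfl | rfl | rfl
        · exact absurd rfl hxy
        · exact hab
        · exact hac
        · rw [hsymm]; exact hab
        · exact absurd rfl hxy
        · exact hbc
        · rw [hsymm]; exact hac
        · rw [hsymm]; exact hbc
        · exact absurd rfl hxy
      have hall : ∀ t : Fin 3, t = ca ∨ t = cb ∨ t = cc := fin3_d ca cb cc hne1 hne2 hne3
      have hsel : ∀ t : Fin 3, ∃ x ∈ ({a, b, c} : Set (Fin N)), ∃ u : Fin n,
          dec N x = some (t, u) := by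
        intro t
        rcases hall t with rfl | rfl | rfl
        · exact ⟨a, by simp, ua, ha⟩
        · exact ⟨b, by simp, ub, hb⟩
        · exact ⟨c, by simp, uc, hc⟩
      choose x hx u hu using hsel
      refine ⟨u, fun t => ?_⟩
      have hne : x t ≠ x (t + 1) := by
        intro h
        have h1 := hu t
        rw [h, hu (t + 1)] at h1
        have h2 : t + 1 = t := congrArg Prod.fst (Option.some.inj h1)
        exact fin3_c t h2
      obtain ⟨c1, v1, c2, v2, e1, e2, -, e3⟩ :=
        inpm_true' N _ _ z (hadj (x t) (hx t) (x (t + 1)) (hx (t + 1)) hne)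
      rw [hu t] at e1
      rw [hu (t + 1)] at e2
      obtain ⟨rfl, rfl⟩ := Prod.mk.inj (Option.some.inj e1)
      obtain ⟨rfl, rfl⟩ := Prod.mk.inj (Option.some.inj e2)
      exact e3 rfl
    · rintro ⟨T, hT⟩
      have hedge : ∀ t : Fin 3, inpm N (enc N t (T t), enc N (t + 1) (T (t + 1))) z = true := by
        intro t
        rw [inpm_true]
        exact ⟨_, sgm_enc N t _ _, hT t⟩
      refine ⟨enc N 0 (T 0), enc N 1 (T 1), enc N 2 (T 2), hedge 0, hedge 1, ?_⟩
      show inpm N (_, _) z = true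
      rw [hsymm]
      exact hedge 2
  have hσ : ∀ a (z z' : Ed n → Bool), (∀ e ∈ sgm N a, z e = z' e) → inpm N a z = inpm N a z' := by
    intro a z z' hz
    unfold inpm
    cases h : sgm N a with
    | none => rfl
    | some e => exact hz e (by rw [h]; rfl)
  set D₀ : ℕ := ⌈4 * (C.wires : ℝ) / n ^ 2⌉₊ + κ + 1 with hD0
  have hW : 4 * C.wires ≤ D₀ * n ^ 2 := by
    have h1 : 4 * (C.wires : ℝ) / n ^ 2 ≤ D₀ := by
      refine (Nat.le_ceil _).trans ?_
      rw [hD0]
      push_cast
      have : (0 : ℝ) ≤ κ := Nat.cast_nonneg _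
      linarith
    rw [div_le_iff₀ (by positivity)] at h1
    exact_mod_cast h1
  have hmain := circuit_core hs n d κ C hd hg (fun a z => inpm N a z) (sgm N) hσ hC' D₀
    (by omega) (by omega) hW
  have hW0 : (0 : ℝ) ≤ C.wires := Nat.cast_nonneg _
  have hκ0 : (0 : ℝ) ≤ κ := Nat.cast_nonneg _
  have hD1 : (D₀ : ℝ) ≤ 100 * ((C.wires : ℝ) / N ^ 2 + κ + 1) := by
    have h1 : (⌈4 * (C.wires : ℝ) / n ^ 2⌉₊ : ℝ) < 4 * (C.wires : ℝ) / n ^ 2 + 1 :=
      Nat.ceil_lt_add_one (by positivity)
    have h2 : 4 * (C.wires : ℝ) / n ^ 2 ≤ 100 * ((C.wires : ℝ) / N ^ 2) := by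
      rw [mul_div_assoc', div_le_div_iff₀ (by positivity) (by positivity)]
      have h3 : (N : ℝ) ^ 2 ≤ 25 * n ^ 2 := by nlinarith
      nlinarith
    rw [hD0]
    push_cast
    linarith
  have hpow : 1 ≤ 31 ^ d := Nat.one_le_pow _ _ (by norm_num)
  have h5 : (5 : ℝ) ≤ 5 ^ (31 ^ d) := by
    calc (5 : ℝ) = 5 ^ 1 := by norm_num
      _ ≤ 5 ^ (31 ^ d) := pow_le_pow_right₀ (by norm_num) hpow
  have hmain' : (n : ℝ) ≤ (130 * (D₀ : ℝ)) ^ (31 ^ d) := by
    have := hmain.le
    exact_mod_cast this
  calc (N : ℝ) ≤ 5 * n := hN5'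
    _ ≤ 5 ^ (31 ^ d) * (130 * (D₀ : ℝ)) ^ (31 ^ d) :=
        mul_le_mul h5 hmain' (by positivity) (by positivity)
    _ = (5 * (130 * (D₀ : ℝ))) ^ (31 ^ d) := (mul_pow _ _ _).symm
    _ ≤ (10 ^ 5 * ((C.wires : ℝ) / N ^ 2 + κ + 1)) ^ (31 ^ d) := by
        refine pow_le_pow_left₀ (by positivity) ?_ _
        have h6 : (0 : ℝ) ≤ (C.wires : ℝ) / N ^ 2 + κ + 1 := by positivity
        linarith

end Pool.Agent.L5helper32.TC
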