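import Pool.Agent.L5helper32.TC.Stmt2
import Pool.Agent.L5helper32.TC.Circ

/-!
# From the stages to circuits with AND/OR gates counted once
-/

set_option autoImplicit false

open Finset

namespace Pool.Agent.L5helper32.TC

/-- one stage, from sets of edges read by the gates of the next level -/
theorem inv_next (hs : StageStmt) {n W : ℕ} {ι : Type} (C : Circuit ι)
    (lev : Fin C.size → ℕ)
    (val : (Ed n → Bool) → (ι ⊕ Fin C.size) → Bool) (k D : ℕ) (hD : 1 ≤ D)
    (hn : 10 ^ 47 * D ^ 24 ≤ n) (G : Finset (Ed n)) (b : Ed n → Bool)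
    (sg : ι ⊕ Fin C.size → Option (Ed n))
    (_hsgG : ∀ a, (Sum.elim (fun _ => 0) lev : ι ⊕ Fin C.size → ℕ) a ≤ k → ∀ e ∈ sg a, e ∈ G)
    (hsg : ∀ a, (Sum.elim (fun _ => 0) lev : ι ⊕ Fin C.size → ℕ) a ≤ k →
      ∀ z z' : Ed n → Bool, (∀ e ∈ sg a, z e = z' e) → val (ext G b z) a = val (ext G b z') a)
    (hpos : 0 < (tris G).card)
    (hsafe : ∀ T : Tr n, (∀ t, te T t ∈ G ∨ b (te T t) = true) → ∀ t, te T t ∈ G)
    (hW : 4 * n * W ≤ D * (tris G).card)
    (S : {i : Fin C.size // lev i = k + 1} → Finset (Ed n)) (hSG : ∀ i, S i ⊆ G)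
    (hgate : ∀ i, Gate (S i) D (fun z => val (ext G b z) (Sum.inr i.1)))
    (hsum : ∑ i, (S i).card ≤ W) :
    Inv (Sum.elim (fun _ => 0) lev) val W (k + 1) (2 * 10 ^ 62 * D ^ 31) := by
  classical
  set lv : ι ⊕ Fin C.size → ℕ := Sum.elim (fun _ => 0) lev with hlv
  let I := {i : Fin C.size // lev i = k + 1}
  let f : I → (Ed n → Bool) → Bool := fun i z => val (ext G b z) (Sum.inr i.1)
  have hcond : 4 * n * (∑ i : I, (S i).card) ≤ D * (tris G).card :=
    (Nat.mul_le_mul_left _ hsum).trans hW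
  obtain ⟨G', b', hG', hq, hsafe', ho⟩ := hs n D hD hn G I S f hSG hgate hcond
  choose o ho1 ho2 using ho
  refine ⟨G', fun e => if e ∈ G then b' e else b e, fun a => if lv a ≤ k then
    (sg a).filter (fun e => decide (e ∈ G')) else Sum.elim (fun _ => none)
      (fun i => if hi : lev i = k + 1 then o ⟨i, hi⟩ else none) a, ?_, ?_, ?_, ?_, ?_⟩
  · intro a ha e he
    by_cases h1 : lv a ≤ k
    · simp only [if_pos h1] at he
      have := Option.mem_filter_iff.mp he
      simpa using this.2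
    · simp only [if_neg h1] at he
      rcases a with a | i
      · exact absurd (Nat.zero_le k) h1
      · have hi : lev i = k + 1 := by
          have h2 : lev i ≤ k + 1 := ha
          have h3 : ¬ lev i ≤ k := h1
          omega
        simp only [Sum.elim_inr, dif_pos hi] at he
        exact ho1 _ e he
  · intro a ha z z' hz
    rw [ext_ext hG', ext_ext hG']
    by_cases h1 : lv a ≤ k
    · simp only [if_pos h1] at hz
      refine hsg a h1 _ _ fun e he => ?_
      unfold ext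
      by_cases h2 : e ∈ G'
      · rw [if_pos h2, if_pos h2]
        exact hz e (Option.mem_filter_iff.mpr ⟨he, by simpa using h2⟩)
      · rw [if_neg h2, if_neg h2]
    · simp only [if_neg h1] at hz
      rcases a with a | i
      · exact absurd (Nat.zero_le k) h1
      · have hi : lev i = k + 1 := by
          have h2 : lev i ≤ k + 1 := ha
          have h3 : ¬ lev i ≤ k := h1
          omega
        simp only [Sum.elim_inr, dif_pos hi] at hz
        exact ho2 ⟨i, hi⟩ z z' hz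
  · rcases Nat.eq_zero_or_pos (tris G').card with h0 | h0
    · rw [h0, mul_zero] at hq
      omega
    · exact h0
  · intro T hT
    have h1 : ∀ t, te T t ∈ G := by
      refine hsafe T fun t => ?_
      rcases hT t with h | h
      · exact Or.inl (hG' h)
      · by_cases h2 : te T t ∈ G
        · exact Or.inl h2
        · right
          simpa [h2] using h
    refine hsafe' T fun t => ?_
    rcases hT t with h | h
    · exact Or.inl h
    · right
      refine ⟨h1 t, ?_⟩
      simpa [h1 t] using h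
  · calc 4 * n * W ≤ D * (tris G).card := hW
      _ ≤ D * (2 * 10 ^ 62 * D ^ 30 * (tris G').card) := Nat.mul_le_mul_left _ hq
      _ = 2 * 10 ^ 62 * D ^ 31 * (tris G').card := by ring

/-- an AND or OR of sources each of which reads at most one edge -/
theorem aor_sources {n : ℕ} {A : Type} (s : Finset A) (fn : (A → Bool) → Bool)
    (hloc : ∀ x y : A → Bool, (∀ a ∈ s, x a = y a) → fn x = fn y)
    (v : (Ed n → Bool) → A → Bool) (sg : A → Option (Ed n))
    (hv : ∀ a ∈ s, ∀ z z' : Ed n → Bool, (∀ e ∈ sg a, z e = z' e) → v z a = v z' a)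
    (p : A → Bool) (c : Bool) (hp : ∀ x : A → Bool, (∃ a ∈ s, x a = p a) → fn x = c)
    (S : Finset (Ed n))
    (hS : ∀ e, e ∈ S ↔ ∃ a ∈ s, sg a = some e ∧ ∃ β : Bool, ∀ z : Ed n → Bool, z e = β →
      v z a = p a) : AOr S (fun z => fn (v z)) := by
  classical
  by_cases hconst : ∃ a ∈ s, ∀ z, v z a = p a
  · obtain ⟨a, ha, hz⟩ := hconst
    have : ∀ z, fn (v z) = c := fun z => hp _ ⟨a, ha, hz z⟩
    exact ⟨fun x y _ => (this x).trans (this y).symm, fun _ => true, c, fun x _ => this x⟩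
  · push Not at hconst
    have key : ∀ x y : Ed n → Bool, (∀ e ∈ S, x e = y e) → ∀ a ∈ s, v x a = p a → v y a = p a := by
      intro x y hxy a ha hxa
      cases hsg : sg a with
      | none =>
        exfalso
        obtain ⟨z, hz⟩ := hconst a ha
        apply hz
        rw [← hxa]
        exact hv a ha _ _ (by rw [hsg]; simp)
      | some e =>
        have hall : ∀ z : Ed n → Bool, z e = x e → v z a = p a := by
          intro z hz
          rw [← hxa]
          refine hv a ha _ _ fun e' he' => ?_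
          rw [hsg] at he'
          have : e = e' := by simpa using he'
          rw [← this, hz]
        have he : e ∈ S := (hS e).mpr ⟨a, ha, hsg, x e, hall⟩
        exact hall y (hxy e he).symm
    refine ⟨fun x y hxy => ?_, ?_⟩
    · show fn (v x) = fn (v y)
      by_cases h : ∃ a ∈ s, v x a = p a
      · obtain ⟨a, ha, hxa⟩ := h
        rw [hp _ ⟨a, ha, hxa⟩, hp _ ⟨a, ha, key x y hxy a ha hxa⟩]
      · refine hloc _ _ fun a ha => ?_
        have h1 : v x a ≠ p a := fun h2 => h ⟨a, ha, h2⟩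
        have h2 : v y a ≠ p a := fun h2 => h1 (key y x (fun e he => (hxy e he).symm) a ha h2)
        exact (Bool.eq_not_iff.mpr h1).trans (Bool.eq_not_iff.mpr h2).symm
    · have hch : ∀ e : Ed n, ∃ β : Bool, e ∈ S → ∃ a ∈ s, ∀ z : Ed n → Bool, z e = β →
          v z a = p a := by
        intro e
        by_cases he : e ∈ S
        · obtain ⟨a, ha, -, β, hβ⟩ := (hS e).mp he
          exact ⟨β, fun _ => ⟨a, ha, hβ⟩⟩
        · exact ⟨true, fun h => absurd h he⟩
      choose p' hp' using hch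
      refine ⟨p', c, fun x hx => ?_⟩
      obtain ⟨e, he, hxe⟩ := hx
      obtain ⟨a, ha, hz⟩ := hp' e he
      exact hp _ ⟨a, ha, hz x hxe⟩

/-- the step: `W` is any number with `(∑ i ∈ Bᶜ, (C.ins i).card) + 3 * s ^ 2 * B.card ≤ W` -/
theorem inv_step2 (hs : StageStmt) (hp : PreStmt) {n κ s W : ℕ} {ι : Type} (C : Circuit ι)
    (lev : Fin C.size → ℕ) (hlev : ∀ i j, Sum.inr j ∈ C.ins i → lev j < lev i)
    (B : Finset (Fin C.size)) (hB : ∀ i ∈ B, C.AndOr i)
    (hg : ∀ i ∉ B, C.Threshold i ∨ (C.ins i).card ≤ κ)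
    (hs1 : 384 * B.card * 3 ^ s ≤ 4 ^ s)
    (hW : (∑ i ∈ Bᶜ, (C.ins i).card) + 3 * s ^ 2 * B.card ≤ W)
    (val : (Ed n → Bool) → (ι ⊕ Fin C.size) → Bool)
    (hval : ∀ z i, val z (Sum.inr i) = C.fn i (val z)) (k D : ℕ) (hD : 1 ≤ D) (hκ : κ ≤ D)
    (hs2 : 3 * s ^ 2 ≤ D)
    (hn : 10 ^ 47 * (128 * D) ^ 24 ≤ n)
    (h : Inv (Sum.elim (fun _ => 0) lev) val W k D) :
    Inv (Sum.elim (fun _ => 0) lev) val W (k + 1) (2 * 10 ^ 62 * (128 * D) ^ 31) := by
  classical
  obtain ⟨G, b, sg, hsgG, hsg, hpos, hsafe, hWt⟩ := h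
  set lv : ι ⊕ Fin C.size → ℕ := Sum.elim (fun _ => 0) lev with hlv
  have hins : ∀ i : Fin C.size, lev i = k + 1 → ∀ a ∈ C.ins i, lv a ≤ k := by
    intro i hi a ha
    rcases a with a | j
    · exact Nat.zero_le _
    · have h1 := hlev i j ha
      show lev j ≤ k
      omega
  -- the AND and OR gates of level `k + 1`
  let I0 := {i : Fin C.size // lev i = k + 1 ∧ i ∈ B}
  choose p c hpc using hB
  let S0 : I0 → Finset (Ed n) := fun i =>
    ((C.ins i.1).biUnion fun a => (sg a).toFinset).filter fun e =>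
      ∃ a ∈ C.ins i.1, sg a = some e ∧ ∃ β : Bool, ∀ z : Ed n → Bool, z e = β →
        val (ext G b z) a = p i.1 i.2.2 a
  have hS0mem : ∀ (i : I0) (e : Ed n), e ∈ S0 i ↔ ∃ a ∈ C.ins i.1, sg a = some e ∧ ∃ β : Bool,
      ∀ z : Ed n → Bool, z e = β → val (ext G b z) a = p i.1 i.2.2 a := by
    intro i e
    simp only [S0, mem_filter, mem_biUnion]
    constructor
    · exact fun h => h.2
    · rintro ⟨a, ha, hsa, hβ⟩
      exact ⟨⟨a, ha, by rw [hsa]; simp⟩, a, ha, hsa, hβ⟩
  have hS0G : ∀ i, S0 i ⊆ G := by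
    intro i e he
    obtain ⟨a, ha, hsa, -⟩ := (hS0mem i e).mp he
    exact hsgG a (hins i.1 i.2.1 a ha) e (by rw [hsa]; rfl)
  have haor : ∀ i : I0, AOr (S0 i) (fun z => val (ext G b z) (Sum.inr i.1)) := by
    intro i
    have h1 := aor_sources (C.ins i.1) (C.fn i.1) (C.loc i.1) (fun z => val (ext G b z)) sg
      (fun a ha z z' hz => hsg a (hins i.1 i.2.1 a ha) z z' hz) (p i.1 i.2.2) (c i.1 i.2.2)
      (hpc i.1 i.2.2) (S0 i) (hS0mem i)
    have h2 : (fun z => val (ext G b z) (Sum.inr i.1)) = fun z => C.fn i.1 (val (ext G b z)) := by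
      funext z
      exact hval _ _
    rw [h2]
    exact h1
  have hcardI : Fintype.card I0 ≤ B.card := by
    rw [← Fintype.card_coe B]
    exact Fintype.card_le_of_injective (fun i : I0 => (⟨i.1, i.2.2⟩ : B))
      (fun i j hij => Subtype.ext (by simpa using hij))
  obtain ⟨G1, b1, hG1, hq1, hsafe1, hf1⟩ := hp n s G I0 S0
    (fun i z => val (ext G b z) (Sum.inr i.1)) hS0G haor
    (le_trans (Nat.mul_le_mul_right _ (Nat.mul_le_mul_left _ hcardI)) hs1)
  -- the new state
  set b2 : Ed n → Bool := fun e => if e ∈ G then b1 e else b e with hb2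
  have hee : ∀ z, ext G1 b2 z = ext G b (ext G1 b1 z) := fun z => ext_ext hG1 b b1 z
  let sg1 : ι ⊕ Fin C.size → Option (Ed n) := fun a => (sg a).filter (fun e => decide (e ∈ G1))
  have hsg1G : ∀ a, lv a ≤ k → ∀ e ∈ sg1 a, e ∈ G1 := by
    intro a _ e he
    have := Option.mem_filter_iff.mp he
    simpa using this.2
  have hsg1 : ∀ a, lv a ≤ k → ∀ z z' : Ed n → Bool, (∀ e ∈ sg1 a, z e = z' e) →
      val (ext G1 b2 z) a = val (ext G1 b2 z') a := by
    intro a ha z z' hz
    rw [hee, hee]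
    refine hsg a ha _ _ fun e he => ?_
    unfold ext
    by_cases h2 : e ∈ G1
    · rw [if_pos h2, if_pos h2]
      exact hz e (Option.mem_filter_iff.mpr ⟨he, by simpa using h2⟩)
    · rw [if_neg h2, if_neg h2]
  have hpos1 : 0 < (tris G1).card := by
    rcases Nat.eq_zero_or_pos (tris G1).card with h0 | h0
    · rw [h0, mul_zero] at hq1
      omega
    · exact h0
  have hsafe2 : ∀ T : Tr n, (∀ t, te T t ∈ G1 ∨ b2 (te T t) = true) → ∀ t, te T t ∈ G1 := by
    intro T hT
    have h1 : ∀ t, te T t ∈ G := by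
      refine hsafe T fun t => ?_
      rcases hT t with h | h
      · exact Or.inl (hG1 h)
      · by_cases h2 : te T t ∈ G
        · exact Or.inl h2
        · right
          simpa [hb2, h2] using h
    refine hsafe1 T fun t => ?_
    rcases hT t with h | h
    · exact Or.inl h
    · right
      refine ⟨h1 t, ?_⟩
      simpa [hb2, h1 t] using h
  have hWt1 : 4 * n * W ≤ 128 * D * (tris G1).card := by
    calc 4 * n * W ≤ D * (tris G).card := hWt
      _ ≤ D * (128 * (tris G1).card) := Nat.mul_le_mul_left _ hq1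
      _ = 128 * D * (tris G1).card := by ring
  let S1 : {i : Fin C.size // lev i = k + 1} → Finset (Ed n) := fun i =>
    if hi : i.1 ∈ B then
      (if ∀ z z' : Ed n → Bool, val (ext G1 b2 z) (Sum.inr i.1) = val (ext G1 b2 z') (Sum.inr i.1)
        then ∅ else S0 ⟨i.1, i.2, hi⟩ ∩ G1)
    else (C.ins i.1).biUnion fun a => (sg1 a).toFinset
  have hcard : ∀ i : {i : Fin C.size // lev i = k + 1}, i.1 ∉ B →
      (S1 i).card ≤ (C.ins i.1).card := by
    intro i hi
    simp only [S1, dif_neg hi]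
    refine card_biUnion_le.trans ?_
    rw [card_eq_sum_ones]
    refine sum_le_sum fun a _ => ?_
    cases sg1 a with
    | none => simp
    | some e => simp
  have hcard2 : ∀ i : {i : Fin C.size // lev i = k + 1}, i.1 ∈ B → (S1 i).card ≤ 3 * s ^ 2 := by
    intro i hi
    simp only [S1, dif_pos hi]
    split_ifs with hc
    · simp
    · rcases hf1 ⟨i.1, i.2, hi⟩ with h1 | h1
      · exfalso
        apply hc
        intro z z'
        rw [hee, hee]
        exact h1 z z'
      · exact h1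
  refine inv_next hs C lev val k (128 * D) (by omega) hn G1 b2 sg1 hsg1G hsg1 hpos1 hsafe2 hWt1
    S1 ?_ ?_ ?_
  · intro i e he
    by_cases hi : i.1 ∈ B
    · simp only [S1, dif_pos hi] at he
      split_ifs at he with hc
      · simp at he
      · exact (mem_inter.mp he).2
    · simp only [S1, dif_neg hi] at he
      obtain ⟨a, ha, hea⟩ := mem_biUnion.mp he
      exact hsg1G a (hins i.1 i.2 a ha) e (by simpa using hea)
  · intro i
    by_cases hi : i.1 ∈ B
    · refine ⟨?_, Or.inl ((hcard2 i hi).trans (by omega))⟩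
      intro x y hxy
      show val (ext G1 b2 x) (Sum.inr i.1) = val (ext G1 b2 y) (Sum.inr i.1)
      simp only [S1, dif_pos hi] at hxy
      split_ifs at hxy with hc
      · exact hc x y
      · rw [hee, hee]
        refine (haor ⟨i.1, i.2, hi⟩).1 _ _ fun e he => ?_
        unfold ext
        by_cases h2 : e ∈ G1
        · rw [if_pos h2, if_pos h2]
          exact hxy e (mem_inter.mpr ⟨he, h2⟩)
        · rw [if_neg h2, if_neg h2]
    · have hloc : ∀ x y : Ed n → Bool, (∀ e ∈ S1 i, x e = y e) →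
          val (ext G1 b2 x) (Sum.inr i.1) = val (ext G1 b2 y) (Sum.inr i.1) := by
        intro x y hxy
        rw [hval, hval]
        refine C.loc i.1 _ _ fun a ha => ?_
        refine hsg1 a (hins i.1 i.2 a ha) x y fun e he => hxy e ?_
        simp only [S1, dif_neg hi]
        exact mem_biUnion.mpr ⟨a, ha, by simpa using he⟩
      refine ⟨hloc, ?_⟩
      rcases hg i.1 hi with ⟨w, t, hwt⟩ | hc
      · right
        refine ⟨fun e => ∑ a ∈ C.ins i.1, if sg1 a = some e then
          w a * ((if val (ext G1 b2 (fun _ => true)) a then 1 else 0) -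
            (if val (ext G1 b2 (fun _ => false)) a then 1 else 0)) else 0,
          t - ∑ a ∈ C.ins i.1, w a * (if val (ext G1 b2 (fun _ => false)) a then 1 else 0), ?_⟩
        intro x
        show val (ext G1 b2 x) (Sum.inr i.1) = true ↔ _
        rw [hval, hwt, threshold_sources (C.ins i.1) (fun z => val (ext G1 b2 z)) sg1
          (fun a ha z z' hz => hsg1 a (hins i.1 i.2 a ha) z z' hz) w (S1 i)
          (fun a ha e he => by
            simp only [S1, dif_neg hi]
            exact mem_biUnion.mpr ⟨a, ha, by simpa using he⟩) x, sub_le_iff_le_add']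
      · left
        exact (hcard i hi).trans (hc.trans (by omega))
  · refine le_trans ?_ hW
    have h1 : ∑ i : {i : Fin C.size // lev i = k + 1}, (S1 i).card ≤
        ∑ i : {i : Fin C.size // lev i = k + 1},
          ((if i.1 ∈ B then 0 else (C.ins i.1).card) + if i.1 ∈ B then 3 * s ^ 2 else 0) := by
      refine sum_le_sum fun i _ => ?_
      by_cases hi : i.1 ∈ B
      · rw [if_pos hi, if_pos hi, zero_add]
        exact hcard2 i hi
      · rw [if_neg hi, if_neg hi, add_zero]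
        exact hcard i hi
    have h2 : ∀ g : Fin C.size → ℕ, ∑ i : {i : Fin C.size // lev i = k + 1}, g i.1 ≤
        ∑ i, g i := by
      intro g
      calc ∑ i : {i : Fin C.size // lev i = k + 1}, g i.1
          = ∑ i ∈ univ.filter (fun i => lev i = k + 1), g i := by
            refine Finset.sum_bij (fun i _ => i.1) ?_ ?_ ?_ ?_
            · intro i _; simp [i.2]
            · intro i _ j _ h; exact Subtype.ext h
            · intro i hi; exact ⟨⟨i, by simpa using hi⟩, by simp, rfl⟩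
            · intro i _; rfl
        _ ≤ ∑ i, g i := sum_le_sum_of_subset (filter_subset _ _)
    refine h1.trans ((h2 (fun i => (if i ∈ B then 0 else (C.ins i).card) +
      if i ∈ B then 3 * s ^ 2 else 0)).trans ?_)
    rw [sum_add_distrib]
    apply le_of_eq
    congr 1
    · rw [← Finset.sum_compl_add_sum B]
      rw [Finset.sum_congr rfl (fun i (hi : i ∈ B) => if_pos hi), Finset.sum_const_zero, add_zero]
      exact sum_congr rfl fun i hi => if_neg (mem_compl.mp hi)
    · rw [← Finset.sum_compl_add_sum B]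
      rw [Finset.sum_congr rfl (fun i (hi : i ∈ B) => if_pos hi),
        Finset.sum_congr rfl (fun i (hi : i ∈ Bᶜ) => if_neg (mem_compl.mp hi)),
        Finset.sum_const_zero, zero_add, sum_const, smul_eq_mul, mul_comm]

/-- the parameters -/
def DD2 (D₀ : ℕ) : ℕ → ℕ
  | 0 => D₀
  | k + 1 => 2 * 10 ^ 62 * (128 * DD2 D₀ k) ^ 31

theorem DD2_pos {D₀ : ℕ} (h : 1 ≤ D₀) (k : ℕ) : 1 ≤ DD2 D₀ k := by
  induction k with
  | zero => exact h
  | succ k ih =>
    show 1 ≤ 2 * 10 ^ 62 * (128 * DD2 D₀ k) ^ 31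
    have : 1 ≤ (128 * DD2 D₀ k) ^ 31 := Nat.one_le_pow _ _ (by omega)
    omega

theorem DD2_ge {D₀ : ℕ} (h : 1 ≤ D₀) (k : ℕ) : D₀ ≤ DD2 D₀ k := by
  induction k with
  | zero => exact le_rfl
  | succ k ih =>
    show D₀ ≤ 2 * 10 ^ 62 * (128 * DD2 D₀ k) ^ 31
    have h1 : 128 * DD2 D₀ k ≤ (128 * DD2 D₀ k) ^ 31 := Nat.le_self_pow (by norm_num) _
    omega

theorem DD2_le {D₀ : ℕ} (k : ℕ) : 2 * 10 ^ 4 * DD2 D₀ k ≤ (2 * 10 ^ 4 * D₀) ^ (31 ^ k) := by
  induction k with
  | zero => simp [DD2]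
  | succ k ih =>
    show 2 * 10 ^ 4 * (2 * 10 ^ 62 * (128 * DD2 D₀ k) ^ 31) ≤ _
    calc 2 * 10 ^ 4 * (2 * 10 ^ 62 * (128 * DD2 D₀ k) ^ 31)
        = (2 * 10 ^ 4 * (2 * 10 ^ 62) * 128 ^ 31) * DD2 D₀ k ^ 31 := by
          rw [mul_pow 128]; ring
      _ ≤ (2 * 10 ^ 4) ^ 31 * DD2 D₀ k ^ 31 := Nat.mul_le_mul_right _ (by norm_num)
      _ = (2 * 10 ^ 4 * DD2 D₀ k) ^ 31 := by rw [mul_pow (2 * 10 ^ 4)]
      _ ≤ ((2 * 10 ^ 4 * D₀) ^ (31 ^ k)) ^ 31 := Nat.pow_le_pow_left ih _
      _ = (2 * 10 ^ 4 * D₀) ^ (31 ^ (k + 1)) := by rw [← pow_mul, pow_succ 31 k]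

/-- Circuits whose inputs are functions of at most one edge of the tripartite graph, correct on
graphs with at most one triangle. -/
theorem circuit_core2 (hs : StageStmt) (hp : PreStmt) (n d κ s : ℕ) {ι : Type} (C : Circuit ι)
    (hd : C.HasDepth d) (B : Finset (Fin C.size)) (hB : ∀ i ∈ B, C.AndOr i)
    (hg : ∀ i ∉ B, C.Threshold i ∨ (C.ins i).card ≤ κ)
    (hs1 : 384 * B.card * 3 ^ s ≤ 4 ^ s)
    (inp : ι → (Ed n → Bool) → Bool) (σ : ι → Option (Ed n))
    (hσ : ∀ a (z z' : Ed n → Bool), (∀ e ∈ σ a, z e = z' e) → inp a z = inp a z')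
    (hC : ∀ z : Ed n → Bool, (∀ T T' : Tr n, (∀ t, z (te T t) = true) →
      (∀ t, z (te T' t) = true) → T = T') →
      (C.run (fun a => inp a z) d C.out = true ↔ ∃ T : Tr n, ∀ t, z (te T t) = true))
    (D₀ : ℕ) (hD : 1 ≤ D₀) (hκ : κ ≤ D₀) (hs2 : 3 * s ^ 2 ≤ D₀)
    (hW : 4 * ((∑ i ∈ Bᶜ, (C.ins i).card) + 3 * s ^ 2 * B.card) ≤ D₀ * n ^ 2) :
    n < (2 * 10 ^ 4 * D₀) ^ (31 ^ d) := by
  classical
  by_contra hcon
  push Not at hcon
  obtain ⟨lev, hlev1, hlev⟩ := hd
  let val : (Ed n → Bool) → (ι ⊕ Fin C.size) → Bool := fun z =>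
    Sum.elim (fun a => inp a z) (C.run (fun a => inp a z) d)
  have hval : ∀ z i, val z (Sum.inr i) = C.fn i (val z) := by
    intro z i
    show C.run (fun a => inp a z) d i = C.run (fun a => inp a z) (d + 1) i
    exact run_eq C lev (fun i => (hlev1 i).1) hlev _ (lev i) i le_rfl d (d + 1) (hlev1 i).2
      ((hlev1 i).2.trans (Nat.le_succ d))
  have hn1 : 1 ≤ n := by
    refine le_trans ?_ hcon
    exact Nat.one_le_pow _ _ (by omega)
  set W : ℕ := (∑ i ∈ Bᶜ, (C.ins i).card) + 3 * s ^ 2 * B.card with hWdef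
  have hinv : ∀ k, k ≤ d → Inv (Sum.elim (fun _ => 0) lev) val W k (DD2 D₀ k) := by
    intro k
    induction k with
    | zero =>
      intro _
      have htri : (tris (univ : Finset (Ed n))) = univ := by
        unfold tris
        simp
      have hcardT : (tris (univ : Finset (Ed n))).card = n ^ 3 := by
        rw [htri, card_univ]
        simp
      refine ⟨univ, fun _ => false, Sum.elim σ (fun _ => none), fun _ _ _ _ => mem_univ _, ?_, ?_,
        fun _ _ _ => mem_univ _, ?_⟩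
      · intro a ha z z' hz
        have hext : ∀ z : Ed n → Bool, ext univ (fun _ => false) z = z := by
          intro z; funext e; simp [ext]
        rw [hext, hext]
        rcases a with a | i
        · exact hσ a z z' hz
        · have h1 := (hlev1 i).1
          have h2 : lev i ≤ 0 := ha
          omega
      · rw [hcardT]
        positivity
      · rw [hcardT]
        show 4 * n * W ≤ D₀ * n ^ 3
        calc 4 * n * W = n * (4 * W) := by ring
          _ ≤ n * (D₀ * n ^ 2) := Nat.mul_le_mul_left _ hW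
          _ = D₀ * n ^ 3 := by ring
    | succ k ih =>
      intro hk
      refine inv_step2 hs hp C lev hlev B hB hg hs1 le_rfl val hval k (DD2 D₀ k) (DD2_pos hD k)
        (hκ.trans (DD2_ge hD k)) (hs2.trans (DD2_ge hD k)) ?_ (ih (by omega))
      have h1 : (2 * 10 ^ 4 * DD2 D₀ k) ^ 31 ≤ n := by
        calc (2 * 10 ^ 4 * DD2 D₀ k) ^ 31 ≤ ((2 * 10 ^ 4 * D₀) ^ (31 ^ k)) ^ 31 :=
              Nat.pow_le_pow_left (DD2_le k) _
          _ = (2 * 10 ^ 4 * D₀) ^ (31 ^ (k + 1)) := by rw [← pow_mul, pow_succ 31 k]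
          _ ≤ (2 * 10 ^ 4 * D₀) ^ (31 ^ d) :=
              Nat.pow_le_pow_right (by omega) (Nat.pow_le_pow_right (by norm_num) hk)
          _ ≤ n := hcon
      refine le_trans ?_ h1
      rw [mul_pow (2 * 10 ^ 4), mul_pow 128, ← mul_assoc]
      exact Nat.mul_le_mul (by norm_num) (Nat.pow_le_pow_right (DD2_pos hD k) (by norm_num))
  obtain ⟨G, b, sg, -, hsg, hpos, hsafe, -⟩ := hinv d le_rfl
  obtain ⟨T, hT⟩ := card_pos.mp hpos
  have hT' : ∀ t, te T t ∈ G := by
    have := (mem_filter.mp hT).2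
    exact this
  set so := sg (Sum.inr C.out) with hso
  let z1 : Ed n → Bool := fun e => decide (∃ t, te T t = e)
  let z2 : Ed n → Bool := fun e => z1 e && decide (e ∈ so)
  have hz12 : ∀ e ∈ so, z1 e = z2 e := by
    intro e he
    show z1 e = (z1 e && decide (e ∈ so))
    rw [decide_eq_true he, Bool.and_true]
  have hdep := hsg (Sum.inr C.out) (hlev1 C.out).2 z1 z2 hz12
  have hinG : ∀ (z : Ed n → Bool) (T' : Tr n), (∀ t, ext G b z (te T' t) = true) →
      ∀ t, te T' t ∈ G := by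
    intro z T' h
    refine hsafe T' fun t => ?_
    by_cases h4 : te T' t ∈ G
    · exact Or.inl h4
    · right
      have := h t
      simpa [ext, h4] using this
  have hz : ∀ (z : Ed n → Bool) (T' : Tr n), (∀ t, ext G b z (te T' t) = true) →
      ∀ t, z (te T' t) = true := by
    intro z T' h t
    have h1 := hinG z T' h t
    have := h t
    simpa [ext, h1] using this
  have hT1 : ∀ T' : Tr n, (∀ t, ext G b z1 (te T' t) = true) → T' = T := by
    intro T' h
    funext t
    have h1 := hz z1 T' h t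
    have h2 : ∃ u, te T u = te T' t := by simpa [z1] using h1
    obtain ⟨u, hu⟩ := h2
    have h3 : u = t := congrArg Prod.fst hu
    subst h3
    exact (congrArg (fun e => e.2.1) hu).symm
  have h1 : val (ext G b z1) (Sum.inr C.out) = true := by
    refine (hC _ ?_).mpr ⟨T, fun t => ?_⟩
    · intro T₁ T₂ h₁ h₂
      rw [hT1 T₁ h₁, hT1 T₂ h₂]
    · have : z1 (te T t) = true := by simp [z1]
      simp [ext, hT' t, this]
  have h2 : val (ext G b z2) (Sum.inr C.out) = true := by
    rw [← hdep]; exact h1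
  have hno : ∀ T' : Tr n, ¬ ∀ t, ext G b z2 (te T' t) = true := by
    intro T' h
    have h5 : ∀ t, te T' t ∈ so := by
      intro t
      have := hz z2 T' h t
      have h6 : z1 (te T' t) = true ∧ te T' t ∈ so := by
        simpa [z2] using this
      exact h6.2
    have h6 := h5 0
    have h7 := h5 1
    have h8 : te T' 0 = te T' 1 := by
      rw [Option.mem_def] at h6 h7
      rw [h6] at h7
      exact Option.some.inj h7
    have h9 : (0 : Fin 3) = 1 := congrArg Prod.fst h8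
    exact absurd h9 (by decide)
  obtain ⟨T', hT2⟩ := (hC _ (fun T₁ T₂ h₁ _ => absurd h₁ (hno T₁))).mp h2
  exact hno T' hT2

theorem enc_dec (N : ℕ) (x : Fin N) (c : Fin 3) (u : Fin (N / 3)) (h : dec N x = some (c, u)) :
    x = enc N c u := by
  unfold dec at h
  split_ifs at h with hx
  have h1 := Option.some.inj h
  have h2 : x.1 / (N / 3) = c.1 := congrArg (fun y : Fin 3 × Fin (N / 3) => y.1.1) h1
  have h3 : x.1 % (N / 3) = u.1 := congrArg (fun y : Fin 3 × Fin (N / 3) => y.2.1) h1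
  apply Fin.ext
  show x.1 = (N / 3) * c.1 + u.1
  rw [← h2, ← h3]
  exact (Nat.div_add_mod _ _).symm

theorem num2 (n N W' b κ s L cost D : ℝ) (hn : 1 ≤ n) (hN0 : 0 < N) (hN : N ≤ 5 * n)
    (hW : 0 ≤ W') (hb : 0 ≤ b) (hκ : 0 ≤ κ) (hs0 : 0 ≤ s) (hL : 1 ≤ L) (hs : s ≤ 24 * L)
    (hcost : cost = b + W')
    (hD : D ≤ 4 * (W' + 3 * s ^ 2 * b) / n ^ 2 + 1 + κ + 3 * s ^ 2 + 1) :
    D ≤ 172800 * L ^ 2 * (cost / N ^ 2 + κ + 1) := by
  have hL2 : 1 ≤ L ^ 2 := one_le_pow₀ hL
  have hsL2 : 3 * s ^ 2 ≤ 1728 * L ^ 2 := by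
    have h1 : s ^ 2 ≤ (24 * L) ^ 2 := pow_le_pow_left₀ hs0 hs 2
    nlinarith
  have h2 : W' + 3 * s ^ 2 * b ≤ 1728 * L ^ 2 * cost := by
    rw [hcost]
    have h3 : 3 * s ^ 2 * b ≤ 1728 * L ^ 2 * b := mul_le_mul_of_nonneg_right hsL2 hb
    have h4 : 1 * W' ≤ (1728 * L ^ 2) * W' := mul_le_mul_of_nonneg_right (by linarith) hW
    linarith
  have hn0 : 0 < n := by linarith
  have h3 : 4 * (W' + 3 * s ^ 2 * b) / n ^ 2 ≤ 172800 * L ^ 2 * (cost / N ^ 2) := by
    rw [mul_div_assoc', div_le_div_iff₀ (pow_pos hn0 2) (pow_pos hN0 2)]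
    have h5 : N ^ 2 ≤ 25 * n ^ 2 := by
      have := pow_le_pow_left₀ hN0.le hN 2
      nlinarith
    calc 4 * (W' + 3 * s ^ 2 * b) * N ^ 2
        ≤ 4 * (1728 * L ^ 2 * cost) * (25 * n ^ 2) := by
          refine mul_le_mul (by linarith) h5 (by positivity) ?_
          have : 0 ≤ cost := by rw [hcost]; linarith
          positivity
      _ = 172800 * L ^ 2 * cost * n ^ 2 := by ring
  have h6 : 1 * κ ≤ (172800 * L ^ 2) * κ := mul_le_mul_of_nonneg_right (by linarith) hκ
  have h7 : 172800 * L ^ 2 * (cost / N ^ 2 + κ + 1) =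
      172800 * L ^ 2 * (cost / N ^ 2) + 172800 * L ^ 2 * κ + 172800 * L ^ 2 := by ring
  rw [h7]
  linarith

/-- graphs on `N` vertices, adjacency matrix as input; correct on graphs with at most one
triangle -/
theorem graph_core2 (hs : StageStmt) (hp : PreStmt) (N d κ : ℕ) (hN : 3 ≤ N)
    (C : Circuit (Fin N × Fin N)) (hd : C.HasDepth d) (B : Finset (Fin C.size))
    (hB : ∀ i ∈ B, C.AndOr i) (hg : ∀ i ∉ B, C.Threshold i ∨ (C.ins i).card ≤ κ)
    (hC : ∀ G : SimpleGraph (Fin N), (G.cliqueSet 3).Subsingleton →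
      ∀ x : Fin N × Fin N → Bool, (∀ p, x p = true ↔ G.Adj p.1 p.2) →
      (C.run x d C.out = true ↔ (G.cliqueSet 3).Nonempty)) :
    (N : ℝ) ≤ (10 ^ 11 * (1 + Nat.log 2 B.card) ^ 2 *
      ((C.cost B : ℝ) / N ^ 2 + κ + 1)) ^ (31 ^ d) := by
  classical
  set n := N / 3 with hn
  have hn1 : 1 ≤ n := by omega
  have hN5 : N ≤ 5 * n := by omega
  have hn1' : (1 : ℝ) ≤ n := by exact_mod_cast hn1
  have hN5' : (N : ℝ) ≤ 5 * n := by exact_mod_cast hN5
  have hN0 : (0 : ℝ) < N := by
    have : (3 : ℝ) ≤ N := by exact_mod_cast hN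
    linarith
  -- the graph of `z`
  have hsymm : ∀ (z : Ed n → Bool) (p q : Fin N), inpm N (p, q) z = inpm N (q, p) z := by
    intro z p q
    unfold inpm
    rw [sgm_comm]
  have hirr : ∀ (z : Ed n → Bool) (p : Fin N), ¬ inpm N (p, p) z = true := by
    intro z p h
    obtain ⟨c, u, c', v, h1, h2, h3, -⟩ := inpm_true' N p p z h
    rw [h1] at h2
    exact h3 (congrArg Prod.fst (Option.some.inj h2))
  let GG : (Ed n → Bool) → SimpleGraph (Fin N) := fun z =>
    { Adj := fun p q => inpm N (p, q) z = true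
      symm := ⟨fun p q h => by rw [hsymm]; exact h⟩
      loopless := ⟨fun p h => hirr z p h⟩ }
  -- cliques and triples
  have hclique : ∀ (z : Ed n → Bool) (S : Finset (Fin N)), S ∈ (GG z).cliqueSet 3 →
      ∃ T : Tr n, (∀ t, z (te T t) = true) ∧ S = univ.image (fun t => enc N t (T t)) := by
    intro z S hS
    rw [SimpleGraph.mem_cliqueSet_iff, SimpleGraph.is3Clique_iff] at hS
    obtain ⟨a, b, c, hab, hac, hbc, rfl⟩ := hS
    obtain ⟨ca, ua, cb, ub, ha, hb, hne1, -⟩ := inpm_true' N a b z hab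
    obtain ⟨cb', ub', cc, uc, hb', hc, hne2, -⟩ := inpm_true' N b c z hbc
    obtain ⟨ca', ua', cc', uc', ha', hc', hne3, -⟩ := inpm_true' N a c z hac
    rw [hb] at hb'
    obtain ⟨rfl, rfl⟩ := Prod.mk.inj (Option.some.inj hb')
    rw [ha] at ha'
    obtain ⟨rfl, rfl⟩ := Prod.mk.inj (Option.some.inj ha')
    rw [hc] at hc'
    obtain ⟨rfl, rfl⟩ := Prod.mk.inj (Option.some.inj hc')
    have hadj : ∀ x ∈ ({a, b, c} : Finset (Fin N)), ∀ y ∈ ({a, b, c} : Finset (Fin N)), x ≠ y →
        inpm N (x, y) z = true := by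
      intro x hx y hy hxy
      simp only [mem_insert, mem_singleton] at hx hy
      rcases hx with rfl | rfl | rfl <;> rcases hy with rfl | rfl | rfl
      · exact absurd rfl hxy
      · exact hab
      · exact hac
      · rw [hsymm]; exact hab
      · exact absurd rfl hxy
      · exact hbc
      · rw [hsymm]; exact hac
      · rw [hsymm]; exact hbc
      · exact absurd rfl hxy
    have hall : ∀ t : Fin 3, t = ca ∨ t = cb ∨ t = cc := fin3_d ca cb cc hne1 hne2 hne3
    have hsel : ∀ t : Fin 3, ∃ x ∈ ({a, b, c} : Finset (Fin N)), ∃ u : Fin n,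
        dec N x = some (t, u) := by
      intro t
      rcases hall t with rfl | rfl | rfl
      · exact ⟨a, by simp, ua, ha⟩
      · exact ⟨b, by simp, ub, hb⟩
      · exact ⟨c, by simp, uc, hc⟩
    choose x hx u hu using hsel
    refine ⟨u, fun t => ?_, ?_⟩
    · have hne : x t ≠ x (t + 1) := by
        intro h
        have h1 := hu t
        rw [h, hu (t + 1)] at h1
        have h2 : t + 1 = t := congrArg Prod.fst (Option.some.inj h1)
        exact fin3_c t h2
      obtain ⟨c1, v1, c2, v2, e1, e2, -, e3⟩ :=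
        inpm_true' N _ _ z (hadj (x t) (hx t) (x (t + 1)) (hx (t + 1)) hne)
      rw [hu t] at e1
      rw [hu (t + 1)] at e2
      obtain ⟨rfl, rfl⟩ := Prod.mk.inj (Option.some.inj e1)
      obtain ⟨rfl, rfl⟩ := Prod.mk.inj (Option.some.inj e2)
      exact e3 rfl
    · symm
      apply Finset.eq_of_subset_of_card_le
      · intro y hy
        obtain ⟨t, -, rfl⟩ := mem_image.mp hy
        rw [← enc_dec N (x t) t (u t) (hu t)]
        exact hx t
      · rw [Finset.card_image_of_injective]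
        · simpa using Finset.card_le_three
        · intro t t' htt
          have h1 := dec_enc N t (u t)
          rw [show enc N t (u t) = enc N t' (u t') from htt, dec_enc] at h1
          exact (congrArg Prod.fst (Option.some.inj h1)).symm
  have hC' : ∀ z : Ed n → Bool, (∀ T T' : Tr n, (∀ t, z (te T t) = true) →
      (∀ t, z (te T' t) = true) → T = T') →
      (C.run (fun a => inpm N a z) d C.out = true ↔ ∃ T : Tr n, ∀ t, z (te T t) = true) := by
    intro z huniq
    rw [hC (GG z) ?_ (fun a => inpm N a z) (fun p => Iff.rfl)]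
    · constructor
      · rintro ⟨S, hS⟩
        obtain ⟨T, hT, -⟩ := hclique z S hS
        exact ⟨T, hT⟩
      · rintro ⟨T, hT⟩
        have hedge : ∀ t : Fin 3, inpm N (enc N t (T t), enc N (t + 1) (T (t + 1))) z = true := by
          intro t
          rw [inpm_true]
          exact ⟨_, sgm_enc N t _ _, hT t⟩
        refine ⟨{enc N 0 (T 0), enc N 1 (T 1), enc N 2 (T 2)}, ?_⟩
        rw [SimpleGraph.mem_cliqueSet_iff, SimpleGraph.is3Clique_iff]
        refine ⟨enc N 0 (T 0), enc N 1 (T 1), enc N 2 (T 2), hedge 0, ?_, hedge 1, rfl⟩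
        show inpm N (_, _) z = true
        rw [hsymm]
        exact hedge 2
    · intro S hS S' hS'
      obtain ⟨T, hT, rfl⟩ := hclique z S hS
      obtain ⟨T', hT', rfl⟩ := hclique z S' hS'
      rw [huniq T T' hT hT']
  have hσ : ∀ a (z z' : Ed n → Bool), (∀ e ∈ sgm N a, z e = z' e) → inpm N a z = inpm N a z' := by
    intro a z z' hz
    unfold inpm
    cases h : sgm N a with
    | none => rfl
    | some e => exact hz e (by rw [h]; rfl)
  set l : ℕ := Nat.log 2 B.card with hl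
  set s : ℕ := 24 + 3 * l with hs0
  set W' : ℕ := ∑ i ∈ Bᶜ, (C.ins i).card with hW'
  have hs1 : 384 * B.card * 3 ^ s ≤ 4 ^ s := by
    have h1 : B.card ≤ 2 ^ (l + 1) := (Nat.lt_pow_succ_log_self (by norm_num) _).le
    calc 384 * B.card * 3 ^ s ≤ 384 * 2 ^ (l + 1) * 3 ^ s :=
          Nat.mul_le_mul_right _ (Nat.mul_le_mul_left _ h1)
      _ = (384 * 3 ^ 21) * 54 ^ (l + 1) := by
          rw [hs0, show 24 + 3 * l = 21 + 3 * (l + 1) by ring, pow_add 3, pow_mul 3,
            show (54 : ℕ) = 2 * 3 ^ 3 by norm_num, mul_pow]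
          ring
      _ ≤ 4 ^ 21 * 64 ^ (l + 1) :=
          Nat.mul_le_mul (by norm_num) (Nat.pow_le_pow_left (by norm_num) _)
      _ = 4 ^ s := by
          rw [hs0, show 24 + 3 * l = 21 + 3 * (l + 1) by ring, pow_add 4, pow_mul 4]
          norm_num
  set D₀ : ℕ := ⌈4 * ((W' : ℝ) + 3 * s ^ 2 * B.card) / n ^ 2⌉₊ + κ + 3 * s ^ 2 + 1 with hD0
  have hW : 4 * (W' + 3 * s ^ 2 * B.card) ≤ D₀ * n ^ 2 := by
    have h1 : 4 * ((W' : ℝ) + 3 * s ^ 2 * B.card) / n ^ 2 ≤ D₀ := by
      refine (Nat.le_ceil _).trans ?_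
      rw [hD0]
      push_cast
      have : (0 : ℝ) ≤ κ := Nat.cast_nonneg _
      have h2 : (0 : ℝ) ≤ 3 * (s : ℝ) ^ 2 := by positivity
      linarith
    rw [div_le_iff₀ (by positivity)] at h1
    exact_mod_cast h1
  have hmain := circuit_core2 hs hp n d κ s C hd B hB hg hs1 (fun a z => inpm N a z) (sgm N) hσ
    hC' D₀ (by omega) (by omega) (by omega) hW
  have hκ0 : (0 : ℝ) ≤ κ := Nat.cast_nonneg _
  have hcost : (C.cost B : ℝ) = B.card + W' := by
    have h : C.cost B = B.card + W' := rfl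
    rw [h, Nat.cast_add]
  set L : ℝ := 1 + (l : ℝ) with hL
  have hL1 : 1 ≤ L := by
    rw [hL]
    have : (0 : ℝ) ≤ l := Nat.cast_nonneg _
    linarith
  have hL2 : 1 ≤ L ^ 2 := one_le_pow₀ hL1
  have hsL : (s : ℝ) ≤ 24 * L := by
    rw [hs0, hL]
    push_cast
    have : (0 : ℝ) ≤ l := Nat.cast_nonneg _
    linarith
  have hB0 : (0 : ℝ) ≤ B.card := Nat.cast_nonneg _
  have hW0 : (0 : ℝ) ≤ W' := Nat.cast_nonneg _
  have hcost0 : (0 : ℝ) ≤ (C.cost B : ℝ) := Nat.cast_nonneg _
  have hnpos : (0 : ℝ) < (n : ℝ) ^ 2 := pow_pos (by linarith) 2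
  have harg : 0 ≤ 4 * ((W' : ℝ) + 3 * (s : ℝ) ^ 2 * B.card) / (n : ℝ) ^ 2 := by
    refine div_nonneg (mul_nonneg (by norm_num) (add_nonneg hW0 ?_)) hnpos.le
    exact mul_nonneg (mul_nonneg (by norm_num) (sq_nonneg _)) hB0
  have hD1 : (D₀ : ℝ) ≤ 172800 * L ^ 2 * ((C.cost B : ℝ) / N ^ 2 + κ + 1) := by
    refine num2 n N W' B.card κ s L _ D₀ hn1' hN0 hN5' hW0 hB0 hκ0 (Nat.cast_nonneg _) hL1 hsL
      hcost ?_
    have h1 : (⌈4 * ((W' : ℝ) + 3 * s ^ 2 * B.card) / n ^ 2⌉₊ : ℝ) <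
        4 * ((W' : ℝ) + 3 * s ^ 2 * B.card) / n ^ 2 + 1 :=
      Nat.ceil_lt_add_one harg
    have h7 : (D₀ : ℝ) = (⌈4 * ((W' : ℝ) + 3 * s ^ 2 * B.card) / n ^ 2⌉₊ : ℝ) + κ +
        3 * s ^ 2 + 1 := by
      rw [hD0, Nat.cast_add, Nat.cast_add, Nat.cast_add, Nat.cast_mul, Nat.cast_pow]
      norm_num
    rw [h7]
    linarith
  have hpow : 1 ≤ 31 ^ d := Nat.one_le_pow _ _ (by norm_num)
  have h5 : (5 : ℝ) ≤ 5 ^ (31 ^ d) := by
    calc (5 : ℝ) = 5 ^ 1 := by norm_num
      _ ≤ 5 ^ (31 ^ d) := pow_le_pow_right₀ (by norm_num) hpow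
  have hmain' : (n : ℝ) ≤ (2 * 10 ^ 4 * (D₀ : ℝ)) ^ (31 ^ d) := by
    have := hmain.le
    exact_mod_cast this
  calc (N : ℝ) ≤ 5 * n := hN5'
    _ ≤ 5 ^ (31 ^ d) * (2 * 10 ^ 4 * (D₀ : ℝ)) ^ (31 ^ d) :=
        mul_le_mul h5 hmain' (by linarith) (by linarith)
    _ = (5 * (2 * 10 ^ 4 * (D₀ : ℝ))) ^ (31 ^ d) := (mul_pow _ _ _).symm
    _ ≤ (10 ^ 11 * L ^ 2 * ((C.cost B : ℝ) / N ^ 2 + κ + 1)) ^ (31 ^ d) := by
        have hD00 : (0 : ℝ) ≤ D₀ := Nat.cast_nonneg _
        refine pow_le_pow_left₀ (by linarith) ?_ _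
        have h6 : (0 : ℝ) ≤ (C.cost B : ℝ) / N ^ 2 + κ + 1 :=
          add_nonneg (add_nonneg (div_nonneg hcost0 (sq_nonneg _)) hκ0) zero_le_one
        have h7 : 0 ≤ L ^ 2 * ((C.cost B : ℝ) / N ^ 2 + κ + 1) := mul_nonneg (by linarith) h6
        linarith

end Pool.Agent.L5helper32.TC
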