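import Mathlib

/-!
# Constant depth threshold circuits for triangle detection: common definitions
-/

set_option autoImplicit false

open Finset

namespace Pool.Agent.L5helper32.TC

/-- the edges of the complete tripartite graph with classes of size `n`:
`(t, u, v)` joins the vertex `u` of class `t` and the vertex `v` of class `t + 1` (mod 3) -/
abbrev Ed (n : ℕ) : Type := Fin 3 × Fin n × Fin n

/-- a triple of vertices, one in each class -/
abbrev Tr (n : ℕ) : Type := Fin 3 → Fin n

/-- the edge of type `t` of a triple -/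
def te {n : ℕ} (T : Tr n) (t : Fin 3) : Ed n := (t, T t, T (t + 1))

/-- the triangles of a graph -/
def tris {n : ℕ} (G : Finset (Ed n)) : Finset (Tr n) := univ.filter fun T => ∀ t, te T t ∈ G

/-- the assignment which is `z` on `G` and `b` elsewhere -/
def ext {n : ℕ} (G : Finset (Ed n)) (b z : Ed n → Bool) (e : Ed n) : Bool :=
  if e ∈ G then z e else b e

/-- `f` depends only on the bits in `S`, and it has few such bits or is a threshold gate with real
weights -/
def Gate {n : ℕ} (S : Finset (Ed n)) (κ : ℕ) (f : (Ed n → Bool) → Bool) : Prop :=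
  (∀ x y : Ed n → Bool, (∀ e ∈ S, x e = y e) → f x = f y) ∧
  (S.card ≤ κ ∨ ∃ (w : Ed n → ℝ) (t : ℝ), ∀ x : Ed n → Bool,
    (f x = true ↔ t ≤ ∑ e ∈ S, w e * (if x e then 1 else 0)))

/-- the labels of the vertices: `(c, u, b)` is the coordinate `b` of the vertex `u` of class `c` -/
abbrev Co (n : ℕ) : Type := Fin 3 × Fin n × Bool

abbrev Lab (n m : ℕ) : Type := Co n → Fin m

/-- `u` is in the first subset of class `c` -/
def in1 {n m : ℕ} (L : Lab n m) (c : Fin 3) (u : Fin n) : Prop := (L (c, u, false)).val = 0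

/-- `u` is in the second subset of class `c` -/
def in2 {n m : ℕ} (L : Lab n m) (c : Fin 3) (u : Fin n) : Prop :=
  (L (c, u, false)).val = 0 ∧ (L (c, u, true)).val = 0

/-- open edges -/
def opn {n m : ℕ} (L : Lab n m) (e : Ed n) : Prop :=
  (e.1 = 1 → in1 L 1 e.2.1) ∧ (e.1 = 2 → in1 L 2 e.2.1 ∧ in1 L 0 e.2.2)

/-- candidates -/
def cand {n m : ℕ} (L : Lab n m) (e : Ed n) : Prop :=
  (e.1 = 0 → in1 L 0 e.2.1 ∧ in1 L 1 e.2.2) ∧ (e.1 = 1 → in2 L 1 e.2.1 ∧ in1 L 2 e.2.2) ∧
    (e.1 = 2 → in2 L 2 e.2.1 ∧ in2 L 0 e.2.2)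

/-- live edges -/
def live {n m : ℕ} (L : Lab n m) (e : Ed n) : Prop := in2 L e.1 e.2.1 ∧ in2 L (e.1 + 1) e.2.2

/-- the triple `T` is live -/
def liveT {n m : ℕ} (L : Lab n m) (T : Tr n) : Prop := ∀ c, in2 L c (T c)

noncomputable section
open Classical in
instance {n m : ℕ} (L : Lab n m) (e : Ed n) : Decidable (opn L e) := Classical.propDecidable _
open Classical in
instance {n m : ℕ} (L : Lab n m) (e : Ed n) : Decidable (cand L e) := Classical.propDecidable _
open Classical in
instance {n m : ℕ} (L : Lab n m) (e : Ed n) : Decidable (live L e) := Classical.propDecidable _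
open Classical in
instance {n m : ℕ} (L : Lab n m) (T : Tr n) : Decidable (liveT L T) := Classical.propDecidable _
end

end Pool.Agent.L5helper32.TC
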