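import Pool.Agent.L5helper32.TC.Circ2

/-!
# The lower bound: explicit and asymptotic form
-/

set_option autoImplicit false

open Finset

namespace Pool.Agent.L5helper32.TC

/-- The circuit `C`, whose inputs are the entries of the adjacency matrix of a graph on `N`
vertices, has depth at most `d`; its gates in `B` are ANDs and ORs with arbitrary negations, every
other gate is a threshold gate with real weights or has at most `κ` wires; and it decides whether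
there is a triangle in every graph with at most one triangle. -/
def Detects (N d κ : ℕ) (C : Circuit (Fin N × Fin N)) (B : Finset (Fin C.size)) : Prop :=
  C.HasDepth d ∧ (∀ i ∈ B, C.AndOr i) ∧ (∀ i ∉ B, C.Threshold i ∨ (C.ins i).card ≤ κ) ∧
    ∀ G : SimpleGraph (Fin N), (G.cliqueSet 3).Subsingleton →
      ∀ x : Fin N × Fin N → Bool, (∀ p, x p = true ↔ G.Adj p.1 p.2) →
      (C.run x d C.out = true ↔ (G.cliqueSet 3).Nonempty)

theorem asym (d : ℕ) (hd : 1 ≤ d) : ∃ N₀ : ℕ, ∀ N : ℕ, N₀ ≤ N →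
    ∀ (A c κ : ℕ), (A : ℝ) ≤ c → (κ : ℝ) ≤ (N : ℝ) ^ ((1 : ℝ) / 32 ^ d) →
    (N : ℝ) ≤ (10 ^ 11 * (1 + Nat.log 2 A) ^ 2 * ((c : ℝ) / N ^ 2 + κ + 1)) ^ (31 ^ d) →
    (N : ℝ) ^ (2 + (1 : ℝ) / 32 ^ d) ≤ c := by
  set ε : ℝ := (1 : ℝ) / 32 ^ d with hε
  set δ : ℝ := (1 : ℝ) / 31 ^ d with hδ
  have h31 : (31 : ℝ) ^ d < 32 ^ d := pow_lt_pow_left₀ (by norm_num) (by norm_num) (by omega)
  have h31p : (0 : ℝ) < 31 ^ d := by positivity
  have hεδ : ε < δ := one_div_lt_one_div_of_lt h31p h31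
  have hε0 : 0 < ε := by positivity
  have hε1 : ε ≤ 1 := by
    rw [hε, div_le_one (by positivity)]
    exact one_le_pow₀ (by norm_num)
  -- the growth estimate
  have hlim : ∀ᶠ x : ℝ in Filter.atTop,
      3 * 10 ^ 11 * (1 + 3 * (Real.log x / Real.log 2)) ^ 2 < x ^ (δ - ε) := by
    have h1 : (fun x : ℝ => Real.log x) =o[Filter.atTop] fun x => x ^ ((δ - ε) / 4) :=
      isLittleO_log_rpow_atTop (by linarith)
    have hlog2 : 0 < Real.log 2 := Real.log_pos (by norm_num)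
    have h2 := h1.bound (c := Real.log 2 / 3) (by positivity)
    have h3 : ∀ᶠ x : ℝ in Filter.atTop, 3 * 10 ^ 11 * 4 < x ^ ((δ - ε) / 2) :=
      (tendsto_rpow_atTop (by linarith : 0 < (δ - ε) / 2)).eventually_gt_atTop _
    filter_upwards [h2, h3, Filter.eventually_ge_atTop (1 : ℝ)] with x hx2 hx3 hx1
    have hx0 : 0 < x := by linarith
    have hlx : 0 ≤ Real.log x := Real.log_nonneg hx1
    have hp : 1 ≤ x ^ ((δ - ε) / 4) := Real.one_le_rpow hx1 (by linarith)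
    rw [Real.norm_of_nonneg hlx, Real.norm_of_nonneg (by linarith)] at hx2
    have h4 : 3 * (Real.log x / Real.log 2) ≤ x ^ ((δ - ε) / 4) := by
      rw [mul_div_assoc', div_le_iff₀ hlog2]
      linarith
    have h5 : (1 + 3 * (Real.log x / Real.log 2)) ^ 2 ≤ (2 * x ^ ((δ - ε) / 4)) ^ 2 := by
      have : 0 ≤ Real.log x / Real.log 2 := div_nonneg hlx hlog2.le
      exact pow_le_pow_left₀ (by positivity) (by linarith) 2
    have h6 : (x ^ ((δ - ε) / 4)) ^ 2 = x ^ ((δ - ε) / 2) := by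
      rw [← Real.rpow_natCast, ← Real.rpow_mul hx0.le]
      congr 1
      push_cast
      ring
    have h7 : x ^ (δ - ε) = x ^ ((δ - ε) / 2) * x ^ ((δ - ε) / 2) := by
      rw [← Real.rpow_add hx0]
      congr 1
      ring
    rw [mul_pow, h6] at h5
    rw [h7]
    have h8 : 0 < x ^ ((δ - ε) / 2) := Real.rpow_pos_of_pos hx0 _
    nlinarith
  have hlimN := (tendsto_natCast_atTop_atTop (R := ℝ)).eventually hlim
  obtain ⟨N₀, hN₀⟩ := Filter.eventually_atTop.mp hlimN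
  refine ⟨max N₀ 2, fun N hN A c κ hAc hκ hb => ?_⟩
  by_contra hcon
  push Not at hcon
  have hN2 : 2 ≤ N := le_trans (le_max_right _ _) hN
  have hN1 : (1 : ℝ) ≤ N := by exact_mod_cast (by omega : 1 ≤ N)
  have hN0 : (0 : ℝ) < N := by linarith
  have hgrow := hN₀ N (le_trans (le_max_left _ _) hN)
  have hpow : (1 : ℝ) ≤ (N : ℝ) ^ ε := Real.one_le_rpow hN1 hε0.le
  have hsplit : (N : ℝ) ^ (2 + ε) = (N : ℝ) ^ 2 * (N : ℝ) ^ ε := by
    rw [Real.rpow_add hN0]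
    norm_num
  have h1 : (c : ℝ) / N ^ 2 + κ + 1 ≤ 3 * (N : ℝ) ^ ε := by
    have : (c : ℝ) / N ^ 2 ≤ (N : ℝ) ^ ε := by
      rw [div_le_iff₀ (by positivity)]
      rw [hsplit] at hcon
      linarith
    linarith
  have h2 : (Nat.log 2 A : ℝ) ≤ 3 * (Real.log N / Real.log 2) := by
    have hlog2 : 0 < Real.log 2 := Real.log_pos (by norm_num)
    rcases Nat.eq_zero_or_pos A with hA | hA
    · rw [hA]
      simp only [Nat.log_zero_right, Nat.cast_zero]
      have := Real.log_nonneg hN1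
      positivity
    have h3 : ((2 : ℝ) ^ Nat.log 2 A) ≤ A := by
      exact_mod_cast Nat.pow_log_le_self 2 (by omega)
    have h4 : (A : ℝ) ≤ (N : ℝ) ^ (3 : ℕ) := by
      have h5 : (N : ℝ) ^ (2 + ε) ≤ (N : ℝ) ^ (3 : ℝ) :=
        Real.rpow_le_rpow_of_exponent_le hN1 (by linarith)
      have h6 : (N : ℝ) ^ (3 : ℝ) = (N : ℝ) ^ (3 : ℕ) := by
        rw [← Real.rpow_natCast]
        norm_num
      calc (A : ℝ) ≤ c := hAc
        _ ≤ (N : ℝ) ^ (2 + ε) := hcon.le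
        _ ≤ (N : ℝ) ^ (3 : ℝ) := h5
        _ = (N : ℝ) ^ (3 : ℕ) := h6
    have h7 := Real.log_le_log (by positivity) (h3.trans h4)
    rw [Real.log_pow, Real.log_pow] at h7
    rw [mul_div_assoc', le_div_iff₀ hlog2]
    push_cast at h7
    linarith
  have h4 : 10 ^ 11 * (1 + (Nat.log 2 A : ℝ)) ^ 2 * ((c : ℝ) / N ^ 2 + κ + 1) <
      (N : ℝ) ^ δ := by
    have h4 : 10 ^ 11 * (1 + (Nat.log 2 A : ℝ)) ^ 2 * ((c : ℝ) / N ^ 2 + κ + 1) ≤
        10 ^ 11 * (1 + 3 * (Real.log N / Real.log 2)) ^ 2 * (3 * (N : ℝ) ^ ε) := by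
      refine mul_le_mul ?_ h1 (by positivity) (by positivity)
      refine mul_le_mul_of_nonneg_left ?_ (by positivity)
      exact pow_le_pow_left₀ (by positivity) (by linarith) 2
    have h5 : (N : ℝ) ^ δ = (N : ℝ) ^ (δ - ε) * (N : ℝ) ^ ε := by
      rw [← Real.rpow_add hN0]
      congr 1
      ring
    rw [h5]
    have h6 : 0 < (N : ℝ) ^ ε := by linarith
    nlinarith
  have h5 : (10 ^ 11 * (1 + (Nat.log 2 A : ℝ)) ^ 2 * ((c : ℝ) / N ^ 2 + κ + 1)) ^ (31 ^ d) <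
      ((N : ℝ) ^ δ) ^ (31 ^ d) := by
    exact pow_lt_pow_left₀ h4 (by positivity) (by positivity)
  have h6 : ((N : ℝ) ^ δ) ^ (31 ^ d) = N := by
    rw [← Real.rpow_natCast, ← Real.rpow_mul hN0.le]
    have : δ * ((31 ^ d : ℕ) : ℝ) = 1 := by
      rw [hδ]
      push_cast
      field_simp
    rw [this, Real.rpow_one]
  rw [h6] at h5
  linarith

/-- the two forms of the lower bound -/
theorem final (hs : StageStmt) (hp : PreStmt) :
    (∀ (N d κ : ℕ), 3 ≤ N → ∀ (C : Circuit (Fin N × Fin N)) (B : Finset (Fin C.size)),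
      Detects N d κ C B → (N : ℝ) ≤ (10 ^ 11 * (1 + Nat.log 2 B.card) ^ 2 *
        ((C.cost B : ℝ) / N ^ 2 + κ + 1)) ^ (31 ^ d)) ∧
    ∀ d : ℕ, ∃ N₀ : ℕ, ∀ N : ℕ, N₀ ≤ N → ∀ κ : ℕ, (κ : ℝ) ≤ (N : ℝ) ^ ((1 : ℝ) / 32 ^ d) →
      ∀ (C : Circuit (Fin N × Fin N)) (B : Finset (Fin C.size)), Detects N d κ C B →
      (N : ℝ) ^ (2 + (1 : ℝ) / 32 ^ d) ≤ C.cost B := by
  have h1 : ∀ (N d κ : ℕ), 3 ≤ N → ∀ (C : Circuit (Fin N × Fin N)) (B : Finset (Fin C.size)),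
      Detects N d κ C B → (N : ℝ) ≤ (10 ^ 11 * (1 + Nat.log 2 B.card) ^ 2 *
        ((C.cost B : ℝ) / N ^ 2 + κ + 1)) ^ (31 ^ d) := by
    intro N d κ hN C B ⟨hd, hB, hg, hC⟩
    exact graph_core2 hs hp N d κ hN C hd B hB hg hC
  refine ⟨h1, fun d => ?_⟩
  rcases Nat.eq_zero_or_pos d with rfl | hd
  · refine ⟨0, fun N _ κ _ C B h => ?_⟩
    obtain ⟨⟨lev, hlev, -⟩, -⟩ := h
    have := hlev C.out
    omega
  · obtain ⟨N₀, hN₀⟩ := asym d hd
    refine ⟨max N₀ 3, fun N hN κ hκ C B h => ?_⟩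
    refine hN₀ N (le_trans (le_max_left _ _) hN) B.card (C.cost B) κ ?_ hκ
      (h1 N d κ (le_trans (le_max_right _ _) hN) C B h)
    exact_mod_cast Nat.le_add_right _ _

end Pool.Agent.L5helper32.TC
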