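import Pool.Agent.L5helper32.TC.Window

/-!
# Bad labels and bad votes of a gate
-/

set_option autoImplicit false

open Finset

namespace Pool.Agent.L5helper32.TC

theorem liveT_update {n m : ℕ} (T : Tr n) (y : Co n) (hy : ∀ c b, y ≠ (c, T c, b)) (L : Lab n m)
    (z : Fin m) : liveT (Function.update L y z) T ↔ liveT L T := by
  unfold liveT in2
  refine forall_congr' fun c => ?_
  rw [Function.update_of_ne (fun h => hy c false h.symm),
    Function.update_of_ne (fun h => hy c true h.symm)]

/-- candidates outside `T` are rare -/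
theorem lab_bound {n m : ℕ} (hm : 1 ≤ m) (T : Tr n) (X : Fin 3) (h : Lab n m → Ed n → ℝ)
    (h0 : ∀ L e, 0 ≤ h L e)
    (hdep : ∀ (L : Lab n m) (y : Co n) (z : Fin m),
      (∀ e' : Ed n, e'.1 = X → (opn (Function.update L y z) e' ↔ opn L e')) →
      h (Function.update L y z) = h L) :
    (m : ℝ) * ∑ L ∈ univ.filter (fun L : Lab n m => liveT L T),
        ∑ e ∈ univ.filter (fun e : Ed n => e.1 = X ∧ cand L e ∧ e ≠ te T X), h L e ≤
      ∑ L ∈ univ.filter (fun L : Lab n m => liveT L T),
        ∑ e ∈ univ.filter (fun e : Ed n => e.1 = X), h L e := by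
  classical
  have e1 : ∑ L ∈ univ.filter (fun L : Lab n m => liveT L T),
        ∑ e ∈ univ.filter (fun e : Ed n => e.1 = X ∧ cand L e ∧ e ≠ te T X), h L e =
      ∑ e ∈ univ.filter (fun e : Ed n => e.1 = X), ∑ L : Lab n m,
        (if liveT L T ∧ cand L e ∧ e ≠ te T X then h L e else 0) := by
    rw [Finset.sum_filter]
    simp_rw [Finset.sum_filter]
    rw [← Finset.sum_filter, ← Finset.sum_filter]
    rw [Finset.sum_filter]
    have : ∀ L : Lab n m, (if liveT L T then
        ∑ e : Ed n, (if e.1 = X ∧ cand L e ∧ e ≠ te T X then h L e else 0) else 0) =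
        ∑ e : Ed n, (if e.1 = X then
          (if liveT L T ∧ cand L e ∧ e ≠ te T X then h L e else 0) else 0) := by
      intro L
      by_cases hl : liveT L T
      · rw [if_pos hl]
        refine Finset.sum_congr rfl fun e _ => ?_
        by_cases h1 : e.1 = X <;> simp [h1, hl]
      · rw [if_neg hl]
        symm
        refine Finset.sum_eq_zero fun e _ => ?_
        simp [hl]
    simp_rw [this]
    rw [Finset.sum_comm, Finset.sum_filter]
    refine Finset.sum_congr rfl fun e _ => ?_
    by_cases h1 : e.1 = X <;> simp [h1]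
  have e2 : ∑ L ∈ univ.filter (fun L : Lab n m => liveT L T),
        ∑ e ∈ univ.filter (fun e : Ed n => e.1 = X), h L e =
      ∑ e ∈ univ.filter (fun e : Ed n => e.1 = X), ∑ L : Lab n m,
        (if liveT L T then h L e else 0) := by
    rw [Finset.sum_comm]
    refine Finset.sum_congr rfl fun e _ => ?_
    rw [Finset.sum_filter]
  rw [e1, e2, Finset.mul_sum]
  refine Finset.sum_le_sum fun e he => ?_
  rw [Finset.mem_filter] at he
  by_cases hne : e = te T X
  · have : ∑ L : Lab n m, (if liveT L T ∧ cand L e ∧ e ≠ te T X then h L e else 0) = 0 := by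
      refine Finset.sum_eq_zero fun L _ => ?_
      rw [if_neg]
      rintro ⟨_, _, h3⟩
      exact h3 hne
    rw [this, mul_zero]
    exact Finset.sum_nonneg fun L _ => by
      split_ifs
      · exact h0 L e
      · exact le_rfl
  · obtain ⟨y, hy1, hy2, hy3⟩ := coord_exists (m := m) T e (by rw [he.2]; exact hne)
    let z0 : Fin m := ⟨0, hm⟩
    have hg : ∀ (L : Lab n m) (z : Fin m),
        (if liveT (Function.update L y z) T then h (Function.update L y z) e else 0) =
        (if liveT L T then h L e else 0) := by
      intro L z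
      rw [hdep L y z (fun e' he' => hy3 L z e' (by rw [he', he.2]))]
      simp only [liveT_update T y hy1 L z]
    have hc := coord_eq (fun L : Lab n m => if liveT L T then h L e else 0) y z0 hg
    rw [Fintype.card_fin] at hc
    rw [← hc]
    refine mul_le_mul_of_nonneg_left ?_ (Nat.cast_nonneg m)
    refine Finset.sum_le_sum fun L _ => ?_
    by_cases hl : liveT L T
    · by_cases hk : cand L e
      · have hy : L y = z0 := Fin.ext (hy2 L hk)
        simp [hl, hk, hne, hy]
      · simp only [hk, false_and, and_false, if_false, hl, if_true]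
        refine mul_nonneg (h0 L e) ?_
        split_ifs <;> norm_num
    · simp [hl]

section
variable {n m : ℕ} (w : Ed n → ℝ) (J : ℕ) (S : Finset (Ed n)) (T : Tr n)

/-- the open edges of type `X` of a gate -/
noncomputable def OO (L : Lab n m) (X : Fin 3) : Finset (Ed n) :=
  S.filter fun e => e.1 = X ∧ opn L e

/-- the candidates of type `X` of a gate -/
noncomputable def KK (L : Lab n m) (X : Fin 3) : Finset (Ed n) :=
  S.filter fun e => e.1 = X ∧ cand L e

/-- a candidate outside `T` is among the heaviest open edges -/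
def Pa (L : Lab n m) (X : Fin 3) : Prop := ∃ e ∈ phi w J S L X, cand L e ∧ e ≠ te T X

/-- the light candidates outside `T` have too much weight -/
def Pc (N : ℕ) (L : Lab n m) (X : Fin 3) : Prop :=
  (∑ e ∈ OO S L X \ phi w J S L X, |w e|) / (8 * N) <
    ∑ e ∈ ((OO S L X \ phi w J S L X) ∩ KK S L X).erase (te T X), |w e|

theorem phi_eq (L : Lab n m) (X : Fin 3) : phi w J S L X = topJ w J (OO S L X) := rfl

theorem OO_dep (L : Lab n m) (X : Fin 3) (y : Co n) (z : Fin m)
    (h : ∀ e' : Ed n, e'.1 = X → (opn (Function.update L y z) e' ↔ opn L e')) :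
    OO S (Function.update L y z) X = OO S L X := by
  unfold OO
  refine Finset.filter_congr fun e _ => ?_
  constructor
  · rintro ⟨h1, h2⟩; exact ⟨h1, (h e h1).1 h2⟩
  · rintro ⟨h1, h2⟩; exact ⟨h1, (h e h1).2 h2⟩

open Classical in
theorem Pa_count (hm : 1 ≤ m) (X : Fin 3) :
    (m : ℝ) * ((univ.filter fun L : Lab n m => liveT L T ∧ Pa w J S T L X).card : ℝ) ≤
      J * ((univ.filter fun L : Lab n m => liveT L T).card : ℝ) := by
  have hb := lab_bound hm T X (fun L e => if e ∈ phi w J S L X then (1 : ℝ) else 0)
    (fun L e => by split_ifs <;> norm_num) (fun L y z h => by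
      funext e
      rw [phi_eq, phi_eq, OO_dep S L X y z h])
  have h1 : ((univ.filter fun L : Lab n m => liveT L T ∧ Pa w J S T L X).card : ℝ) ≤
      ∑ L ∈ univ.filter (fun L : Lab n m => liveT L T),
        ∑ e ∈ univ.filter (fun e : Ed n => e.1 = X ∧ cand L e ∧ e ≠ te T X),
          (if e ∈ phi w J S L X then (1 : ℝ) else 0) := by
    rw [← Finset.filter_filter, Finset.card_filter]
    push_cast
    refine Finset.sum_le_sum fun L _ => ?_
    split_ifs with hp
    · obtain ⟨e, he, hk, hne⟩ := hp
      have heX : e.1 = X := by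
        have := topJ_subset w J (OO S L X) he
        exact (Finset.mem_filter.1 this).2.1
      calc (1 : ℝ) = (if e ∈ phi w J S L X then (1 : ℝ) else 0) := (if_pos he).symm
        _ ≤ _ := Finset.single_le_sum (f := fun e => if e ∈ phi w J S L X then (1 : ℝ) else 0)
          (fun e _ => by
            show (0 : ℝ) ≤ if e ∈ phi w J S L X then (1 : ℝ) else 0
            split_ifs <;> norm_num)
          (Finset.mem_filter.2 ⟨Finset.mem_univ _, heX, hk, hne⟩)
    · exact Finset.sum_nonneg fun e _ => by split_ifs <;> norm_num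
  have h2 : ∑ L ∈ univ.filter (fun L : Lab n m => liveT L T),
        ∑ e ∈ univ.filter (fun e : Ed n => e.1 = X), (if e ∈ phi w J S L X then (1 : ℝ) else 0) ≤
      J * ((univ.filter fun L : Lab n m => liveT L T).card : ℝ) := by
    calc _ ≤ ∑ _L ∈ univ.filter (fun L : Lab n m => liveT L T), (J : ℝ) := by
          refine Finset.sum_le_sum fun L _ => ?_
          rw [← Finset.sum_filter, Finset.sum_const, nsmul_eq_mul, mul_one]
          have : ((univ.filter (fun e : Ed n => e.1 = X)).filter
              (fun e => e ∈ phi w J S L X)).card ≤ J := by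
            refine le_trans (Finset.card_le_card (t := phi w J S L X) ?_) (topJ_card w J _)
            intro e he
            exact (Finset.mem_filter.1 he).2
          exact_mod_cast this
      _ = _ := by rw [Finset.sum_const, nsmul_eq_mul]; ring
  calc (m : ℝ) * ((univ.filter fun L : Lab n m => liveT L T ∧ Pa w J S T L X).card : ℝ)
      ≤ m * _ := mul_le_mul_of_nonneg_left h1 (Nat.cast_nonneg m)
    _ ≤ _ := hb
    _ ≤ _ := h2

open Classical in
theorem Pc_count (hm : 1 ≤ m) (N : ℕ) (hN : 1 ≤ N) (X : Fin 3) :
    (m : ℝ) * ((univ.filter fun L : Lab n m => liveT L T ∧ Pc w J S T N L X).card : ℝ) ≤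
      8 * N * ((univ.filter fun L : Lab n m => liveT L T).card : ℝ) := by
  have hN' : (1 : ℝ) ≤ N := by exact_mod_cast hN
  let W : Lab n m → ℝ := fun L => ∑ e ∈ OO S L X \ phi w J S L X, |w e|
  let g : Lab n m → Ed n → ℝ := fun L e =>
    if e ∈ OO S L X \ phi w J S L X then |w e| / W L else 0
  have hW0 : ∀ L, 0 ≤ W L := fun L => Finset.sum_nonneg fun _ _ => abs_nonneg _
  have hg0 : ∀ L e, 0 ≤ g L e := fun L e => by
    simp only [g]
    split_ifs
    · exact div_nonneg (abs_nonneg _) (hW0 L)
    · exact le_rfl
  have hb := lab_bound hm T X g hg0 (fun L y z h => by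
      have hO := OO_dep S L X y z h
      have hφ : phi w J S (Function.update L y z) X = phi w J S L X := by
        rw [phi_eq, phi_eq, hO]
      funext e
      simp only [g, W, hO, hφ])
  have h1 : ((univ.filter fun L : Lab n m => liveT L T ∧ Pc w J S T N L X).card : ℝ) ≤
      8 * N * ∑ L ∈ univ.filter (fun L : Lab n m => liveT L T),
        ∑ e ∈ univ.filter (fun e : Ed n => e.1 = X ∧ cand L e ∧ e ≠ te T X), g L e := by
    rw [← Finset.filter_filter, Finset.card_filter, Finset.mul_sum]
    push_cast
    refine Finset.sum_le_sum fun L _ => ?_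
    have hnn : 0 ≤ 8 * (N : ℝ) * ∑ e ∈ univ.filter
        (fun e : Ed n => e.1 = X ∧ cand L e ∧ e ≠ te T X), g L e :=
      mul_nonneg (by positivity) (Finset.sum_nonneg fun e _ => hg0 L e)
    split_ifs with hp
    · have hp' : W L / (8 * N) <
        ∑ e ∈ ((OO S L X \ phi w J S L X) ∩ KK S L X).erase (te T X), |w e| := hp
      have hWpos : 0 < W L := by
        rcases (hW0 L).lt_or_eq with h | h
        · exact h
        · exfalso
          rw [← h, zero_div] at hp'
          have : ∑ e ∈ ((OO S L X \ phi w J S L X) ∩ KK S L X).erase (te T X), |w e| ≤ W L :=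
            Finset.sum_le_sum_of_subset_of_nonneg
              ((Finset.erase_subset _ _).trans Finset.inter_subset_left)
              (fun _ _ _ => abs_nonneg _)
          linarith
      have h3 : ∑ e ∈ ((OO S L X \ phi w J S L X) ∩ KK S L X).erase (te T X), |w e| =
          W L * ∑ e ∈ ((OO S L X \ phi w J S L X) ∩ KK S L X).erase (te T X), g L e := by
        rw [Finset.mul_sum]
        refine Finset.sum_congr rfl fun e he => ?_
        have he' := (Finset.mem_inter.1 (Finset.mem_of_mem_erase he)).1
        simp only [g]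
        rw [if_pos he']
        field_simp
      have h4 : ∑ e ∈ ((OO S L X \ phi w J S L X) ∩ KK S L X).erase (te T X), g L e ≤
          ∑ e ∈ univ.filter (fun e : Ed n => e.1 = X ∧ cand L e ∧ e ≠ te T X), g L e := by
        refine Finset.sum_le_sum_of_subset_of_nonneg ?_ (fun e _ _ => hg0 L e)
        intro e he
        rw [Finset.mem_erase, Finset.mem_inter] at he
        have hk := (Finset.mem_filter.1 he.2.2).2
        exact Finset.mem_filter.2 ⟨Finset.mem_univ _, hk.1, hk.2, he.1⟩
      rw [div_lt_iff₀ (by positivity), h3] at hp'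
      have h5 : (1 : ℝ) < (∑ e ∈ ((OO S L X \ phi w J S L X) ∩ KK S L X).erase (te T X), g L e) *
          (8 * N) := by
        by_contra hcon
        push Not at hcon
        have : W L * ((∑ e ∈ ((OO S L X \ phi w J S L X) ∩ KK S L X).erase (te T X), g L e) *
          (8 * N)) ≤ W L * 1 := mul_le_mul_of_nonneg_left hcon (hW0 L)
        nlinarith
      have h6 := mul_le_mul_of_nonneg_right h4 (show (0 : ℝ) ≤ 8 * N by positivity)
      linarith
    · exact hnn
  have h2 : ∑ L ∈ univ.filter (fun L : Lab n m => liveT L T),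
        ∑ e ∈ univ.filter (fun e : Ed n => e.1 = X), g L e ≤
      ((univ.filter fun L : Lab n m => liveT L T).card : ℝ) := by
    calc _ ≤ ∑ _L ∈ univ.filter (fun L : Lab n m => liveT L T), (1 : ℝ) := by
          refine Finset.sum_le_sum fun L _ => ?_
          have e1 : ∑ e ∈ univ.filter (fun e : Ed n => e.1 = X), g L e ≤ ∑ e : Ed n, g L e :=
            Finset.sum_le_sum_of_subset_of_nonneg (Finset.subset_univ _) (fun e _ _ => hg0 L e)
          refine e1.trans ?_
          have e2 : ∑ e : Ed n, g L e = ∑ e ∈ OO S L X \ phi w J S L X, |w e| / W L := by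
            simp only [g]
            rw [← Finset.sum_filter]
            congr 1
            ext e; simp
          rw [e2, ← Finset.sum_div]
          exact div_self_le_one _
      _ = _ := by rw [Finset.sum_const, nsmul_eq_mul]; ring
  calc (m : ℝ) * ((univ.filter fun L : Lab n m => liveT L T ∧ Pc w J S T N L X).card : ℝ)
      ≤ m * _ := mul_le_mul_of_nonneg_left h1 (Nat.cast_nonneg m)
    _ = 8 * N * (m * _) := by ring
    _ ≤ 8 * N * _ := mul_le_mul_of_nonneg_left hb (by positivity)
    _ ≤ _ := mul_le_mul_of_nonneg_left h2 (by positivity)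

end

end Pool.Agent.L5helper32.TC
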