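import Pool.Agent.L5helper32.TC.Gate1

/-!
# Votes and directions
-/

set_option autoImplicit false

open Finset

namespace Pool.Agent.L5helper32.TC

section
variable {n m D H : ℕ} (w : Ed n → ℝ) (J : ℕ) (S : Finset (Ed n)) (T : Tr n) (L : Lab n m)
  (u : Ed n → Fin D)

/-- weight of the light candidates of type `X` -/
noncomputable def rX (X : Fin 3) : ℝ :=
  ∑ e ∈ (OO S L X \ phi w J S L X) ∩ KK S L X, |w e|

/-- the votes are bad -/
def VB (v : Ed n → Fin D × Fin H) : Prop :=
  ∃ X, 0 < rX w J S L X ∧ ∃ k : Fin H,
    ∑ e ∈ (OO S L X \ KK S L X).filter (fun e => v e = (u e, k)), |w e| ≤ 2 * rX w J S L X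

theorem rX_nonneg (X : Fin 3) : 0 ≤ rX w J S L X := Finset.sum_nonneg fun _ _ => abs_nonneg _

open Classical in
theorem vote_count (hD : 1 ≤ D) (hH : 1 ≤ H) (hJ : 4 * (D * H) + 2 < J)
    (hPa : ∀ X, ¬ Pa w J S T L X) (hPc : ∀ X, ¬ Pc w J S T (D * H) L X) :
    ((univ.filter fun v : Ed n → Fin D × Fin H => VB w J S L u v).card : ℝ) * (J - 2) ≤
      3 * H * (4 * (D * H : ℕ) * Fintype.card (Ed n → Fin D × Fin H)) := by
  have : Nonempty (Fin D × Fin H) := ⟨(⟨0, hD⟩, ⟨0, hH⟩)⟩
  have hcard : Fintype.card (Fin D × Fin H) = D * H := by simp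
  have hJ2 : (0 : ℝ) ≤ J - 2 := by
    have : (2 : ℝ) < J := by exact_mod_cast (by omega : 2 < J)
    linarith
  let A : Fin 3 → Fin H → Finset (Ed n → Fin D × Fin H) := fun X k =>
    if 0 < rX w J S L X then univ.filter fun v : Ed n → Fin D × Fin H =>
      ∑ e ∈ (OO S L X \ KK S L X).filter (fun e => v e = (u e, k)), |w e| ≤ 2 * rX w J S L X
    else ∅
  have hA : ∀ X k, ((A X k).card : ℝ) * (J - 2) ≤
      4 * (D * H : ℕ) * Fintype.card (Ed n → Fin D × Fin H) := by
    intro X k
    simp only [A]
    split_ifs with hpos
    · have h := incr_count (Z := Fin D × Fin H) w J (OO S L X) (KK S L X) (te T X)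
        (by rw [hcard]; exact hJ)
        (by
          intro e he hk
          by_contra hne
          exact hPa X ⟨e, he, (Finset.mem_filter.1 hk).2.2, hne⟩)
        (by
          have := hPc X
          unfold Pc at this
          push Not at this
          rw [hcard]
          exact this) hpos (fun e => (u e, k))
      rw [hcard] at h
      exact h
    · simp only [Finset.card_empty, Nat.cast_zero, zero_mul]
      positivity
  have hsub : (univ.filter fun v : Ed n → Fin D × Fin H => VB w J S L u v) ⊆
      (univ : Finset (Fin 3 × Fin H)).biUnion (fun p => A p.1 p.2) := by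
    intro v hv
    obtain ⟨X, hpos, k, hk⟩ := (Finset.mem_filter.1 hv).2
    rw [Finset.mem_biUnion]
    refine ⟨(X, k), Finset.mem_univ _, ?_⟩
    simp only [A]
    rw [if_pos hpos]
    exact Finset.mem_filter.2 ⟨Finset.mem_univ _, hk⟩
  have h1 : ((univ.filter fun v : Ed n → Fin D × Fin H => VB w J S L u v).card : ℝ) ≤
      ∑ p : Fin 3 × Fin H, ((A p.1 p.2).card : ℝ) := by
    have := (Finset.card_le_card hsub).trans Finset.card_biUnion_le
    exact_mod_cast this
  calc _ ≤ (∑ p : Fin 3 × Fin H, ((A p.1 p.2).card : ℝ)) * (J - 2) :=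
        mul_le_mul_of_nonneg_right h1 hJ2
    _ = ∑ p : Fin 3 × Fin H, ((A p.1 p.2).card : ℝ) * (J - 2) := Finset.sum_mul _ _ _
    _ ≤ ∑ _p : Fin 3 × Fin H, 4 * ((D * H : ℕ) : ℝ) * Fintype.card (Ed n → Fin D × Fin H) :=
        Finset.sum_le_sum fun p _ => hA p.1 p.2
    _ = _ := by
        rw [Finset.sum_const, Finset.card_univ, nsmul_eq_mul]
        simp only [Fintype.card_prod, Fintype.card_fin]
        push_cast
        ring

theorem low_of_live (hT : liveT L T) (hPa : ∀ X, ¬ Pa w J S T L X) (hIC : ¬ IC w J S L T) :
    ∃ o : Option (Ed n), (∀ e ∈ o, e ∈ S ∧ live L e) ∧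
      ∀ e ∈ S, live L e → e ∉ o → e ∈ (OO S L e.1 \ phi w J S L e.1) ∩ KK S L e.1 := by
  have hmem : ∀ e ∈ S, live L e → e ∈ OO S L e.1 ∧ e ∈ KK S L e.1 := by
    intro e he hl
    have hc := cand_of_live L e hl
    exact ⟨Finset.mem_filter.2 ⟨he, rfl, opn_of_cand L e hc⟩, Finset.mem_filter.2 ⟨he, rfl, hc⟩⟩
  have hte : ∀ X, te T X ∈ phi w J S L X → te T X ∈ S := fun X h =>
    (Finset.mem_filter.1 (topJ_subset w J (OO S L X) h)).1
  by_cases hex : ∃ X, te T X ∈ phi w J S L X
  · obtain ⟨X, hX⟩ := hex
    refine ⟨some (te T X), ?_, ?_⟩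
    · intro e he
      rw [Option.mem_def, Option.some.injEq] at he
      subst he
      exact ⟨hte X hX, (liveT_iff L T).1 hT X⟩
    · intro e he hl hne
      obtain ⟨h1, h2⟩ := hmem e he hl
      rw [Finset.mem_inter, Finset.mem_sdiff]
      refine ⟨⟨h1, fun hp => ?_⟩, h2⟩
      have heq : e = te T e.1 := by
        by_contra hcon
        exact hPa e.1 ⟨e, hp, cand_of_live L e hl, hcon⟩
      by_cases hXX : e.1 = X
      · apply hne
        rw [Option.mem_def, heq, hXX]
      · apply hIC
        refine ⟨e.1, X, hXX, ?_, hX⟩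
        rw [← heq]; exact hp
  · refine ⟨none, by simp, ?_⟩
    intro e he hl _
    obtain ⟨h1, h2⟩ := hmem e he hl
    rw [Finset.mem_inter, Finset.mem_sdiff]
    refine ⟨⟨h1, fun hp => ?_⟩, h2⟩
    have heq : e = te T e.1 := by
      by_contra hcon
      exact hPa e.1 ⟨e, hp, cand_of_live L e hl, hcon⟩
    exact hex ⟨e.1, by rw [← heq]; exact hp⟩

end

section
variable {n m D H : ℕ} {I : Type} [Fintype I] [DecidableEq I] (own : Ed n → Fin D → Option I)
  (w : I → Ed n → ℝ) (i : I) (u : Ed n → Fin D) (S : Finset (Ed n))

open Classical in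
theorem eta_count (hu : ∀ e ∈ S, own e (u e) = some i)
    (hu' : ∀ e ∈ S, ∀ a, own e a = some i → a = u e) (f : (Ed n → Bool) → Bool) (κ J : ℕ)
    (hκ : κ ≤ J) (hf : GateW S κ f (w i)) (T : Tr n) (L : Lab n m) (hT : liveT L T)
    (hPa : ∀ X, ¬ Pa (w i) J S T L X) (hIC : ¬ IC (w i) J S L T) (v : Ed n → Fin D × Fin H)
    (hv : ¬ VB (w i) J S L u v) :
    ((univ.filter fun η : I → Fin (H + 1) => ¬ Good S f L (xval own w v η)).card : ℝ) * (H + 1) ≤
      2 * Fintype.card (I → Fin (H + 1)) := by
  obtain ⟨o, ho, hlow⟩ := low_of_live (w i) J S T L hT hPa hIC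
  have hcl : ∀ e : Ed n, live L e → cand L e := fun e h => cand_of_live L e h
  have hRHS : (0 : ℝ) ≤ 2 * Fintype.card (I → Fin (H + 1)) := by positivity
  have hall : (∀ η : I → Fin (H + 1), Good S f L (xval own w v η)) →
      ((univ.filter fun η : I → Fin (H + 1) => ¬ Good S f L (xval own w v η)).card : ℝ) *
        (H + 1) ≤ 2 * Fintype.card (I → Fin (H + 1)) := by
    intro h
    have : (univ.filter fun η : I → Fin (H + 1) => ¬ Good S f L (xval own w v η)) = ∅ := by
      rw [Finset.filter_eq_empty_iff]
      intro η _ hh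
      exact hh (h η)
    rw [this]
    simpa using hRHS
  rcases hf.2 with hsmall | ⟨t, ht⟩
  · -- few bits
    apply hall
    intro η
    refine good_of_few hf.1 L _ o ho fun e he hl => ?_
    by_contra hne
    have h1 := hlow e he hl hne
    rw [Finset.mem_inter, Finset.mem_sdiff] at h1
    have hle : (OO S L e.1).card ≤ J :=
      (Finset.card_le_card (Finset.filter_subset _ _)).trans (hsmall.trans hκ)
    have : phi (w i) J S L e.1 = OO S L e.1 := topJ_eq (w i) J _ hle
    rw [this] at h1
    exact h1.1.2 h1.1.1
  · -- threshold gate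
    set r : ℝ := ∑ X, rX (w i) J S L X with hr
    have hr0 : 0 ≤ r := Finset.sum_nonneg fun X _ => rX_nonneg _ _ _ _ _
    have hsum : ∑ e ∈ S.filter (fun e => live L e ∧ e ∉ o), |w i e| ≤ r := by
      rw [← Finset.sum_fiberwise_of_maps_to (s := S.filter (fun e => live L e ∧ e ∉ o))
        (t := (univ : Finset (Fin 3))) (g := fun e : Ed n => e.1) (fun e _ => Finset.mem_univ _)]
      rw [hr]
      refine Finset.sum_le_sum fun X _ => ?_
      refine Finset.sum_le_sum_of_subset_of_nonneg ?_ (fun _ _ _ => abs_nonneg _)
      intro e he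
      rw [Finset.mem_filter, Finset.mem_filter] at he
      obtain ⟨⟨h1, h2, h3⟩, h4⟩ := he
      have := hlow e h1 h2 h3
      rw [h4] at this
      exact this
    have hsum0 : 0 ≤ ∑ e ∈ S.filter (fun e => live L e ∧ e ∉ o), |w i e| :=
      Finset.sum_nonneg fun _ _ => abs_nonneg _
    rcases hr0.eq_or_lt with hrz | hrpos
    · apply hall
      intro η
      exact good_of_window (w i) t ht L _ o ho hcl _ rfl (Or.inl (by linarith))
    · set R := S.filter (fun e => opn L e ∧ ¬ cand L e) with hR
      have hincr : ∀ k : Fin H, 2 * r < ∑ e ∈ R.filter (fun e => v e = (u e, k)), |w i e| := by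
        intro k
        rw [← Finset.sum_fiberwise_of_maps_to (s := R.filter (fun e => v e = (u e, k)))
          (t := (univ : Finset (Fin 3))) (g := fun e : Ed n => e.1)
          (fun e _ => Finset.mem_univ _)]
        have hfib : ∀ X : Fin 3, (R.filter (fun e => v e = (u e, k))).filter (fun e => e.1 = X) =
            (OO S L X \ KK S L X).filter (fun e => v e = (u e, k)) := by
          intro X
          ext e
          simp only [hR, OO, KK, Finset.mem_filter, Finset.mem_sdiff]
          constructor
          · rintro ⟨⟨⟨h1, h2, h3⟩, h4⟩, h5⟩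
            exact ⟨⟨⟨h1, h5, h2⟩, fun hh => h3 hh.2.2⟩, h4⟩
          · rintro ⟨⟨⟨h1, h5, h2⟩, h3⟩, h4⟩
            exact ⟨⟨⟨h1, h2, fun hh => h3 ⟨h1, h5, hh⟩⟩, h4⟩, h5⟩
        simp_rw [hfib]
        rw [hr, Finset.mul_sum]
        have hlt : ∀ X, 0 < rX (w i) J S L X → 2 * rX (w i) J S L X <
            ∑ e ∈ (OO S L X \ KK S L X).filter (fun e => v e = (u e, k)), |w i e| := by
          intro X hX
          by_contra hcon
          push Not at hcon
          exact hv ⟨X, hX, k, hcon⟩
        apply Finset.sum_lt_sum
        · intro X _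
          rcases (rX_nonneg (w i) J S L X).eq_or_lt with h | h
          · rw [← h, mul_zero]
            exact Finset.sum_nonneg fun _ _ => abs_nonneg _
          · exact (hlt X h).le
        · by_contra hcon
          push Not at hcon
          have : r = 0 := by
            rw [hr]
            refine Finset.sum_eq_zero fun X _ => ?_
            rcases (rX_nonneg (w i) J S L X).eq_or_lt with h | h
            · exact h.symm
            · exact absurd (hlt X h) (not_lt.2 (hcon X (Finset.mem_univ _)))
          linarith
      have hRS : R ⊆ S := Finset.filter_subset _ _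
      -- bad values of the direction
      have hbad : ∀ η : I → Fin (H + 1), (univ.filter fun h : Fin (H + 1) =>
          ¬ Good S f L (xval own w v (Function.update η i h))).card ≤ 2 := by
        intro η
        have h1 := window_card own w i u S hu hu' hRS v η r hincr t
        have h2 : ∀ e : Ed n, (univ.filter fun h : Fin (H + 1) =>
            |FF own w i R v η h - (t - w i e)| ≤ r).card ≤ 1 := fun e =>
          window_card own w i u S hu hu' hRS v η r hincr (t - w i e)
        cases hoo : o with
        | none =>
          refine le_trans (Finset.card_le_card ?_) (h1.trans (by norm_num))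
          intro h hh
          rw [Finset.mem_filter] at hh ⊢
          refine ⟨hh.1, ?_⟩
          by_contra hcon
          push Not at hcon
          apply hh.2
          refine good_of_window (w i) t ht L _ o ho hcl (FF own w i R v η h) rfl (Or.inr ⟨?_, ?_⟩)
          · linarith
          · intro e he
            rw [hoo] at he
            cases he
        | some a =>
          have h3 : (univ.filter fun h : Fin (H + 1) =>
              ¬ Good S f L (xval own w v (Function.update η i h))) ⊆
              (univ.filter fun h : Fin (H + 1) => |FF own w i R v η h - t| ≤ r) ∪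
              (univ.filter fun h : Fin (H + 1) => |FF own w i R v η h - (t - w i a)| ≤ r) := by
            intro h hh
            rw [Finset.mem_union, Finset.mem_filter, Finset.mem_filter]
            rw [Finset.mem_filter] at hh
            by_contra hcon
            push Not at hcon
            have c1 := hcon.1 (Finset.mem_univ _)
            have c2 := hcon.2 (Finset.mem_univ _)
            apply hh.2
            refine good_of_window (w i) t ht L _ o ho hcl (FF own w i R v η h) rfl
              (Or.inr ⟨?_, ?_⟩)
            · linarith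
            · intro e he
              rw [hoo, Option.mem_def, Option.some.injEq] at he
              subst he
              linarith
          refine (Finset.card_le_card h3).trans ((Finset.card_union_le _ _).trans ?_)
          have := h2 a
          omega
      -- average
      have havg := coord_avg (fun η : I → Fin (H + 1) =>
        if ¬ Good S f L (xval own w v η) then (1 : ℝ) else 0) i
      have hc1 : ∑ η : I → Fin (H + 1), (if ¬ Good S f L (xval own w v η) then (1 : ℝ) else 0) =
          ((univ.filter fun η : I → Fin (H + 1) => ¬ Good S f L (xval own w v η)).card : ℝ) := by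
        rw [Finset.card_filter]; push_cast; rfl
      have hc2 : ∀ η : I → Fin (H + 1), ∑ h : Fin (H + 1),
          (if ¬ Good S f L (xval own w v (Function.update η i h)) then (1 : ℝ) else 0) ≤ 2 := by
        intro η
        have := hbad η
        rw [Finset.card_filter] at this
        have h' : ((∑ h : Fin (H + 1), (if ¬ Good S f L (xval own w v (Function.update η i h))
          then 1 else 0 : ℕ) : ℕ) : ℝ) ≤ ((2 : ℕ) : ℝ) := by exact_mod_cast this
        push_cast at h'
        exact h'
      rw [hc1, Fintype.card_fin] at havg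
      push_cast at havg
      calc ((univ.filter fun η : I → Fin (H + 1) => ¬ Good S f L (xval own w v η)).card : ℝ) *
            (H + 1) = ((H : ℝ) + 1) * ((univ.filter fun η : I → Fin (H + 1) =>
              ¬ Good S f L (xval own w v η)).card : ℝ) := by ring
        _ = _ := havg
        _ ≤ ∑ _η : I → Fin (H + 1), (2 : ℝ) := Finset.sum_le_sum fun η _ => hc2 η
        _ = _ := by
          rw [Finset.sum_const, Finset.card_univ, nsmul_eq_mul]; ring

end

end Pool.Agent.L5helper32.TC
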