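import Pool.Agent.L5helper32.TC.Gate2

/-!
# The main estimate for one gate and one triple
-/

set_option autoImplicit false

open Finset

namespace Pool.Agent.L5helper32.TC

open Classical in
theorem ncard_triple {A B C : Type} [Fintype A] [Fintype B] [Fintype C] (P : A × B × C → Prop) :
    ((Set.ncard {p | P p} : ℕ) : ℝ) = ∑ a, ∑ b, ∑ c, (if P (a, b, c) then (1 : ℝ) else 0) := by
  rw [Set.ncard_eq_toFinset_card', Set.toFinset_ofPred, Finset.card_filter]
  push_cast
  rw [Fintype.sum_prod_type]
  refine Finset.sum_congr rfl fun a _ => ?_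
  rw [Fintype.sum_prod_type]

/-- arithmetic -/
theorem arith (D : ℝ) (hD : 1 ≤ D) : 12 * D * (3 * ((5 * 10 ^ 7 * D ^ 4) / (2 * 10 ^ 10 * D ^ 5)) +
    3 * (8 * (200 * D ^ 2) / (2 * 10 ^ 10 * D ^ 5)) +
    3 * (200 * D) * (4 * (200 * D ^ 2)) / (5 * 10 ^ 7 * D ^ 4 - 2) + 2 / (200 * D + 1)) ≤ 1 := by
  have hD0 : 0 < D := by linarith
  have e1 : 12 * D * (3 * ((5 * 10 ^ 7 * D ^ 4) / (2 * 10 ^ 10 * D ^ 5))) = 9 / 100 := by
    field_simp; norm_num
  have e2 : 12 * D * (3 * (8 * (200 * D ^ 2) / (2 * 10 ^ 10 * D ^ 5))) ≤ 1 / 100 := by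
    have : 12 * D * (3 * (8 * (200 * D ^ 2) / (2 * 10 ^ 10 * D ^ 5))) =
      57600 / (2 * 10 ^ 10 * D ^ 2) := by field_simp; norm_num
    rw [this, div_le_div_iff₀ (by positivity) (by norm_num)]
    have : 1 ≤ D ^ 2 := one_le_pow₀ hD
    nlinarith
  have e3 : 12 * D * (3 * (200 * D) * (4 * (200 * D ^ 2)) / (5 * 10 ^ 7 * D ^ 4 - 2)) ≤ 3 / 10 := by
    have h4 : 1 ≤ D ^ 4 := one_le_pow₀ hD
    have hpos : 0 < 5 * 10 ^ 7 * D ^ 4 - 2 := by nlinarith
    rw [← mul_div_assoc, div_le_div_iff₀ hpos (by norm_num)]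
    have : 12 * D * (3 * (200 * D) * (4 * (200 * D ^ 2))) = 5760000 * D ^ 4 := by ring
    rw [this]
    nlinarith
  have e4 : 12 * D * (2 / (200 * D + 1)) ≤ 3 / 10 := by
    rw [← mul_div_assoc, div_le_div_iff₀ (by positivity) (by norm_num)]
    nlinarith
  have : 12 * D * (3 * ((5 * 10 ^ 7 * D ^ 4) / (2 * 10 ^ 10 * D ^ 5)) +
    3 * (8 * (200 * D ^ 2) / (2 * 10 ^ 10 * D ^ 5)) +
    3 * (200 * D) * (4 * (200 * D ^ 2)) / (5 * 10 ^ 7 * D ^ 4 - 2) + 2 / (200 * D + 1)) =
    12 * D * (3 * ((5 * 10 ^ 7 * D ^ 4) / (2 * 10 ^ 10 * D ^ 5))) +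
    12 * D * (3 * (8 * (200 * D ^ 2) / (2 * 10 ^ 10 * D ^ 5))) +
    12 * D * (3 * (200 * D) * (4 * (200 * D ^ 2)) / (5 * 10 ^ 7 * D ^ 4 - 2)) +
    12 * D * (2 / (200 * D + 1)) := by ring
  rw [this, e1]
  linarith

theorem gateProb : GateProb := by
  classical
  intro n D hD I _ _ own w i u S hu hu' f hf T
  set m : ℕ := 2 * 10 ^ 10 * D ^ 5 with hm
  set J : ℕ := 5 * 10 ^ 7 * D ^ 4 with hJ
  set H : ℕ := 200 * D with hH
  have hDr : (1 : ℝ) ≤ D := by exact_mod_cast hD
  have hD4 : 1 ≤ D ^ 4 := Nat.one_le_pow _ _ hD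
  have hD5 : 1 ≤ D ^ 5 := Nat.one_le_pow _ _ hD
  have hm1 : 1 ≤ m := by rw [hm]; omega
  have hH1 : 1 ≤ H := by rw [hH]; omega
  have hN1 : 1 ≤ D * H := Nat.mul_pos hD hH1
  have hJN : 4 * (D * H) + 2 < J := by
    rw [hJ, hH]
    have h1 : D * (200 * D) ≤ 200 * D ^ 4 := by
      have : D ^ 2 ≤ D ^ 4 := Nat.pow_le_pow_right hD (by norm_num)
      calc D * (200 * D) = 200 * D ^ 2 := by ring
        _ ≤ 200 * D ^ 4 := Nat.mul_le_mul_left _ this
    omega
  have hDJ : D ≤ J := by
    rw [hJ]
    have : D ≤ D ^ 4 := Nat.le_self_pow (by norm_num) D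
    omega
  set cT : ℝ := ((univ.filter fun L : Lab n m => liveT L T).card : ℝ) with hcT
  set V : ℝ := (Fintype.card (Ed n → Fin D × Fin H) : ℝ) with hV
  set Y : ℝ := (Fintype.card (I → Fin (H + 1)) : ℝ) with hY
  have hcT0 : 0 ≤ cT := Nat.cast_nonneg _
  have hV0 : 0 ≤ V := Nat.cast_nonneg _
  have hY0 : 0 ≤ Y := Nat.cast_nonneg _
  have hmr : (0 : ℝ) < m := by exact_mod_cast hm1
  have hJ2 : (0 : ℝ) < J - 2 := by
    have : (2 : ℝ) < J := by exact_mod_cast (by omega : 2 < J)
    linarith
  rw [ncard_triple]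
  let P : Lab n m → (Ed n → Fin D × Fin H) → (I → Fin (H + 1)) → Prop := fun L v η =>
    liveT L T ∧ ¬ IC (w i) J S L T ∧ ¬ Good S f L (xval own w v η)
  let bad : Lab n m → Prop := fun L => ∃ X, Pa (w i) J S T L X ∨ Pc (w i) J S T (D * H) L X
  set β : ℝ := 3 * H * (4 * (D * H : ℕ)) / (J - 2) + 2 / (H + 1) with hβ
  have hβ0 : 0 ≤ β := by positivity
  -- bound for one label
  have hone : ∀ L : Lab n m, ∑ v, ∑ η, (if P L v η then (1 : ℝ) else 0) ≤
      (if liveT L T ∧ bad L then V * Y else 0) + (if liveT L T then β * (V * Y) else 0) := by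
    intro L
    by_cases hl : liveT L T
    · by_cases hb : bad L
      · have h1 : ∑ v, ∑ η, (if P L v η then (1 : ℝ) else 0) ≤ V * Y := by
          calc _ ≤ ∑ _v : Ed n → Fin D × Fin H, ∑ _η : I → Fin (H + 1), (1 : ℝ) :=
                Finset.sum_le_sum fun v _ => Finset.sum_le_sum fun η _ => by
                  split_ifs <;> norm_num
            _ = V * Y := by simp [hV, hY]
        rw [if_pos ⟨hl, hb⟩, if_pos hl]
        have : 0 ≤ β * (V * Y) := by positivity
        linarith
      · rw [if_neg (fun h => hb h.2), if_pos hl, zero_add]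
        by_cases hic : IC (w i) J S L T
        · have : ∑ v, ∑ η, (if P L v η then (1 : ℝ) else 0) = 0 := by
            refine Finset.sum_eq_zero fun v _ => Finset.sum_eq_zero fun η _ => ?_
            rw [if_neg]
            exact fun h => h.2.1 hic
          rw [this]; positivity
        · have hPa : ∀ X, ¬ Pa (w i) J S T L X := fun X h => hb ⟨X, Or.inl h⟩
          have hPc : ∀ X, ¬ Pc (w i) J S T (D * H) L X := fun X h => hb ⟨X, Or.inr h⟩
          have hvc := vote_count (H := H) (w i) J S T L u hD hH1 hJN hPa hPc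
          have hv : ∀ v : Ed n → Fin D × Fin H, ∑ η, (if P L v η then (1 : ℝ) else 0) ≤
              (if VB (w i) J S L u v then Y else 0) + 2 / (H + 1) * Y := by
            intro v
            by_cases hvb : VB (w i) J S L u v
            · rw [if_pos hvb]
              have h1 : ∑ η, (if P L v η then (1 : ℝ) else 0) ≤ Y := by
                calc _ ≤ ∑ _η : I → Fin (H + 1), (1 : ℝ) :=
                      Finset.sum_le_sum fun η _ => by split_ifs <;> norm_num
                  _ = Y := by simp [hY]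
              have : 0 ≤ 2 / ((H : ℝ) + 1) * Y := by positivity
              linarith
            · rw [if_neg hvb, zero_add]
              have hec := eta_count own w i u S hu hu' f D J hDJ hf T L hl hPa hic v hvb
              have h1 : ∑ η, (if P L v η then (1 : ℝ) else 0) ≤
                  ((univ.filter fun η : I → Fin (H + 1) =>
                    ¬ Good S f L (xval own w v η)).card : ℝ) := by
                rw [Finset.card_filter]
                push_cast
                refine Finset.sum_le_sum fun η _ => ?_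
                by_cases hg : Good S f L (xval own w v η)
                · rw [if_neg (fun h : P L v η => h.2.2 hg)]
                  split_ifs <;> norm_num
                · rw [if_pos hg]
                  split_ifs <;> norm_num
              refine h1.trans ?_
              rw [div_mul_eq_mul_div, le_div_iff₀ (by positivity)]
              exact hec
          have hcv : ((univ.filter fun v : Ed n → Fin D × Fin H =>
              VB (w i) J S L u v).card : ℝ) ≤ 3 * H * (4 * (D * H : ℕ)) / (J - 2) * V := by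
            rw [div_mul_eq_mul_div, le_div_iff₀ hJ2]
            calc _ ≤ _ := hvc
              _ = _ := by ring
          calc ∑ v, ∑ η, (if P L v η then (1 : ℝ) else 0)
              ≤ ∑ v : Ed n → Fin D × Fin H,
                ((if VB (w i) J S L u v then Y else 0) + 2 / (H + 1) * Y) :=
                Finset.sum_le_sum fun v _ => hv v
            _ = ((univ.filter fun v : Ed n → Fin D × Fin H => VB (w i) J S L u v).card : ℝ) * Y +
                V * (2 / (H + 1) * Y) := by
                rw [Finset.sum_add_distrib, ← Finset.sum_filter, Finset.sum_const,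
                  Finset.sum_const, Finset.card_univ, nsmul_eq_mul, nsmul_eq_mul]
            _ ≤ (3 * H * (4 * (D * H : ℕ)) / (J - 2) * V) * Y + V * (2 / (H + 1) * Y) := by
                have := mul_le_mul_of_nonneg_right hcv hY0
                linarith
            _ = β * (V * Y) := by rw [hβ]; ring
    · have : ∑ v, ∑ η, (if P L v η then (1 : ℝ) else 0) = 0 := by
        refine Finset.sum_eq_zero fun v _ => Finset.sum_eq_zero fun η _ => ?_
        rw [if_neg]
        exact fun h => hl h.1
      rw [this, if_neg (fun h => hl h.1), if_neg hl, add_zero]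
  -- bad labels
  have hbadc : ((univ.filter fun L : Lab n m => liveT L T ∧ bad L).card : ℝ) ≤
      (3 * (J / m) + 3 * (8 * (D * H : ℕ) / m)) * cT := by
    have h1 : (univ.filter fun L : Lab n m => liveT L T ∧ bad L) ⊆
        (univ : Finset (Fin 3)).biUnion (fun X =>
          (univ.filter fun L : Lab n m => liveT L T ∧ Pa (w i) J S T L X) ∪
          (univ.filter fun L : Lab n m => liveT L T ∧ Pc (w i) J S T (D * H) L X)) := by
      intro L hL
      obtain ⟨hl, X, hX⟩ := (Finset.mem_filter.1 hL).2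
      rw [Finset.mem_biUnion]
      refine ⟨X, Finset.mem_univ _, ?_⟩
      rw [Finset.mem_union]
      rcases hX with hX | hX
      · exact Or.inl (Finset.mem_filter.2 ⟨Finset.mem_univ _, hl, hX⟩)
      · exact Or.inr (Finset.mem_filter.2 ⟨Finset.mem_univ _, hl, hX⟩)
    have h2 : ((univ.filter fun L : Lab n m => liveT L T ∧ bad L).card : ℝ) ≤
        ∑ X : Fin 3, (((univ.filter fun L : Lab n m =>
            liveT L T ∧ Pa (w i) J S T L X).card : ℝ) +
          ((univ.filter fun L : Lab n m =>
            liveT L T ∧ Pc (w i) J S T (D * H) L X).card : ℝ)) := by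
      have h3 := (Finset.card_le_card h1).trans (Finset.card_biUnion_le.trans
        (Finset.sum_le_sum fun X _ => Finset.card_union_le _ _))
      exact_mod_cast h3
    refine h2.trans ?_
    have h4 : ∀ X : Fin 3, (((univ.filter fun L : Lab n m =>
            liveT L T ∧ Pa (w i) J S T L X).card : ℝ) +
          ((univ.filter fun L : Lab n m =>
            liveT L T ∧ Pc (w i) J S T (D * H) L X).card : ℝ)) ≤
        (J / m + 8 * (D * H : ℕ) / m) * cT := by
      intro X
      have a1 := Pa_count (w i) J S T hm1 X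
      have a2 := Pc_count (w i) J S T hm1 (D * H) hN1 X
      have b1 : ((univ.filter fun L : Lab n m =>
            liveT L T ∧ Pa (w i) J S T L X).card : ℝ) ≤ J / m * cT := by
        rw [div_mul_eq_mul_div, le_div_iff₀ hmr]
        linarith
      have b2 : ((univ.filter fun L : Lab n m =>
            liveT L T ∧ Pc (w i) J S T (D * H) L X).card : ℝ) ≤ 8 * (D * H : ℕ) / m * cT := by
        rw [div_mul_eq_mul_div, le_div_iff₀ hmr]
        linarith
      linarith
    calc _ ≤ ∑ _X : Fin 3, (J / m + 8 * (D * H : ℕ) / m) * cT :=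
          Finset.sum_le_sum fun X _ => h4 X
      _ = _ := by
          rw [Finset.sum_const, Finset.card_univ, Fintype.card_fin, nsmul_eq_mul]
          push_cast; ring
  have htot : ∑ L : Lab n m, ∑ v, ∑ η, (if P L v η then (1 : ℝ) else 0) ≤
      (3 * (J / m) + 3 * (8 * (D * H : ℕ) / m) + β) * (cT * V * Y) := by
    calc _ ≤ ∑ L : Lab n m, ((if liveT L T ∧ bad L then V * Y else 0) +
          (if liveT L T then β * (V * Y) else 0)) := Finset.sum_le_sum fun L _ => hone L
      _ = ((univ.filter fun L : Lab n m => liveT L T ∧ bad L).card : ℝ) * (V * Y) +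
          cT * (β * (V * Y)) := by
          rw [Finset.sum_add_distrib, ← Finset.sum_filter, ← Finset.sum_filter,
            Finset.sum_const, Finset.sum_const, nsmul_eq_mul, nsmul_eq_mul]
      _ ≤ ((3 * (J / m) + 3 * (8 * (D * H : ℕ) / m)) * cT) * (V * Y) + cT * (β * (V * Y)) := by
          have := mul_le_mul_of_nonneg_right hbadc (show 0 ≤ V * Y by positivity)
          linarith
      _ = _ := by ring
  have har := arith D hDr
  have hfin : 12 * (D : ℝ) * (3 * (J / m) + 3 * (8 * (D * H : ℕ) / m) + β) ≤ 1 := by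
    have e1 : (J : ℝ) = 5 * 10 ^ 7 * D ^ 4 := by rw [hJ]; push_cast; ring
    have e2 : (m : ℝ) = 2 * 10 ^ 10 * D ^ 5 := by rw [hm]; push_cast; ring
    have e3 : (H : ℝ) = 200 * D := by rw [hH]; push_cast; ring
    have e4 : ((D * H : ℕ) : ℝ) = 200 * D ^ 2 := by rw [Nat.cast_mul, e3]; ring
    rw [hβ, e4, e1, e2, e3]
    calc _ = _ := by ring
      _ ≤ 1 := har
  refine le_trans (b := (∑ L : Lab n m, ∑ v, ∑ η, (if P L v η then (1 : ℝ) else 0)) * (12 * D))
    (le_of_eq ?_) ?_
  · congr 1
    refine Finset.sum_congr rfl fun L _ => Finset.sum_congr rfl fun v _ =>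
      Finset.sum_congr rfl fun η _ => ?_
    by_cases h : P L v η
    · exact (if_pos h).trans (if_pos h).symm
    · exact (if_neg h).trans (if_neg h).symm
  calc (∑ L : Lab n m, ∑ v, ∑ η, (if P L v η then (1 : ℝ) else 0)) * (12 * D)
      ≤ ((3 * (J / m) + 3 * (8 * (D * H : ℕ) / m) + β) * (cT * V * Y)) * (12 * D) :=
        mul_le_mul_of_nonneg_right htot (by positivity)
    _ = (12 * (D : ℝ) * (3 * (J / m) + 3 * (8 * (D * H : ℕ) / m) + β)) * (cT * V * Y) := by ring
    _ ≤ 1 * (cT * V * Y) := mul_le_mul_of_nonneg_right hfin (by positivity)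
    _ = cT * V * Y := one_mul _

end Pool.Agent.L5helper32.TC
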