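import Pool.Agent.L5helper32.TC.Stmt

/-!
# Elementary facts about the labels
-/

set_option autoImplicit false
open Finset
namespace Pool.Agent.L5helper32.TC

theorem cand_of_live {n m : ℕ} (L : Lab n m) (e : Ed n) (h : live L e) : cand L e := by
  obtain ⟨t, u, v⟩ := e
  obtain ⟨h1, h2⟩ := h
  simp only at h1 h2
  refine ⟨fun h => ?_, fun h => ?_, fun h => ?_⟩
  · simp only at h
    subst h
    exact ⟨h1.1, h2.1⟩
  · simp only at h
    subst h
    exact ⟨h1, h2.1⟩
  · simp only at h
    subst h
    exact ⟨h1, h2⟩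

theorem opn_of_cand {n m : ℕ} (L : Lab n m) (e : Ed n) (h : cand L e) : opn L e :=
  ⟨fun h1 => (h.2.1 h1).1.1, fun h2 => ⟨(h.2.2 h2).1.1, (h.2.2 h2).2.1⟩⟩

theorem liveT_iff {n m : ℕ} (L : Lab n m) (T : Tr n) : liveT L T ↔ ∀ t, live L (te T t) :=
  ⟨fun h t => ⟨h t, h (t + 1)⟩, fun h c => (h c).1⟩

/-- safety -/
theorem safe {n m : ℕ} (L : Lab n m) (T : Tr n)
    (h : ∀ t, live L (te T t) ∨ (opn L (te T t) ∧ ¬ cand L (te T t))) :
    ∀ t, live L (te T t) := by
  have hop : ∀ t, opn L (te T t) := fun t => by
    rcases h t with h | h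
    · exact opn_of_cand L _ (cand_of_live L _ h)
    · exact h.1
  have hlc : ∀ t, cand L (te T t) → live L (te T t) := fun t ht => by
    rcases h t with h | h
    · exact h
    · exact absurd ht h.2
  have a1 : in1 L 1 (T 1) := (hop 1).1 rfl
  have a2 : in1 L 2 (T 2) := ((hop 2).2 rfl).1
  have a0 : in1 L 0 (T 0) := ((hop 2).2 rfl).2
  have l0 : live L (te T 0) := hlc 0
    ⟨fun _ => ⟨a0, a1⟩, fun h => absurd h (by simp [te]), fun h => absurd h (by simp [te])⟩
  have b0 : in2 L 0 (T 0) := l0.1
  have b1 : in2 L 1 (T 1) := l0.2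
  have l1 : live L (te T 1) := hlc 1
    ⟨fun h => absurd h (by simp [te]), fun _ => ⟨b1, a2⟩, fun h => absurd h (by simp [te])⟩
  have b2 : in2 L 2 (T 2) := l1.2
  have e20 : (2 : Fin 3) + 1 = 0 := by decide
  have l2 : live L (te T 2) := by
    refine ⟨b2, ?_⟩
    change in2 L (2 + 1) (T (2 + 1))
    rw [e20]
    exact b0
  intro t
  fin_cases t
  · exact l0
  · exact l1
  · exact l2

/-- an edge outside `T` is a candidate only if a coordinate which does not matter for `T` and for
the open edges of its type is `0` -/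
theorem coord_exists {n m : ℕ} (T : Tr n) (e : Ed n) (he : e ≠ te T e.1) :
    ∃ y : Co n, (∀ c b, y ≠ (c, T c, b)) ∧ (∀ L : Lab n m, cand L e → (L y).val = 0) ∧
      ∀ (L : Lab n m) (z : Fin m) (e' : Ed n), e'.1 = e.1 →
        (opn (Function.update L y z) e' ↔ opn L e') := by
  have key : ∀ (c : Fin 3) (u : Fin n) (b : Bool), u ≠ T c →
      ∀ (c' : Fin 3) (b' : Bool), ((c, u, b) : Co n) ≠ (c', T c', b') := by
    intro c u b hu c' b' h
    simp only [Prod.mk.injEq] at h
    obtain ⟨h1, h2, -⟩ := h
    subst h1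
    exact hu h2
  obtain ⟨t, u, v⟩ := e
  simp only at he ⊢
  have ht : t = 0 ∨ t = 1 ∨ t = 2 := by fin_cases t <;> simp
  rcases ht with rfl | rfl | rfl
  · by_cases hu : u = T 0
    · have hv : v ≠ T 1 := by
        rintro rfl
        exact he (by rw [hu]; rfl)
      refine ⟨(1, v, false), key _ _ _ hv, fun L hc => (hc.1 rfl).2, ?_⟩
      intro L z e' he'
      simp [opn, he']
    · refine ⟨(0, u, false), key _ _ _ hu, fun L hc => (hc.1 rfl).1, ?_⟩
      intro L z e' he'
      simp [opn, he']
  · by_cases hu : u = T 1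
    · have hv : v ≠ T 2 := by
        rintro rfl
        exact he (by rw [hu]; rfl)
      refine ⟨(2, v, false), key _ _ _ hv, fun L hc => (hc.2.1 rfl).2, ?_⟩
      intro L z e' he'
      simp [opn, he', in1]
    · refine ⟨(1, u, true), key _ _ _ hu, fun L hc => (hc.2.1 rfl).1.2, ?_⟩
      intro L z e' he'
      simp [opn, he', in1]
  · by_cases hu : u = T 2
    · have hv : v ≠ T 0 := by
        rintro rfl
        exact he (by rw [hu]; rfl)
      refine ⟨(0, v, true), key _ _ _ hv, fun L hc => (hc.2.2 rfl).2.2, ?_⟩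
      intro L z e' he'
      simp [opn, he', in1]
    · refine ⟨(2, u, true), key _ _ _ hu, fun L hc => (hc.2.2 rfl).1.2, ?_⟩
      intro L z e' he'
      simp [opn, he', in1]

/-- `opn` does not depend on the second coordinates -/
theorem opn_update_true {n m : ℕ} (L : Lab n m) (c : Fin 3) (u : Fin n) (z : Fin m) (e : Ed n) :
    opn (Function.update L (c, u, true) z) e ↔ opn L e := by
  simp [opn, in1]

/-- setting one coordinate to `0` in a set of functions which is invariant under changes of this
coordinate -/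
theorem count_one {A : Type} [Fintype A] [DecidableEq A] {m : ℕ} (hm : 1 ≤ m) (P : Finset (A → Fin m)) (s : A)
    (hP : ∀ L ∈ P, ∀ z, Function.update L s z ∈ P) :
    (P.filter fun L => (L s).val = 0).card * m = P.card := by
  classical
  have h1 : P.card = ∑ z : Fin m, (P.filter fun L => L s = z).card :=
    Finset.card_eq_sum_card_fiberwise (fun _ _ => Finset.mem_coe.2 (Finset.mem_univ _))
  have h2 : ∀ z : Fin m, (P.filter fun L => L s = z).card =
      (P.filter fun L => (L s).val = 0).card := by
    intro z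
    refine Finset.card_bij' (fun L _ => Function.update L s ⟨0, hm⟩)
      (fun L _ => Function.update L s z) ?_ ?_ ?_ ?_
    · intro L hL
      rw [Finset.mem_filter] at hL ⊢
      exact ⟨hP L hL.1 _, by simp⟩
    · intro L hL
      rw [Finset.mem_filter] at hL ⊢
      exact ⟨hP L hL.1 _, by simp⟩
    · intro L hL
      rw [Finset.mem_filter] at hL
      rw [Function.update_idem, ← hL.2, Function.update_eq_self]
    · intro L hL
      rw [Finset.mem_filter] at hL
      rw [Function.update_idem]
      have : (⟨0, hm⟩ : Fin m) = L s := Fin.ext hL.2.symm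
      rw [this, Function.update_eq_self]
  rw [h1, Finset.sum_congr rfl fun z _ => h2 z, Finset.sum_const, Finset.card_univ,
    Fintype.card_fin, smul_eq_mul, Nat.mul_comm]

/-- setting the coordinates in `S` to `0` in a set of functions which is invariant under changes of
these coordinates -/
theorem count_many {A : Type} [Fintype A] [DecidableEq A] {m : ℕ} (hm : 1 ≤ m) (P : Finset (A → Fin m)) (S : Finset A)
    (hP : ∀ L ∈ P, ∀ s ∈ S, ∀ z, Function.update L s z ∈ P) :
    (P.filter fun L => ∀ s ∈ S, (L s).val = 0).card * m ^ S.card = P.card := by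
  classical
  induction S using Finset.induction_on generalizing P with
  | empty => simp
  | insert a S ha ih =>
    have h1 := count_one hm P a fun L hL z => hP L hL a (Finset.mem_insert_self _ _) z
    have h2 := ih (P.filter fun L => (L a).val = 0) (by
      intro L hL s hs z
      rw [Finset.mem_filter] at hL ⊢
      refine ⟨hP L hL.1 s (Finset.mem_insert_of_mem hs) z, ?_⟩
      have : a ≠ s := fun h => ha (h ▸ hs)
      rw [Function.update_of_ne this]
      exact hL.2)
    rw [Finset.filter_filter] at h2
    rw [Finset.card_insert_of_notMem ha, pow_succ, ← mul_assoc]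
    have h3 : (P.filter fun L => ∀ s ∈ insert a S, (L s).val = 0) =
        P.filter fun L => (L a).val = 0 ∧ ∀ s ∈ S, (L s).val = 0 := by
      apply Finset.filter_congr
      intro L _
      simp
    rw [h3, h2, h1]

theorem live_count {n m : ℕ} (hm : 1 ≤ m) (T : Tr n) :
    (univ.filter fun L : Lab n m => liveT L T).card * m ^ 6 = Fintype.card (Lab n m) := by
  classical
  have h := count_many hm (univ : Finset (Lab n m))
    (univ.image fun c : Fin 3 × Bool => ((c.1, T c.1, c.2) : Co n)) (by simp)
  have hc : (univ.image fun c : Fin 3 × Bool => ((c.1, T c.1, c.2) : Co n)).card = 6 := by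
    rw [Finset.card_image_of_injective]
    · simp
    · rintro ⟨c, b⟩ ⟨c', b'⟩ h
      simp only [Prod.mk.injEq] at h
      simp [h.1, h.2.2]
  rw [hc, Finset.card_univ] at h
  rw [← h]
  congr 2
  apply Finset.filter_congr
  intro L _
  constructor
  · intro hL s hs
    rw [Finset.mem_image] at hs
    obtain ⟨⟨c, b⟩, -, rfl⟩ := hs
    cases b
    · exact (hL c).1
    · exact (hL c).2
  · intro hL c
    exact ⟨hL (c, T c, false) (Finset.mem_image.2 ⟨(c, false), Finset.mem_univ _, rfl⟩),
      hL (c, T c, true) (Finset.mem_image.2 ⟨(c, true), Finset.mem_univ _, rfl⟩)⟩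

/-- two different edges of a triple determine it -/
theorem te_pair_inj {n : ℕ} {c : Fin 3} {T T' : Tr n} (h1 : te T c = te T' c)
    (h2 : te T (c + 1) = te T' (c + 1)) : T = T' := by
  simp only [te, Prod.mk.injEq, true_and] at h1 h2
  obtain ⟨a0, a1⟩ := h1
  obtain ⟨_, a2⟩ := h2
  funext d
  have hd : ∀ c d : Fin 3, d = c ∨ d = c + 1 ∨ d = c + 1 + 1 := by decide
  rcases hd c d with rfl | rfl | rfl
  · exact a0
  · exact a1
  · exact a2

/-- triples with two edges in small sets which do not depend on the second coordinates -/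
theorem ic_count {n m : ℕ} (hm : 1 ≤ m) (J : ℕ) (φ : Lab n m → Fin 3 → Finset (Ed n))
    (h1 : ∀ L X, (φ L X).card ≤ J) (h2 : ∀ L X, ∀ e ∈ φ L X, e.1 = X)
    (h3 : ∀ L c u z X, φ (Function.update L (c, u, true) z) X = φ L X) :
    (∑ T : Tr n, (univ.filter fun L : Lab n m => liveT L T ∧
      ∃ s t, s ≠ t ∧ te T s ∈ φ L s ∧ te T t ∈ φ L t).card) * m ^ 3 ≤
      3 * J ^ 2 * Fintype.card (Lab n m) := by
  classical
  -- one pair of types
  have hc : ∀ c : Fin 3, (∑ T : Tr n, (univ.filter fun L : Lab n m => liveT L T ∧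
      te T c ∈ φ L c ∧ te T (c + 1) ∈ φ L (c + 1)).card) * m ^ 3 ≤
        J ^ 2 * Fintype.card (Lab n m) := by
    intro c
    have hT : ∀ T : Tr n, (univ.filter fun L : Lab n m => liveT L T ∧
        te T c ∈ φ L c ∧ te T (c + 1) ∈ φ L (c + 1)).card * m ^ 3 ≤
          (univ.filter fun L : Lab n m => te T c ∈ φ L c ∧ te T (c + 1) ∈ φ L (c + 1)).card := by
      intro T
      have h := count_many hm
        (univ.filter fun L : Lab n m => te T c ∈ φ L c ∧ te T (c + 1) ∈ φ L (c + 1))
        (univ.image fun d : Fin 3 => ((d, T d, true) : Co n)) (by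
          intro L hL s hs z
          rw [Finset.mem_image] at hs
          obtain ⟨d, -, rfl⟩ := hs
          rw [Finset.mem_filter] at hL ⊢
          rw [h3, h3]
          exact ⟨Finset.mem_univ _, hL.2⟩)
      have hcard : (univ.image fun d : Fin 3 => ((d, T d, true) : Co n)).card = 3 := by
        rw [Finset.card_image_of_injective]
        · simp
        · intro d d' h
          simp only [Prod.mk.injEq] at h
          exact h.1
      rw [hcard] at h
      rw [← h]
      apply Nat.mul_le_mul_right
      apply Finset.card_le_card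
      intro L hL
      rw [Finset.mem_filter] at hL
      rw [Finset.mem_filter, Finset.mem_filter]
      refine ⟨⟨Finset.mem_univ _, hL.2.2⟩, ?_⟩
      intro s hs
      rw [Finset.mem_image] at hs
      obtain ⟨d, -, rfl⟩ := hs
      exact (hL.2.1 d).2
    calc (∑ T : Tr n, (univ.filter fun L : Lab n m => liveT L T ∧
          te T c ∈ φ L c ∧ te T (c + 1) ∈ φ L (c + 1)).card) * m ^ 3
        = ∑ T : Tr n, (univ.filter fun L : Lab n m => liveT L T ∧
          te T c ∈ φ L c ∧ te T (c + 1) ∈ φ L (c + 1)).card * m ^ 3 := Finset.sum_mul _ _ _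
      _ ≤ ∑ T : Tr n, (univ.filter fun L : Lab n m =>
          te T c ∈ φ L c ∧ te T (c + 1) ∈ φ L (c + 1)).card := Finset.sum_le_sum fun T _ => hT T
      _ = ∑ L : Lab n m, (univ.filter fun T : Tr n =>
          te T c ∈ φ L c ∧ te T (c + 1) ∈ φ L (c + 1)).card := by
            simp only [Finset.card_filter]
            exact Finset.sum_comm
      _ ≤ ∑ _L : Lab n m, J ^ 2 := by
            apply Finset.sum_le_sum
            intro L _
            calc (univ.filter fun T : Tr n =>
                  te T c ∈ φ L c ∧ te T (c + 1) ∈ φ L (c + 1)).card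
                ≤ (φ L c ×ˢ φ L (c + 1)).card := by
                  apply Finset.card_le_card_of_injOn (fun T => (te T c, te T (c + 1)))
                  · intro T hT
                    rw [Finset.mem_coe, Finset.mem_filter] at hT
                    rw [Finset.mem_coe, Finset.mem_product]
                    exact hT.2
                  · intro T _ T' _ h
                    simp only [Prod.mk.injEq] at h
                    exact te_pair_inj h.1 h.2
              _ ≤ J ^ 2 := by
                  rw [Finset.card_product, sq]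
                  exact Nat.mul_le_mul (h1 L c) (h1 L (c + 1))
      _ = J ^ 2 * Fintype.card (Lab n m) := by
            rw [Finset.sum_const, Finset.card_univ, smul_eq_mul, Nat.mul_comm]
  -- union over the three pairs
  have hu : ∀ T : Tr n, (univ.filter fun L : Lab n m => liveT L T ∧
      ∃ s t, s ≠ t ∧ te T s ∈ φ L s ∧ te T t ∈ φ L t).card ≤
        ∑ c : Fin 3, (univ.filter fun L : Lab n m => liveT L T ∧
          te T c ∈ φ L c ∧ te T (c + 1) ∈ φ L (c + 1)).card := by
    intro T
    refine le_trans (Finset.card_le_card ?_) Finset.card_biUnion_le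
    intro L hL
    rw [Finset.mem_filter] at hL
    obtain ⟨-, hl, s, t, hst, hs, ht⟩ := hL
    rw [Finset.mem_biUnion]
    have hst' : ∀ s t : Fin 3, s ≠ t → t = s + 1 ∨ s = t + 1 := by decide
    rcases hst' s t hst with rfl | rfl
    · exact ⟨s, Finset.mem_univ _, Finset.mem_filter.2 ⟨Finset.mem_univ _, hl, hs, ht⟩⟩
    · exact ⟨t, Finset.mem_univ _, Finset.mem_filter.2 ⟨Finset.mem_univ _, hl, ht, hs⟩⟩
  calc (∑ T : Tr n, (univ.filter fun L : Lab n m => liveT L T ∧
        ∃ s t, s ≠ t ∧ te T s ∈ φ L s ∧ te T t ∈ φ L t).card) * m ^ 3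
      ≤ (∑ T : Tr n, ∑ c : Fin 3, (univ.filter fun L : Lab n m => liveT L T ∧
          te T c ∈ φ L c ∧ te T (c + 1) ∈ φ L (c + 1)).card) * m ^ 3 :=
        Nat.mul_le_mul_right _ (Finset.sum_le_sum fun T _ => hu T)
    _ = ∑ c : Fin 3, (∑ T : Tr n, (univ.filter fun L : Lab n m => liveT L T ∧
          te T c ∈ φ L c ∧ te T (c + 1) ∈ φ L (c + 1)).card) * m ^ 3 := by
        rw [Finset.sum_comm, Finset.sum_mul]
    _ ≤ ∑ _c : Fin 3, J ^ 2 * Fintype.card (Lab n m) := Finset.sum_le_sum fun c _ => hc c
    _ = 3 * J ^ 2 * Fintype.card (Lab n m) := by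
        rw [Finset.sum_const, Finset.card_univ, Fintype.card_fin, smul_eq_mul]
        ring

end Pool.Agent.L5helper32.TC
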