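import Pool.Agent.L5helper32.TC.Stmt

/-!
# AND and OR gates of any fan-in: statements
-/

set_option autoImplicit false

open Finset

namespace Pool.Agent.L5helper32.TC

/-- AND and OR gates with arbitrary negations: some value of any single bit in `S` determines the
value -/
def AOr {n : ℕ} (S : Finset (Ed n)) (f : (Ed n → Bool) → Bool) : Prop :=
  (∀ x y : Ed n → Bool, (∀ e ∈ S, x e = y e) → f x = f y) ∧
  ∃ (p : Ed n → Bool) (c : Bool), ∀ x : Ed n → Bool, (∃ e ∈ S, x e = p e) → f x = c

/-- a stage which makes AND and OR gates constant or small -/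
def PreStmt : Prop := ∀ (n s : ℕ) (G : Finset (Ed n)) (I : Type) [Fintype I] [DecidableEq I]
    (S : I → Finset (Ed n)) (f : I → (Ed n → Bool) → Bool),
    (∀ i, S i ⊆ G) → (∀ i, AOr (S i) (f i)) → 384 * Fintype.card I * 3 ^ s ≤ 4 ^ s →
    ∃ (G' : Finset (Ed n)) (b : Ed n → Bool), G' ⊆ G ∧ (tris G).card ≤ 128 * (tris G').card ∧
      (∀ T : Tr n, (∀ t, te T t ∈ G' ∨ (te T t ∈ G ∧ b (te T t) = true)) → ∀ t, te T t ∈ G') ∧
      ∀ i, (∀ z z' : Ed n → Bool, f i (ext G' b z) = f i (ext G' b z')) ∨
        (S i ∩ G').card ≤ 3 * s ^ 2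

/-- gate `i` is an AND or an OR, with arbitrary negations of its inputs and its output: every
single wire has a value which determines the value of the gate -/
def Circuit.AndOr {ι : Type} (C : Circuit ι) (i : Fin C.size) : Prop :=
  ∃ (p : ι ⊕ Fin C.size → Bool) (c : Bool), ∀ x : ι ⊕ Fin C.size → Bool,
    (∃ a ∈ C.ins i, x a = p a) → C.fn i x = c

/-- the cost of a circuit: the number of gates in `B` plus the number of wires of the others -/
def Circuit.cost {ι : Type} (C : Circuit ι) (B : Finset (Fin C.size)) : ℕ :=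
  B.card + ∑ i ∈ Bᶜ, (C.ins i).card

end Pool.Agent.L5helper32.TC
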