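import Pool.Agent.L5helper32.TC.Gate1
import Pool.Agent.L5helper32.TC.Stmt2

/-!
# AND and OR gates of any fan-in: the probability that no bit kills the gate
-/

set_option autoImplicit false

open Finset

namespace Pool.Agent.L5helper32.TC

section kill
variable {Y E : Type} [Fintype Y] [DecidableEq Y] [Fintype E] [DecidableEq E]

open Classical in
/-- weight of the pairs which obey `P` and are not killed in `F` -/
noncomputable def Aw (P : (Y → Fin 2) → Prop) (y : E → Y) (p : E → Bool) (F : Finset E) : ℝ :=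
  ∑ L : Y → Fin 2, ∑ x : E → Bool,
    (if P L then 1 else 0) * ∏ e ∈ F, (if (L (y e)).val = 0 ∨ x e ≠ p e then (1 : ℝ) else 0)

theorem Aw_insert (P : (Y → Fin 2) → Prop) (y : E → Y) (p : E → Bool) (F : Finset E) (e : E)
    (he : e ∉ F) (hy : ∀ e' ∈ F, y e' ≠ y e) (hP : ∀ L z, P (Function.update L (y e) z) ↔ P L) :
    4 * Aw P y p (insert e F) = 3 * Aw P y p F := by
  classical
  let g : (Y → Fin 2) → (E → Bool) → ℝ := fun L x =>
    (if P L then 1 else 0) * ∏ e ∈ F, (if (L (y e)).val = 0 ∨ x e ≠ p e then (1 : ℝ) else 0)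
  let h : Fin 2 → Bool → ℝ := fun z b => if z.val = 0 ∨ b ≠ p e then 1 else 0
  have hgL : ∀ L z x, g (Function.update L (y e) z) x = g L x := by
    intro L z x
    simp only [g, hP L z]
    congr 1
    refine Finset.prod_congr rfl fun e' he' => ?_
    rw [Function.update_of_ne (hy e' he')]
  have hgx : ∀ L x b, g L (Function.update x e b) = g L x := by
    intro L x b
    simp only [g]
    congr 1
    refine Finset.prod_congr rfl fun e' he' => ?_
    have : e' ≠ e := fun hh => he (hh ▸ he')
    rw [Function.update_of_ne this]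
  have e1 : Aw P y p (insert e F) = ∑ x : E → Bool, ∑ L : Y → Fin 2, g L x * h (L (y e)) (x e) := by
    unfold Aw
    rw [Finset.sum_comm]
    refine Finset.sum_congr rfl fun x _ => Finset.sum_congr rfl fun L _ => ?_
    rw [Finset.prod_insert he]
    simp only [g, h]
    ring
  have e2 : ∀ x : E → Bool, 2 * ∑ L : Y → Fin 2, g L x * h (L (y e)) (x e) =
      ∑ L : Y → Fin 2, ∑ z : Fin 2, g L x * h z (x e) := by
    intro x
    have := coord_avg (fun L : Y → Fin 2 => g L x * h (L (y e)) (x e)) (y e)
    rw [Fintype.card_fin] at this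
    push_cast at this
    rw [this]
    refine Finset.sum_congr rfl fun L _ => Finset.sum_congr rfl fun z _ => ?_
    rw [hgL, Function.update_self]
  have e3 : ∀ (L : Y → Fin 2) (z : Fin 2), 2 * ∑ x : E → Bool, g L x * h z (x e) =
      ∑ x : E → Bool, ∑ b : Bool, g L x * h z b := by
    intro L z
    have := coord_avg (fun x : E → Bool => g L x * h z (x e)) e
    rw [Fintype.card_bool] at this
    push_cast at this
    rw [this]
    refine Finset.sum_congr rfl fun x _ => Finset.sum_congr rfl fun b _ => ?_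
    rw [hgx, Function.update_self]
  have hsum : ∑ z : Fin 2, ∑ b : Bool, h z b = 3 := by
    rw [Fin.sum_univ_two]
    simp only [h, Fintype.sum_bool]
    cases hp : p e <;> norm_num
  have e4 : 4 * Aw P y p (insert e F) =
      ∑ L : Y → Fin 2, ∑ z : Fin 2, ∑ x : E → Bool, ∑ b : Bool, g L x * h z b := by
    rw [e1, Finset.mul_sum]
    have : ∀ x : E → Bool, 4 * ∑ L : Y → Fin 2, g L x * h (L (y e)) (x e) =
        2 * ∑ L : Y → Fin 2, ∑ z : Fin 2, g L x * h z (x e) := by
      intro x; rw [← e2]; ring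
    simp_rw [this]
    rw [← Finset.mul_sum, Finset.sum_comm, Finset.mul_sum]
    refine Finset.sum_congr rfl fun L _ => ?_
    rw [Finset.sum_comm, Finset.mul_sum]
    refine Finset.sum_congr rfl fun z _ => ?_
    exact e3 L z
  rw [e4]
  unfold Aw
  rw [Finset.mul_sum]
  refine Finset.sum_congr rfl fun L _ => ?_
  have : ∑ z : Fin 2, ∑ x : E → Bool, ∑ b : Bool, g L x * h z b =
      ∑ x : E → Bool, g L x * ∑ z : Fin 2, ∑ b : Bool, h z b := by
    rw [Finset.sum_comm]
    refine Finset.sum_congr rfl fun x _ => ?_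
    rw [Finset.mul_sum]
    refine Finset.sum_congr rfl fun z _ => ?_
    rw [Finset.mul_sum]
  rw [this, hsum, Finset.mul_sum]
  refine Finset.sum_congr rfl fun x _ => ?_
  simp only [g]
  ring

theorem Aw_pow (P : (Y → Fin 2) → Prop) (y : E → Y) (p : E → Bool) (F : Finset E)
    (hy : Set.InjOn y F) (hP : ∀ e ∈ F, ∀ L z, P (Function.update L (y e) z) ↔ P L) :
    4 ^ F.card * Aw P y p F = 3 ^ F.card * Aw P y p ∅ := by
  classical
  induction F using Finset.induction_on with
  | empty => simp
  | insert e F he ih =>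
    have h1 := Aw_insert P y p F e he (fun e' he' hh => he (by
        have := hy (Finset.mem_coe.2 (Finset.mem_insert_of_mem he'))
          (Finset.mem_coe.2 (Finset.mem_insert_self e F)) hh
        rwa [← this])) (hP e (Finset.mem_insert_self e F))
    have h2 := ih (fun a ha b hb hab => hy (Finset.mem_coe.2 (Finset.mem_insert_of_mem ha))
      (Finset.mem_coe.2 (Finset.mem_insert_of_mem hb)) hab)
      (fun e' he' => hP e' (Finset.mem_insert_of_mem he'))
    rw [Finset.card_insert_of_notMem he, pow_succ, pow_succ]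
    calc (4 : ℝ) ^ F.card * 4 * Aw P y p (insert e F) =
          4 ^ F.card * (4 * Aw P y p (insert e F)) := by ring
      _ = 3 * (4 ^ F.card * Aw P y p F) := by rw [h1]; ring
      _ = _ := by rw [h2]; ring

open Classical in
theorem kill_count (F : Finset E) (y : E → Y) (hy : Set.InjOn y F) (P : (Y → Fin 2) → Prop)
    (hP : ∀ e ∈ F, ∀ L z, P (Function.update L (y e) z) ↔ P L) (p : E → Bool) :
    (univ.filter fun q : (Y → Fin 2) × (E → Bool) => P q.1 ∧
      ∀ e ∈ F, (q.1 (y e)).val = 0 ∨ q.2 e ≠ p e).card * 4 ^ F.card =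
    3 ^ F.card * (univ.filter fun q : (Y → Fin 2) × (E → Bool) => P q.1).card := by
  have key : ∀ F : Finset E, ((univ.filter fun q : (Y → Fin 2) × (E → Bool) => P q.1 ∧
      ∀ e ∈ F, (q.1 (y e)).val = 0 ∨ q.2 e ≠ p e).card : ℝ) = Aw P y p F := by
    intro F
    unfold Aw
    rw [Finset.card_filter]
    push_cast
    rw [Fintype.sum_prod_type]
    refine Finset.sum_congr rfl fun L _ => Finset.sum_congr rfl fun x _ => ?_
    rw [Finset.prod_ite_zero, Finset.prod_const_one]
    by_cases h1 : P L
    · by_cases h2 : ∀ e ∈ F, (L (y e)).val = 0 ∨ x e ≠ p e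
      · rw [if_pos ⟨h1, h2⟩, if_pos h1, if_pos h2]; ring
      · rw [if_neg (fun h => h2 h.2), if_neg h2]; ring
    · rw [if_neg (fun h => h1 h.1), if_neg h1]; ring
  have h0 := key ∅
  simp only [Finset.notMem_empty, false_imp_iff, implies_true, and_true] at h0
  have h := Aw_pow P y p F hy hP
  rw [← key F, ← h0] at h
  have h' : ((univ.filter fun q : (Y → Fin 2) × (E → Bool) => P q.1 ∧
      ∀ e ∈ F, (q.1 (y e)).val = 0 ∨ q.2 e ≠ p e).card : ℝ) * 4 ^ F.card =
    3 ^ F.card * ((univ.filter fun q : (Y → Fin 2) × (E → Bool) => P q.1).card : ℝ) := by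
    rw [← h]; ring
  exact_mod_cast h'

end kill

end Pool.Agent.L5helper32.TC
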