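import Pool.Agent.L5helper32.TC.Rand

/-!
# The stage for bounded degrees, by averaging
-/

set_option autoImplicit false

open Finset

namespace Pool.Agent.L5helper32.TC

section Det

variable {n m : ℕ}

/-- the kept edges -/
noncomputable def keep (L : Lab n m) (G : Finset (Ed n)) (good : Ed n → Prop) : Finset (Ed n) :=
  open Classical in G.filter fun e => live L e ∧ good e

lemma mem_keep {L : Lab n m} {G : Finset (Ed n)} {good : Ed n → Prop} {e : Ed n} :
    e ∈ keep L G good ↔ e ∈ G ∧ live L e ∧ good e := by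
  classical
  rw [keep, Finset.mem_filter]

/-- the values of the other edges -/
noncomputable def bval (L : Lab n m) (X : Ed n → Bool) (e : Ed n) : Bool :=
  if opn L e then (if cand L e then false else X e) else false

lemma bval_true {L : Lab n m} {X : Ed n → Bool} {e : Ed n} (h : bval L X e = true) :
    opn L e ∧ ¬ cand L e := by
  rw [bval] at h
  split_ifs at h with h1 h2
  exact ⟨h1, h2⟩

lemma bval_live {L : Lab n m} {X : Ed n → Bool} {e : Ed n} (h : live L e) :
    bval L X e = false := by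
  have hc := cand_of_live L e h
  rw [bval]
  split_ifs <;> rfl

lemma ext_eq_fl (L : Lab n m) (X : Ed n → Bool) (G : Finset (Ed n)) (good : Ed n → Prop)
    (z : Ed n → Bool) :
    ext (keep L G good) (bval L X) z =
      fl L X (fun e => ext (keep L G good) (fun _ => false) z e) := by
  funext e
  rw [fl, ext, ext]
  by_cases h : e ∈ keep L G good
  · rw [if_pos h, if_pos (mem_keep.1 h).2.1, if_pos h]
  · rw [if_neg h, if_neg h]
    by_cases hl : live L e
    · rw [if_pos hl, bval_live hl]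
    · rw [if_neg hl, bval]

lemma dep_of_good {S : Finset (Ed n)} {f : (Ed n → Bool) → Bool} {L : Lab n m}
    {X : Ed n → Bool} (h : Good S f L X) (G : Finset (Ed n)) (good : Ed n → Prop) :
    ∃ o : Option (Ed n), (∀ e ∈ o, e ∈ keep L G good) ∧
      ∀ z z' : Ed n → Bool, (∀ e ∈ o, z e = z' e) →
        f (ext (keep L G good) (bval L X) z) = f (ext (keep L G good) (bval L X) z') := by
  classical
  obtain ⟨o, ho, hf⟩ := h
  by_cases hk : ∃ e ∈ o, e ∈ keep L G good
  · obtain ⟨e, heo, hek⟩ := hk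
    refine ⟨some e, ?_, ?_⟩
    · intro e' he'
      rw [Option.mem_some_iff] at he'
      rw [← he']; exact hek
    · intro z z' hz
      rw [ext_eq_fl, ext_eq_fl]
      apply hf
      intro e' he'
      have : e' = e := Option.mem_unique he' heo
      subst this
      simp only [ext, if_pos hek]
      exact hz e' (Option.mem_some_iff.2 rfl)
  · refine ⟨none, by simp, ?_⟩
    intro z z' _
    rw [ext_eq_fl, ext_eq_fl]
    apply hf
    intro e' he'
    have : e' ∉ keep L G good := fun hh => hk ⟨e', he', hh⟩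
    simp only [ext, if_neg this]

lemma dep_of_not_mem {S : Finset (Ed n)} {f : (Ed n → Bool) → Bool}
    (hf : ∀ x y : Ed n → Bool, (∀ e ∈ S, x e = y e) → f x = f y) {G' : Finset (Ed n)}
    {b : Ed n → Bool} (h : ∀ e ∈ S, e ∉ G') :
    ∃ o : Option (Ed n), (∀ e ∈ o, e ∈ G') ∧
      ∀ z z' : Ed n → Bool, (∀ e ∈ o, z e = z' e) → f (ext G' b z) = f (ext G' b z') := by
  refine ⟨none, by simp, fun z z' _ => hf _ _ fun e he => ?_⟩
  rw [ext, ext, if_neg (h e he), if_neg (h e he)]

/-- The deterministic part. -/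
theorem concl_of {G : Finset (Ed n)} {I : Type} {S : I → Finset (Ed n)}
    {f : I → (Ed n → Bool) → Bool}
    (hf : ∀ i, ∀ x y : Ed n → Bool, (∀ e ∈ S i, x e = y e) → f i x = f i y)
    (L : Lab n m) (X : Ed n → Bool) (q : ℕ) (Gd : Finset (Tr n))
    (hGd : ∀ T ∈ Gd, T ∈ tris G ∧ liveT L T ∧
      ∀ i, (∃ t, te T t ∈ S i) → Good (S i) (f i) L X)
    (hq : (tris G).card ≤ q * Gd.card) : Concl q G f := by
  classical
  set good : Ed n → Prop := fun e => ∀ i, e ∈ S i → Good (S i) (f i) L X with hgood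
  refine ⟨keep L G good, bval L X, ?_, ?_, ?_, ?_⟩
  · intro e he; exact (mem_keep.1 he).1
  · refine hq.trans (Nat.mul_le_mul_left q (Finset.card_le_card fun T hT => ?_))
    obtain ⟨h1, h2, h3⟩ := hGd T hT
    rw [tris, Finset.mem_filter] at h1 ⊢
    refine ⟨Finset.mem_univ _, fun t => mem_keep.2 ⟨h1.2 t, (liveT_iff L T).1 h2 t, ?_⟩⟩
    intro i hi
    exact h3 i ⟨t, hi⟩
  · intro T hT t
    have hs : ∀ t, live L (te T t) := by
      apply safe L T
      intro t
      rcases hT t with h | h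
      · exact Or.inl (mem_keep.1 h).2.1
      · exact Or.inr (bval_true h.2)
    rcases hT t with h | h
    · exact h
    · rw [bval_live (hs t)] at h
      exact absurd h.2 (by simp)
  · intro i
    by_cases hg : Good (S i) (f i) L X
    · exact dep_of_good hg G good
    · apply dep_of_not_mem (hf i)
      intro e he hk
      exact hg ((mem_keep.1 hk).2.2 i he)

end Det

section Count

open Classical in
/-- the indicator of a proposition -/
noncomputable def ind (p : Prop) : ℝ := if p then 1 else 0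

lemma ind_nonneg (p : Prop) : 0 ≤ ind p := by
  rw [ind]; split_ifs <;> norm_num

lemma ind_true {p : Prop} (h : p) : ind p = 1 := by rw [ind, if_pos h]

lemma ind_false {p : Prop} (h : ¬ p) : ind p = 0 := by rw [ind, if_neg h]

lemma ind_mono {p q : Prop} (h : p → q) : ind p ≤ ind q := by
  by_cases hp : p
  · rw [ind_true hp, ind_true (h hp)]
  · rw [ind_false hp]; exact ind_nonneg q

lemma ind_and (p q : Prop) : ind (p ∧ q) = ind p * ind q := by
  by_cases hp : p
  · by_cases hq : q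
    · rw [ind_true ⟨hp, hq⟩, ind_true hp, ind_true hq]; norm_num
    · rw [ind_false (fun h => hq h.2), ind_false hq]; norm_num
  · rw [ind_false (fun h => hp h.1), ind_false hp]; norm_num

lemma card_filter_ind {α : Type*} (s : Finset α) (p : α → Prop) [DecidablePred p] :
    ((s.filter p).card : ℝ) = ∑ x ∈ s, ind (p x) := by
  rw [Finset.card_filter, Nat.cast_sum]
  refine Finset.sum_congr rfl fun x _ => ?_
  by_cases h : p x
  · rw [if_pos h, ind_true h]; norm_num
  · rw [if_neg h, ind_false h]; norm_num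

lemma ncard_ind {α : Type*} [Fintype α] (p : α → Prop) :
    ((Set.ncard {x | p x} : ℕ) : ℝ) = ∑ x, ind (p x) := by
  classical
  have h : {x | p x} = ((univ.filter p : Finset α) : Set α) := by
    ext x; simp
  rw [h, Set.ncard_coe_finset, card_filter_ind]

/-- at most `D` gates read an edge: numbering -/
lemma exists_own {n D : ℕ} (hD : 1 ≤ D) {I : Type} [Fintype I] [DecidableEq I]
    (S : I → Finset (Ed n)) (hdeg : ∀ e, (univ.filter fun i => e ∈ S i).card ≤ D) :
    ∃ (own : Ed n → Fin D → Option I) (u : I → Ed n → Fin D),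
      (∀ i, ∀ e ∈ S i, own e (u i e) = some i) ∧
      ∀ i, ∀ e ∈ S i, ∀ a, own e a = some i → a = u i e := by
  classical
  have h1 : ∀ e, ∃ g : I → Fin D, ∀ i j, e ∈ S i → e ∈ S j → g i = g j → i = j := by
    intro e
    have hc : Fintype.card {i // e ∈ S i} ≤ Fintype.card (Fin D) := by
      rw [Fintype.card_fin, Fintype.card_subtype]
      exact hdeg e
    obtain ⟨emb⟩ := Function.Embedding.nonempty_of_card_le hc
    refine ⟨fun i => if h : e ∈ S i then emb ⟨i, h⟩ else ⟨0, hD⟩, ?_⟩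
    intro i j hi hj hij
    simp only [dif_pos hi, dif_pos hj] at hij
    have := emb.injective hij
    simpa using this
  choose g hg using h1
  refine ⟨fun e a => if h : ∃ i, e ∈ S i ∧ g e i = a then some h.choose else none,
    fun i e => g e i, ?_, ?_⟩
  · intro i e he
    have h : ∃ j, e ∈ S j ∧ g e j = g e i := ⟨i, he, rfl⟩
    simp only [dif_pos h, Option.some.injEq]
    exact hg e _ _ h.choose_spec.1 he h.choose_spec.2
  · intro i e he a ha
    by_cases h : ∃ j, e ∈ S j ∧ g e j = a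
    · simp only [dif_pos h, Option.some.injEq] at ha
      have := h.choose_spec.2
      rw [ha] at this
      exact this.symm
    · simp only [dif_neg h] at ha
      exact absurd ha (by simp)

/-- the weights of a gate -/
lemma exists_weights {n D : ℕ} {S : Finset (Ed n)} {f : (Ed n → Bool) → Bool}
    (h : Gate S D f) : ∃ w : Ed n → ℝ, GateW S D f w := by
  rcases h with ⟨h1, h2 | ⟨w, t, h2⟩⟩
  · exact ⟨fun _ => 0, h1, Or.inl h2⟩
  · exact ⟨w, h1, Or.inr ⟨t, h2⟩⟩

/-- pairs with two heavy edges -/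
lemma count_ic {n m : ℕ} (hm : 1 ≤ m) (J : ℕ) (w : Ed n → ℝ) (S : Finset (Ed n)) :
    (∑ T : Tr n, ∑ L : Lab n m, ind (liveT L T ∧ IC w J S L T)) * (m : ℝ) ^ 3 ≤
      3 * (J : ℝ) ^ 2 * Fintype.card (Lab n m) := by
  classical
  have h := ic_count (n := n) hm J (phi w J S) (fun L X => topJ_card _ _ _)
    (fun L X e he => (Finset.mem_filter.1 (topJ_subset _ _ _ he)).2.1)
    (fun L c u z X => by
      rw [phi, phi]
      congr 1
      refine Finset.filter_congr fun e _ => ?_
      rw [opn_update_true])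
  have h2 : (∑ T : Tr n, ∑ L : Lab n m, ind (liveT L T ∧ IC w J S L T)) =
      ((∑ T : Tr n, (univ.filter fun L : Lab n m => liveT L T ∧
      ∃ s t, s ≠ t ∧ te T s ∈ phi w J S L s ∧ te T t ∈ phi w J S L t).card : ℕ) : ℝ) := by
    rw [Nat.cast_sum]
    refine Finset.sum_congr rfl fun T _ => ?_
    rw [card_filter_ind]
    rfl
  rw [h2]
  exact_mod_cast h

/-- **The averaging argument.** -/
theorem exists_sample (hp : GateProb) {n D : ℕ} (hD : 1 ≤ D) {G : Finset (Ed n)} {I : Type}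
    [Fintype I] [DecidableEq I] {S : I → Finset (Ed n)} {f : I → (Ed n → Bool) → Bool}
    (hgate : ∀ i, Gate (S i) D (f i))
    (hdeg : ∀ e, (univ.filter fun i => e ∈ S i).card ≤ D)
    (hcond : 12 * (∑ i, (S i).card) * (5 * 10 ^ 7 * D ^ 4) ^ 2 * (2 * 10 ^ 10 * D ^ 5) ^ 3 ≤
      (tris G).card) :
    ∃ (L : Lab n (2 * 10 ^ 10 * D ^ 5)) (X : Ed n → Bool) (Gd : Finset (Tr n)),
      (∀ T ∈ Gd, T ∈ tris G ∧ liveT L T ∧
        ∀ i, (∃ t, te T t ∈ S i) → Good (S i) (f i) L X) ∧
      (tris G).card ≤ (2 * (2 * 10 ^ 10 * D ^ 5) ^ 6) * Gd.card := by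
  classical
  obtain ⟨own, u, hown1, hown2⟩ := exists_own hD S hdeg
  choose w hw using fun i => exists_weights (hgate i)
  set m : ℕ := 2 * 10 ^ 10 * D ^ 5 with hm
  set J : ℕ := 5 * 10 ^ 7 * D ^ 4 with hJ
  have hm1 : 1 ≤ m := by
    rw [hm]
    have : 1 ≤ D ^ 5 := Nat.one_le_pow _ _ hD
    omega
  have hmR : (0 : ℝ) < (m : ℝ) := by exact_mod_cast hm1
  have hDR : (0 : ℝ) < (D : ℝ) := by exact_mod_cast hD
  let P : Type := (Ed n → Fin D × Fin (200 * D)) × (I → Fin (200 * D + 1))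
  have : Nonempty (Fin D) := ⟨⟨0, hD⟩⟩
  have : Nonempty (Fin (200 * D)) := ⟨⟨0, by omega⟩⟩
  have : Nonempty (Fin m) := ⟨⟨0, hm1⟩⟩
  have : Nonempty P := inferInstance
  have : Nonempty (Lab n m) := inferInstance
  set N1 : ℝ := (Fintype.card (Lab n m) : ℝ) with hN1
  set N2 : ℝ := (Fintype.card P : ℝ) with hN2
  have hN1pos : 0 < N1 := by rw [hN1]; exact_mod_cast Fintype.card_pos
  have hN2pos : 0 < N2 := by rw [hN2]; exact_mod_cast Fintype.card_pos
  set τ : ℝ := ((tris G).card : ℝ) with hτ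
  set ℓ : ℝ := N1 / (m : ℝ) ^ 6 with hℓ
  have hℓ0 : 0 ≤ ℓ := by positivity
  have hlive : ∀ T : Tr n, ∑ L : Lab n m, ind (liveT L T) = ℓ := by
    intro T
    have h := live_count hm1 T
    rw [hℓ, eq_div_iff (by positivity), ← card_filter_ind]
    rw [hN1]
    exact_mod_cast h
  set good : (Lab n m × P) → I → Prop := fun ω i =>
    Good (S i) (f i) ω.1 (xval own w ω.2.1 ω.2.2) with hgood
  set bad : (Lab n m × P) → Tr n → Prop := fun ω T => ∃ i, (∃ t, te T t ∈ S i) ∧ ¬ good ω i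
    with hbad
  set Gd : (Lab n m × P) → Finset (Tr n) := fun ω =>
    (tris G).filter fun T => liveT ω.1 T ∧ ¬ bad ω T with hGd
  -- sums over the sample space
  have hprod : ∀ F : Lab n m → ℝ, ∑ ω : Lab n m × P, F ω.1 = (∑ L, F L) * N2 := by
    intro F
    rw [Fintype.sum_prod_type]
    simp only [Finset.sum_const, Finset.card_univ, nsmul_eq_mul]
    rw [Finset.sum_mul]
    refine Finset.sum_congr rfl fun L _ => ?_
    rw [hN2]; ring
  -- all live triples
  have hS0 : ∑ ω : Lab n m × P, ∑ T ∈ tris G, ind (liveT ω.1 T) = τ * ℓ * N2 := by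
    rw [Finset.sum_comm]
    have : ∀ T ∈ tris G, ∑ ω : Lab n m × P, ind (liveT ω.1 T) = ℓ * N2 := by
      intro T _
      rw [hprod (fun L => ind (liveT L T)), hlive]
    rw [Finset.sum_congr rfl this, Finset.sum_const, nsmul_eq_mul]
    ring
  -- the heavy pairs
  set A1 : ℝ := ∑ i, ∑ ω : Lab n m × P, ∑ T : Tr n,
    ind ((S i).Nonempty) * ind (liveT ω.1 T ∧ IC (w i) J (S i) ω.1 T) with hA1
  have hA1le : A1 * (m : ℝ) ^ 3 ≤ (∑ i, ((S i).card : ℝ)) * (3 * (J : ℝ) ^ 2 * N1 * N2) := by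
    rw [hA1, Finset.sum_mul, Finset.sum_mul]
    refine Finset.sum_le_sum fun i _ => ?_
    have h1 : ∑ ω : Lab n m × P, ∑ T : Tr n,
        ind ((S i).Nonempty) * ind (liveT ω.1 T ∧ IC (w i) J (S i) ω.1 T) =
        ind ((S i).Nonempty) * ((∑ T : Tr n, ∑ L : Lab n m,
          ind (liveT L T ∧ IC (w i) J (S i) L T)) * N2) := by
      rw [hprod (fun L => ∑ T : Tr n,
        ind ((S i).Nonempty) * ind (liveT L T ∧ IC (w i) J (S i) L T)), Finset.sum_comm]
      simp only [← Finset.mul_sum]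
      ring
    rw [h1]
    have h2 := count_ic hm1 J (w i) (S i)
    have h3 : 0 ≤ ∑ T : Tr n, ∑ L : Lab n m, ind (liveT L T ∧ IC (w i) J (S i) L T) :=
      Finset.sum_nonneg fun _ _ => Finset.sum_nonneg fun _ _ => ind_nonneg _
    by_cases hne : (S i).Nonempty
    · rw [ind_true hne]
      have h4 : (1 : ℝ) ≤ ((S i).card : ℝ) := by exact_mod_cast hne.card_pos
      calc 1 * ((∑ T : Tr n, ∑ L : Lab n m,
            ind (liveT L T ∧ IC (w i) J (S i) L T)) * N2) * (m : ℝ) ^ 3
          = ((∑ T : Tr n, ∑ L : Lab n m,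
            ind (liveT L T ∧ IC (w i) J (S i) L T)) * (m : ℝ) ^ 3) * N2 := by ring
        _ ≤ (3 * (J : ℝ) ^ 2 * N1) * N2 := mul_le_mul_of_nonneg_right h2 hN2pos.le
        _ = 1 * (3 * (J : ℝ) ^ 2 * N1 * N2) := by ring
        _ ≤ ((S i).card : ℝ) * (3 * (J : ℝ) ^ 2 * N1 * N2) :=
            mul_le_mul_of_nonneg_right h4 (by positivity)
    · rw [ind_false hne, zero_mul, zero_mul]
      positivity
  -- the improbable pairs
  set A2 : ℝ := ∑ T ∈ tris G, ∑ i, ind (∃ t, te T t ∈ S i) *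
    ∑ ω : Lab n m × P, ind (liveT ω.1 T ∧ ¬ IC (w i) J (S i) ω.1 T ∧ ¬ good ω i) with hA2
  have hA2le : A2 * (12 * D) ≤ τ * (3 * D) * (ℓ * N2) := by
    have h1 : ∀ T ∈ tris G, (∑ i, ind (∃ t, te T t ∈ S i) *
        ∑ ω : Lab n m × P, ind (liveT ω.1 T ∧ ¬ IC (w i) J (S i) ω.1 T ∧ ¬ good ω i)) *
        (12 * D) ≤ (3 * D) * (ℓ * N2) := by
      intro T _
      have h2 : ∀ i, (∑ ω : Lab n m × P,
          ind (liveT ω.1 T ∧ ¬ IC (w i) J (S i) ω.1 T ∧ ¬ good ω i)) * (12 * D) ≤ ℓ * N2 := by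
        intro i
        have h3 := hp n D hD I own w i (u i) (S i) (hown1 i) (hown2 i) (f i) (hw i) T
        rw [ncard_ind, card_filter_ind, hlive T] at h3
        have h4 : (Fintype.card (Ed n → Fin D × Fin (200 * D)) : ℝ) *
            (Fintype.card (I → Fin (200 * D + 1)) : ℝ) = N2 := by
          rw [hN2, Fintype.card_prod]; push_cast; ring
        calc _ ≤ ℓ * (Fintype.card (Ed n → Fin D × Fin (200 * D)) : ℝ) *
              (Fintype.card (I → Fin (200 * D + 1)) : ℝ) := h3
          _ = ℓ * N2 := by rw [← h4]; ring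
      have h5 : ∑ i, ind (∃ t, te T t ∈ S i) ≤ 3 * D := by
        have h6 : ∀ i, ind (∃ t, te T t ∈ S i) ≤ ∑ t : Fin 3, ind (te T t ∈ S i) := by
          intro i
          by_cases h : ∃ t, te T t ∈ S i
          · obtain ⟨t, ht⟩ := h
            rw [ind_true ⟨t, ht⟩, ← ind_true ht]
            exact Finset.single_le_sum (f := fun t : Fin 3 => ind (te T t ∈ S i))
              (fun _ _ => ind_nonneg _) (Finset.mem_univ t)
          · rw [ind_false h]
            exact Finset.sum_nonneg fun _ _ => ind_nonneg _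
        calc ∑ i, ind (∃ t, te T t ∈ S i) ≤ ∑ i, ∑ t : Fin 3, ind (te T t ∈ S i) :=
              Finset.sum_le_sum fun i _ => h6 i
          _ = ∑ t : Fin 3, ∑ i, ind (te T t ∈ S i) := Finset.sum_comm
          _ ≤ ∑ t : Fin 3, (D : ℝ) := by
              refine Finset.sum_le_sum fun t _ => ?_
              rw [← card_filter_ind]
              exact_mod_cast hdeg (te T t)
          _ = 3 * D := by simp
      rw [Finset.sum_mul]
      calc ∑ i, ind (∃ t, te T t ∈ S i) * (∑ ω : Lab n m × P,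
            ind (liveT ω.1 T ∧ ¬ IC (w i) J (S i) ω.1 T ∧ ¬ good ω i)) * (12 * D)
          ≤ ∑ i, ind (∃ t, te T t ∈ S i) * (ℓ * N2) := by
            refine Finset.sum_le_sum fun i _ => ?_
            rw [mul_assoc]
            exact mul_le_mul_of_nonneg_left (h2 i) (ind_nonneg _)
        _ = (∑ i, ind (∃ t, te T t ∈ S i)) * (ℓ * N2) := by rw [Finset.sum_mul]
        _ ≤ (3 * D) * (ℓ * N2) := mul_le_mul_of_nonneg_right h5 (by positivity)
    rw [hA2, Finset.sum_mul]
    calc _ ≤ ∑ T ∈ tris G, (3 * (D : ℝ)) * (ℓ * N2) := Finset.sum_le_sum h1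
      _ = τ * (3 * D) * (ℓ * N2) := by
          rw [Finset.sum_const, nsmul_eq_mul, hτ]; ring
  -- all bad pairs
  have hB : ∑ ω : Lab n m × P, ∑ T ∈ tris G, ind (liveT ω.1 T ∧ bad ω T) ≤ A1 + A2 := by
    have h1 : ∀ (ω : Lab n m × P) (T : Tr n), ind (liveT ω.1 T ∧ bad ω T) ≤
        ∑ i, (ind ((S i).Nonempty) * ind (liveT ω.1 T ∧ IC (w i) J (S i) ω.1 T) +
          ind (∃ t, te T t ∈ S i) *
            ind (liveT ω.1 T ∧ ¬ IC (w i) J (S i) ω.1 T ∧ ¬ good ω i)) := by
      intro ω T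
      have hnn : ∀ i, 0 ≤ ind ((S i).Nonempty) * ind (liveT ω.1 T ∧ IC (w i) J (S i) ω.1 T) +
          ind (∃ t, te T t ∈ S i) *
            ind (liveT ω.1 T ∧ ¬ IC (w i) J (S i) ω.1 T ∧ ¬ good ω i) := fun i =>
        add_nonneg (mul_nonneg (ind_nonneg _) (ind_nonneg _))
          (mul_nonneg (ind_nonneg _) (ind_nonneg _))
      by_cases h : liveT ω.1 T ∧ bad ω T
      · obtain ⟨hl, i, ht, hg⟩ := h
        rw [ind_true ⟨hl, i, ht, hg⟩]
        refine le_trans ?_ (Finset.single_le_sum (f := fun i =>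
          ind ((S i).Nonempty) * ind (liveT ω.1 T ∧ IC (w i) J (S i) ω.1 T) +
          ind (∃ t, te T t ∈ S i) *
            ind (liveT ω.1 T ∧ ¬ IC (w i) J (S i) ω.1 T ∧ ¬ good ω i))
          (fun i _ => hnn i) (Finset.mem_univ i))
        by_cases hic : IC (w i) J (S i) ω.1 T
        · obtain ⟨t, ht⟩ := ht
          have : ind ((S i).Nonempty) * ind (liveT ω.1 T ∧ IC (w i) J (S i) ω.1 T) = 1 := by
            rw [ind_true ⟨te T t, ht⟩, ind_true ⟨hl, hic⟩]; norm_num
          simp only [this]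
          have := mul_nonneg (ind_nonneg (∃ t, te T t ∈ S i))
            (ind_nonneg (liveT ω.1 T ∧ ¬ IC (w i) J (S i) ω.1 T ∧ ¬ good ω i))
          linarith
        · have : ind (∃ t, te T t ∈ S i) *
              ind (liveT ω.1 T ∧ ¬ IC (w i) J (S i) ω.1 T ∧ ¬ good ω i) = 1 := by
            rw [ind_true ht, ind_true ⟨hl, hic, hg⟩]; norm_num
          simp only [this]
          have := mul_nonneg (ind_nonneg ((S i).Nonempty))
            (ind_nonneg (liveT ω.1 T ∧ IC (w i) J (S i) ω.1 T))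
          linarith
      · rw [ind_false h]
        exact Finset.sum_nonneg fun i _ => hnn i
    have h2 : ∑ ω : Lab n m × P, ∑ T ∈ tris G, ind (liveT ω.1 T ∧ bad ω T) ≤
        ∑ ω : Lab n m × P, ∑ T ∈ tris G, (∑ i, ind ((S i).Nonempty) *
          ind (liveT ω.1 T ∧ IC (w i) J (S i) ω.1 T) +
          ∑ i, ind (∃ t, te T t ∈ S i) *
            ind (liveT ω.1 T ∧ ¬ IC (w i) J (S i) ω.1 T ∧ ¬ good ω i)) := by
      refine Finset.sum_le_sum fun ω _ => Finset.sum_le_sum fun T _ => ?_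
      rw [← Finset.sum_add_distrib]
      exact h1 ω T
    refine h2.trans ?_
    simp only [Finset.sum_add_distrib]
    refine add_le_add ?_ (le_of_eq ?_)
    · rw [hA1]
      have h3 : ∀ ω : Lab n m × P, ∑ T ∈ tris G, ∑ i, ind ((S i).Nonempty) *
          ind (liveT ω.1 T ∧ IC (w i) J (S i) ω.1 T) ≤
          ∑ i, ∑ T : Tr n, ind ((S i).Nonempty) *
          ind (liveT ω.1 T ∧ IC (w i) J (S i) ω.1 T) := by
        intro ω
        rw [Finset.sum_comm]
        refine Finset.sum_le_sum fun i _ => ?_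
        exact Finset.sum_le_sum_of_subset_of_nonneg (Finset.subset_univ _)
          fun _ _ _ => mul_nonneg (ind_nonneg _) (ind_nonneg _)
      calc _ ≤ ∑ ω : Lab n m × P, ∑ i, ∑ T : Tr n, ind ((S i).Nonempty) *
          ind (liveT ω.1 T ∧ IC (w i) J (S i) ω.1 T) := Finset.sum_le_sum fun ω _ => h3 ω
        _ = _ := Finset.sum_comm
    · rw [hA2, Finset.sum_comm]
      refine Finset.sum_congr rfl fun T _ => ?_
      rw [Finset.sum_comm]
      refine Finset.sum_congr rfl fun i _ => ?_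
      rw [Finset.mul_sum]
  -- the average
  have hGsum : ∑ ω : Lab n m × P, ((Gd ω).card : ℝ) =
      τ * ℓ * N2 - ∑ ω : Lab n m × P, ∑ T ∈ tris G, ind (liveT ω.1 T ∧ bad ω T) := by
    rw [← hS0, ← Finset.sum_sub_distrib]
    refine Finset.sum_congr rfl fun ω _ => ?_
    rw [hGd]
    simp only
    rw [card_filter_ind, ← Finset.sum_sub_distrib]
    refine Finset.sum_congr rfl fun T _ => ?_
    by_cases h1 : liveT ω.1 T
    · by_cases h2 : bad ω T
      · rw [ind_false (fun h => h.2 h2), ind_true h1, ind_true ⟨h1, h2⟩]; norm_num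
      · rw [ind_true ⟨h1, h2⟩, ind_true h1, ind_false (fun h => h2 h.2)]; norm_num
    · rw [ind_false (fun h => h1 h.1), ind_false h1, ind_false (fun h => h1 h.1)]; norm_num
  have hhalf : τ * ℓ * N2 / 2 ≤ ∑ ω : Lab n m × P, ((Gd ω).card : ℝ) := by
    have hc : 12 * (∑ i, ((S i).card : ℝ)) * (J : ℝ) ^ 2 * (m : ℝ) ^ 3 ≤ τ := by
      rw [hτ]; exact_mod_cast hcond
    have e1 : 4 * A1 ≤ τ * (ℓ * N2) := by
      have h1 : (4 * A1) * (m : ℝ) ^ 3 ≤
          (12 * (∑ i, ((S i).card : ℝ)) * (J : ℝ) ^ 2 * (m : ℝ) ^ 3) * (ℓ * N2) *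
            (m : ℝ) ^ 3 := by
        have hN1' : N1 = ℓ * (m : ℝ) ^ 6 := by
          rw [hℓ]; field_simp
        calc (4 * A1) * (m : ℝ) ^ 3 = 4 * (A1 * (m : ℝ) ^ 3) := by ring
          _ ≤ 4 * ((∑ i, ((S i).card : ℝ)) * (3 * (J : ℝ) ^ 2 * N1 * N2)) := by linarith
          _ = _ := by rw [hN1']; ring
      have h2 : (4 * A1) * (m : ℝ) ^ 3 ≤ (τ * (ℓ * N2)) * (m : ℝ) ^ 3 :=
        h1.trans (mul_le_mul_of_nonneg_right
          (mul_le_mul_of_nonneg_right hc (by positivity)) (by positivity))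
      exact le_of_mul_le_mul_right h2 (by positivity)
    have e2 : 4 * A2 ≤ τ * (ℓ * N2) := by
      have h1 : (4 * A2) * (3 * (D : ℝ)) ≤ (τ * (ℓ * N2)) * (3 * (D : ℝ)) := by
        linarith
      exact le_of_mul_le_mul_right h1 (by positivity)
    rw [hGsum]
    linarith
  by_contra hcon
  push Not at hcon
  have hall : ∀ ω : Lab n m × P, (2 * (m : ℝ) ^ 6) * ((Gd ω).card : ℝ) < τ := by
    intro ω
    have h := hcon ω.1 (xval own w ω.2.1 ω.2.2) (Gd ω) (by
      intro T hT
      rw [hGd, Finset.mem_filter] at hT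
      refine ⟨hT.1, hT.2.1, fun i hi => ?_⟩
      by_contra hg
      exact hT.2.2 ⟨i, hi, hg⟩)
    rw [hτ]
    exact_mod_cast h
  have hlt : ∑ ω : Lab n m × P, (2 * (m : ℝ) ^ 6) * ((Gd ω).card : ℝ) < N1 * N2 * τ := by
    calc _ < ∑ ω : Lab n m × P, τ :=
          Finset.sum_lt_sum_of_nonempty Finset.univ_nonempty fun ω _ => hall ω
      _ = N1 * N2 * τ := by
          rw [Finset.sum_const, nsmul_eq_mul, Finset.card_univ, Fintype.card_prod]
          push_cast; rfl
  rw [← Finset.mul_sum] at hlt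
  have hge : N1 * N2 * τ ≤ (2 * (m : ℝ) ^ 6) * ∑ ω : Lab n m × P, ((Gd ω).card : ℝ) := by
    have hN1' : N1 = ℓ * (m : ℝ) ^ 6 := by
      rw [hℓ]; field_simp
    calc N1 * N2 * τ = (2 * (m : ℝ) ^ 6) * (τ * ℓ * N2 / 2) := by rw [hN1']; ring
      _ ≤ _ := mul_le_mul_of_nonneg_left hhalf (by positivity)
  exact absurd hlt (not_lt.2 hge)

end Count

/-- The stage for bounded degrees, by averaging. -/
theorem stage2_of_gateProb (hp : GateProb) : Stage2Stmt := by
  intro n D hD G I _ _ S f hSG hgate hdeg hcond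
  have hdeg' : ∀ e, (univ.filter fun i => e ∈ S i).card ≤ D := by
    intro e
    by_cases he : e ∈ G
    · exact hdeg e he
    · have : (univ.filter fun i => e ∈ S i) = ∅ := by
        rw [Finset.filter_eq_empty_iff]
        intro i _ h
        exact he (hSG i h)
      rw [this]; simp
  obtain ⟨L, X, Gd, h1, h2⟩ := exists_sample hp hD hgate hdeg' hcond
  exact concl_of (fun i => (hgate i).1) L X _ Gd h1 h2

end Pool.Agent.L5helper32.TC
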