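import Pool.Agent.L5helper32.TC.Pre
import Pool.Agent.L5helper32.TC.Stage2

/-!
# The stage for AND and OR gates of any fan-in
-/

set_option autoImplicit false

open Finset

namespace Pool.Agent.L5helper32.TC

section coords
variable {n : ℕ}

/-- a coordinate at the first vertex of the edge which is `0` if the edge is a candidate -/
def yA (e : Ed n) : Co n := if e.1 = 0 then (0, e.2.1, false) else (e.1, e.2.1, true)

/-- a coordinate at the second vertex of the edge which is `0` if the edge is a candidate -/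
def yB (e : Ed n) : Co n :=
  if e.1 = 0 then (1, e.2.2, false) else if e.1 = 1 then (2, e.2.2, false) else (0, e.2.2, true)

theorem cand_yA {m : ℕ} {L : Lab n m} {e : Ed n} (h : cand L e) : (L (yA e)).val = 0 := by
  obtain ⟨c, u, v⟩ := e
  obtain ⟨h0, h1, h2⟩ := h
  fin_cases c
  · exact (h0 rfl).1
  · exact (h1 rfl).1.2
  · exact (h2 rfl).1.2

theorem cand_yB {m : ℕ} {L : Lab n m} {e : Ed n} (h : cand L e) : (L (yB e)).val = 0 := by
  obtain ⟨c, u, v⟩ := e
  obtain ⟨h0, h1, h2⟩ := h
  fin_cases c
  · exact (h0 rfl).2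
  · exact (h1 rfl).2
  · exact (h2 rfl).2.2

theorem opn_yA {m : ℕ} (L : Lab n m) (e : Ed n) (z : Fin m) (e' : Ed n) (he : e'.1 = e.1) :
    opn (Function.update L (yA e) z) e' ↔ opn L e' := by
  obtain ⟨c, u, v⟩ := e
  obtain ⟨c', u', v'⟩ := e'
  simp only at he
  subst he
  unfold opn in1
  fin_cases c' <;> simp [yA, Function.update_apply]

theorem opn_yB {m : ℕ} (L : Lab n m) (e : Ed n) (z : Fin m) (e' : Ed n) (he : e'.1 = e.1) :
    opn (Function.update L (yB e) z) e' ↔ opn L e' := by
  obtain ⟨c, u, v⟩ := e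
  obtain ⟨c', u', v'⟩ := e'
  simp only at he
  subst he
  unfold opn in1
  fin_cases c' <;> simp [yB, Function.update_apply]

theorem exists_F (O : Finset (Ed n)) (X : Fin 3) (hX : ∀ e ∈ O, e.1 = X) (s : ℕ)
    (h : s ^ 2 < O.card) :
    ∃ F ⊆ O, F.card = s ∧ (Set.InjOn (yA (n := n)) F ∨ Set.InjOn (yB (n := n)) F) := by
  classical
  by_cases h1 : s ≤ (O.image fun e => e.2.1).card
  · obtain ⟨F, hF, hinj, himg⟩ : ∃ F ⊆ O, Set.InjOn (fun e : Ed n => e.2.1) F ∧
        F.image (fun e => e.2.1) = O.image fun e => e.2.1 := by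
      obtain ⟨F, hF1, hF2, hF3⟩ := Finset.exists_subset_injOn_image_eq_of_surjOn
        (f := fun e : Ed n => e.2.1) O ((O.image fun e => e.2.1) : Finset (Fin n)) (by
          intro x hx
          rw [Finset.mem_coe, Finset.mem_image] at hx
          obtain ⟨e, he, rfl⟩ := hx
          exact ⟨e, he, rfl⟩)
      exact ⟨F, hF1, hF2, hF3⟩
    have hc : s ≤ F.card := by
      rw [← himg, Finset.card_image_of_injOn hinj] at h1
      exact h1
    obtain ⟨F', hF', hc'⟩ := Finset.exists_subset_card_eq hc
    refine ⟨F', hF'.trans hF, hc', Or.inl ?_⟩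
    intro a ha b hb hab
    have ha' := hX a (hF (hF' ha))
    have hb' := hX b (hF (hF' hb))
    apply hinj (hF' ha) (hF' hb)
    unfold yA at hab
    rw [ha', hb'] at hab
    show a.2.1 = b.2.1
    split_ifs at hab
    · exact (Prod.mk.inj (Prod.mk.inj hab).2).1
    · exact (Prod.mk.inj (Prod.mk.inj hab).2).1
  · push Not at h1
    have h2 : ∃ u ∈ (O.image fun e => e.2.1), s < (O.filter fun e => e.2.1 = u).card := by
      apply Finset.exists_lt_card_fiber_of_mul_lt_card_of_maps_to
      · intro e he
        exact Finset.mem_image_of_mem _ he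
      · calc (O.image fun e => e.2.1).card * s ≤ s * s := Nat.mul_le_mul_right _ h1.le
          _ = s ^ 2 := by ring
          _ < O.card := h
    obtain ⟨u, -, hu⟩ := h2
    obtain ⟨F', hF', hc'⟩ := Finset.exists_subset_card_eq hu.le
    refine ⟨F', hF'.trans (Finset.filter_subset _ _), hc', Or.inr ?_⟩
    intro a ha b hb hab
    have ha1 := (Finset.mem_filter.1 (hF' ha))
    have hb1 := (Finset.mem_filter.1 (hF' hb))
    have ha' := hX a ha1.1
    have hb' := hX b hb1.1
    have h3 : a.2.2 = b.2.2 := by
      unfold yB at hab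
      rw [ha', hb'] at hab
      split_ifs at hab
      · exact (Prod.mk.inj (Prod.mk.inj hab).2).1
      · exact (Prod.mk.inj (Prod.mk.inj hab).2).1
      · exact (Prod.mk.inj (Prod.mk.inj hab).2).1
    exact Prod.ext (ha'.trans hb'.symm) (Prod.ext (ha1.2.trans hb1.2.symm) h3)

end coords

section bad
variable {n : ℕ}

/-- the gate reads many open edges of type `X` but none of them kills it -/
def BadX (S : Finset (Ed n)) (p : Ed n → Bool) (s : ℕ) (X : Fin 3)
    (q : Lab n 2 × (Ed n → Bool)) : Prop :=
  s ^ 2 < (OO S q.1 X).card ∧ ∀ e ∈ OO S q.1 X, cand q.1 e ∨ q.2 e ≠ p e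

open Classical in
theorem badX_count (S : Finset (Ed n)) (p : Ed n → Bool) (s : ℕ) (X : Fin 3) :
    (univ.filter fun q : Lab n 2 × (Ed n → Bool) => BadX S p s X q).card * 4 ^ s ≤
      3 ^ s * Fintype.card (Lab n 2 × (Ed n → Bool)) := by
  have h1 := Finset.card_eq_sum_card_fiberwise (f := fun q : Lab n 2 × (Ed n → Bool) => OO S q.1 X)
    (s := univ.filter fun q : Lab n 2 × (Ed n → Bool) => BadX S p s X q) (t := univ)
    (fun _ _ => Finset.mem_coe.2 (Finset.mem_univ _))
  have h2 := Finset.card_eq_sum_card_fiberwise (f := fun q : Lab n 2 × (Ed n → Bool) => OO S q.1 X)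
    (s := (univ : Finset (Lab n 2 × (Ed n → Bool)))) (t := univ)
    (fun _ _ => Finset.mem_coe.2 (Finset.mem_univ _))
  rw [h1, Finset.sum_mul, ← Finset.card_univ, h2, Finset.mul_sum]
  refine Finset.sum_le_sum fun O _ => ?_
  by_cases hO : s ^ 2 < O.card ∧ ∀ e ∈ O, e.1 = X
  · obtain ⟨F, hF, hc, hinj⟩ := exists_F O X hO.2 s hO.1
    have main : ∀ y : Ed n → Co n, Set.InjOn y F →
        (∀ (L : Lab n 2) (e : Ed n), cand L e → (L (y e)).val = 0) →
        (∀ (L : Lab n 2) (e : Ed n) (z : Fin 2) (e' : Ed n), e'.1 = e.1 →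
          (opn (Function.update L (y e) z) e' ↔ opn L e')) →
        ((univ.filter fun q : Lab n 2 × (Ed n → Bool) => BadX S p s X q).filter
          fun q => OO S q.1 X = O).card * 4 ^ s ≤
        3 ^ s * (univ.filter fun q : Lab n 2 × (Ed n → Bool) => OO S q.1 X = O).card := by
      intro y hy hc1 hop
      have hk := kill_count (Y := Co n) (E := Ed n) F y hy (fun L => OO S L X = O)
        (fun e he L z => by
          rw [OO_dep S L X (y e) z fun e' he' => hop L e z e' ?_]
          rw [he', hO.2 e (hF he)]) p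
      rw [hc] at hk
      replace hk : (univ.filter fun q : Lab n 2 × (Ed n → Bool) => OO S q.1 X = O ∧
          ∀ e ∈ F, (q.1 (y e)).val = 0 ∨ q.2 e ≠ p e).card * 4 ^ s =
          3 ^ s * (univ.filter fun q : Lab n 2 × (Ed n → Bool) => OO S q.1 X = O).card := by
        convert hk
      refine le_trans (Nat.mul_le_mul_right _ (Finset.card_le_card ?_)) (hk.le.trans ?_)
      · intro q hq
        have hq1 := Finset.mem_filter.1 hq
        have hq2 := Finset.mem_filter.1 hq1.1
        refine Finset.mem_filter.2 ⟨Finset.mem_univ _, hq1.2, fun e he => ?_⟩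
        have := hq2.2.2 e (by rw [hq1.2]; exact hF he)
        rcases this with h | h
        · exact Or.inl (hc1 _ _ h)
        · exact Or.inr h
      · refine Nat.mul_le_mul_left _ (Finset.card_le_card fun q hq => ?_)
        exact Finset.mem_filter.2 ⟨Finset.mem_univ _, (Finset.mem_filter.1 hq).2⟩
    rcases hinj with h | h
    · exact main yA h (fun L e => cand_yA) (fun L e z e' he => opn_yA L e z e' he)
    · exact main yB h (fun L e => cand_yB) (fun L e z e' he => opn_yB L e z e' he)
  · have : ((univ.filter fun q : Lab n 2 × (Ed n → Bool) => BadX S p s X q).filter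
          fun q => OO S q.1 X = O) = ∅ := by
      rw [Finset.eq_empty_iff_forall_notMem]
      intro q hq
      rw [Finset.mem_filter, Finset.mem_filter] at hq
      apply hO
      have h3 := hq.1.2.1
      rw [hq.2] at h3
      refine ⟨h3, fun e he => ?_⟩
      rw [← hq.2] at he
      exact (Finset.mem_filter.1 he).2.1
    rw [this]
    simp

end bad

open Classical in
theorem preStmt : PreStmt := by
  intro n s G I _ _ S f hSG hf hI
  choose hloc p c hp using hf
  -- bad samples
  let Q := Lab n 2 × (Ed n → Bool)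
  let bad : Finset Q := univ.filter fun q => ∃ i X, BadX (S i) (p i) s X q
  have hbad : 128 * bad.card ≤ Fintype.card Q := by
    have h1 : bad.card ≤ ∑ i : I, ∑ X : Fin 3,
        (univ.filter fun q : Q => BadX (S i) (p i) s X q).card := by
      calc bad.card ≤ ((univ : Finset I).biUnion fun i => (univ : Finset (Fin 3)).biUnion fun X =>
            univ.filter fun q : Q => BadX (S i) (p i) s X q).card := by
            refine Finset.card_le_card fun q hq => ?_
            obtain ⟨i, X, h⟩ := (Finset.mem_filter.1 hq).2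
            exact Finset.mem_biUnion.2 ⟨i, Finset.mem_univ _, Finset.mem_biUnion.2
              ⟨X, Finset.mem_univ _, Finset.mem_filter.2 ⟨Finset.mem_univ _, h⟩⟩⟩
        _ ≤ ∑ i : I, ((univ : Finset (Fin 3)).biUnion fun X =>
            univ.filter fun q : Q => BadX (S i) (p i) s X q).card := Finset.card_biUnion_le
        _ ≤ _ := Finset.sum_le_sum fun i _ => Finset.card_biUnion_le
    have h2 : bad.card * 4 ^ s ≤ Fintype.card I * (3 * (3 ^ s * Fintype.card Q)) := by
      calc bad.card * 4 ^ s ≤ (∑ i : I, ∑ X : Fin 3,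
            (univ.filter fun q : Q => BadX (S i) (p i) s X q).card) * 4 ^ s :=
            Nat.mul_le_mul_right _ h1
        _ = ∑ i : I, ∑ X : Fin 3,
            (univ.filter fun q : Q => BadX (S i) (p i) s X q).card * 4 ^ s := by
            rw [Finset.sum_mul]
            exact Finset.sum_congr rfl fun i _ => Finset.sum_mul _ _ _
        _ ≤ ∑ i : I, ∑ X : Fin 3, 3 ^ s * Fintype.card Q :=
            Finset.sum_le_sum fun i _ => Finset.sum_le_sum fun X _ => badX_count _ _ _ _
        _ = _ := by simp
    have h3 : (128 * bad.card) * 4 ^ s ≤ Fintype.card Q * 4 ^ s := by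
      calc (128 * bad.card) * 4 ^ s = 128 * (bad.card * 4 ^ s) := by ring
        _ ≤ 128 * (Fintype.card I * (3 * (3 ^ s * Fintype.card Q))) := Nat.mul_le_mul_left _ h2
        _ = (384 * Fintype.card I * 3 ^ s) * Fintype.card Q := by ring
        _ ≤ 4 ^ s * Fintype.card Q := Nat.mul_le_mul_right _ hI
        _ = _ := by ring
    exact Nat.le_of_mul_le_mul_right h3 (by positivity)
  have hQ : 0 < Fintype.card Q := Fintype.card_pos
  -- the kept graph
  let K : Q → Finset (Ed n) := fun q => keep q.1 G fun _ => True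
  have hK : ∀ (q : Q) (T : Tr n), T ∈ tris (K q) ↔ T ∈ tris G ∧ liveT q.1 T := by
    intro q T
    rw [tris, tris, Finset.mem_filter, Finset.mem_filter, liveT_iff]
    constructor
    · rintro ⟨-, h⟩
      exact ⟨⟨Finset.mem_univ _, fun t => (mem_keep.1 (h t)).1⟩, fun t => (mem_keep.1 (h t)).2.1⟩
    · rintro ⟨⟨-, h1⟩, h2⟩
      exact ⟨Finset.mem_univ _, fun t => mem_keep.2 ⟨h1 t, h2 t, trivial⟩⟩
  have hsum : 64 * ∑ q : Q, (tris (K q)).card = (tris G).card * Fintype.card Q := by
    have h1 : ∀ q : Q, (tris (K q)).card = ∑ T ∈ tris G, if liveT q.1 T then 1 else 0 := by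
      intro q
      rw [← Finset.card_filter]
      congr 1
      ext T
      rw [hK, Finset.mem_filter]
    simp_rw [h1]
    rw [Finset.sum_comm, Finset.mul_sum]
    have h2 : ∀ T ∈ tris G, 64 * ∑ q : Q, (if liveT q.1 T then 1 else 0) = Fintype.card Q := by
      intro T _
      have h3 := live_count (n := n) (m := 2) (by norm_num) T
      have h4 : (univ.filter fun q : Q => liveT q.1 T) =
          (univ.filter fun L : Lab n 2 => liveT L T) ×ˢ (univ : Finset (Ed n → Bool)) := by
        ext q
        constructor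
        · intro h
          exact Finset.mem_product.2 ⟨Finset.mem_filter.2 ⟨Finset.mem_univ _,
            (Finset.mem_filter.1 h).2⟩, Finset.mem_univ _⟩
        · intro h
          exact Finset.mem_filter.2 ⟨Finset.mem_univ _,
            (Finset.mem_filter.1 (Finset.mem_product.1 h).1).2⟩
      rw [← Finset.card_filter, h4, Finset.card_product]
      show _ = Fintype.card (Lab n 2 × (Ed n → Bool))
      rw [Fintype.card_prod, ← h3, Finset.card_univ]
      ring
    rw [Finset.sum_congr rfl h2, Finset.sum_const, smul_eq_mul]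
  have hex : ∃ q ∉ bad, (tris G).card ≤ 128 * (tris (K q)).card := by
    by_contra hcon
    push Not at hcon
    have h1 : ∑ q ∈ badᶜ, 128 * (tris (K q)).card < ∑ q ∈ badᶜ, (tris G).card := by
      refine Finset.sum_lt_sum_of_nonempty ?_ fun q hq => hcon q (Finset.mem_compl.1 hq)
      rw [← Finset.card_pos, Finset.card_compl]
      omega
    have h2 : ∑ q ∈ bad, (tris (K q)).card ≤ bad.card * (tris G).card := by
      rw [← smul_eq_mul, ← Finset.sum_const]
      refine Finset.sum_le_sum fun q _ => Finset.card_le_card fun T hT => ((hK q T).1 hT).1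
    have h3 : ∑ q ∈ bad, (tris (K q)).card + ∑ q ∈ badᶜ, (tris (K q)).card =
        ∑ q : Q, (tris (K q)).card := Finset.sum_add_sum_compl _ _
    rw [← Finset.mul_sum, Finset.sum_const, smul_eq_mul, Finset.card_compl] at h1
    have h4 : 128 * (bad.card * (tris G).card) ≤ Fintype.card Q * (tris G).card := by
      calc 128 * (bad.card * (tris G).card) = (128 * bad.card) * (tris G).card := by ring
        _ ≤ _ := Nat.mul_le_mul_right _ hbad
    have h5 : (Fintype.card Q - bad.card) * (tris G).card ≤ Fintype.card Q * (tris G).card :=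
      Nat.mul_le_mul_right _ (Nat.sub_le _ _)
    have h6 : (tris G).card * Fintype.card Q = Fintype.card Q * (tris G).card := mul_comm _ _
    omega
  obtain ⟨q, hq, hqt⟩ := hex
  refine ⟨K q, bval q.1 q.2, fun e he => (mem_keep.1 he).1, hqt, ?_, ?_⟩
  · intro T hT t
    have hs : ∀ t, live q.1 (te T t) := by
      apply safe q.1 T
      intro t
      rcases hT t with h | h
      · exact Or.inl (mem_keep.1 h).2.1
      · exact Or.inr (bval_true h.2)
    rcases hT t with h | h
    · exact h
    · rw [bval_live (hs t)] at h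
      exact absurd h.2 (by simp)
  · intro i
    by_cases hsm : ∀ X, (OO (S i) q.1 X).card ≤ s ^ 2
    · right
      have hsub : S i ∩ K q ⊆ (univ : Finset (Fin 3)).biUnion fun X => OO (S i) q.1 X := by
        intro e he
        rw [Finset.mem_inter] at he
        refine Finset.mem_biUnion.2 ⟨e.1, Finset.mem_univ _, ?_⟩
        refine Finset.mem_filter.2 ⟨he.1, rfl, ?_⟩
        exact opn_of_cand _ _ (cand_of_live _ _ (mem_keep.1 he.2).2.1)
      calc (S i ∩ K q).card ≤ ((univ : Finset (Fin 3)).biUnion fun X => OO (S i) q.1 X).card :=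
            Finset.card_le_card hsub
        _ ≤ ∑ X : Fin 3, (OO (S i) q.1 X).card := Finset.card_biUnion_le
        _ ≤ ∑ X : Fin 3, s ^ 2 := Finset.sum_le_sum fun X _ => hsm X
        _ = 3 * s ^ 2 := by simp
    · left
      push Not at hsm
      obtain ⟨X, hX⟩ := hsm
      have hnb : ¬ BadX (S i) (p i) s X q := fun h =>
        hq (Finset.mem_filter.2 ⟨Finset.mem_univ _, i, X, h⟩)
      unfold BadX at hnb
      push Not at hnb
      obtain ⟨e, he, hc, hx⟩ := hnb hX
      obtain ⟨heS, -, heo⟩ := Finset.mem_filter.1 he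
      have hv : ∀ z : Ed n → Bool, ext (K q) (bval q.1 q.2) z e = p i e := by
        intro z
        have hl : e ∉ K q := fun h => hc (cand_of_live _ _ (mem_keep.1 h).2.1)
        rw [ext, if_neg hl, bval, if_pos heo, if_neg hc, hx]
      intro z z'
      rw [hp i _ ⟨e, heS, hv z⟩, hp i _ ⟨e, heS, hv z'⟩]

end Pool.Agent.L5helper32.TC
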