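import Pool.Agent.L5helper32.TC.Top
import Pool.Agent.L5helper32.TC.Labels

/-!
# The random restriction
-/

set_option autoImplicit false

open Finset

namespace Pool.Agent.L5helper32.TC

open Classical in
/-- the value of a random edge: the vote `v e` names one of the gates which read `e` and a time; the
edge gets the value which is favourable for this gate if the time is smaller than `η i` -/
noncomputable def xval {n D H : ℕ} {I : Type} (own : Ed n → Fin D → Option I) (w : I → Ed n → ℝ)
    (v : Ed n → Fin D × Fin H) (η : I → Fin (H + 1)) (e : Ed n) : Bool :=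
  match own e (v e).1 with
  | none => false
  | some i => if 0 ≤ w i e then decide ((v e).2.val < (η i).val)
      else decide ((η i).val ≤ (v e).2.val)

/-- `z` on the live edges, `X` on the random edges, `0` on the closed edges -/
noncomputable def fl {n m : ℕ} (L : Lab n m) (X z : Ed n → Bool) (e : Ed n) : Bool :=
  if live L e then z e else if opn L e then (if cand L e then false else X e) else false

/-- the gate depends on at most one live edge -/
def Good {n m : ℕ} (S : Finset (Ed n)) (f : (Ed n → Bool) → Bool) (L : Lab n m)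
    (X : Ed n → Bool) : Prop :=
  ∃ o : Option (Ed n), (∀ e ∈ o, e ∈ S ∧ live L e) ∧
    ∀ z z' : Ed n → Bool, (∀ e ∈ o, z e = z' e) → f (fl L X z) = f (fl L X z')

/-- gates with given weights -/
def GateW {n : ℕ} (S : Finset (Ed n)) (κ : ℕ) (f : (Ed n → Bool) → Bool) (w : Ed n → ℝ) : Prop :=
  (∀ x y : Ed n → Bool, (∀ e ∈ S, x e = y e) → f x = f y) ∧
  (S.card ≤ κ ∨ ∃ t : ℝ, ∀ x : Ed n → Bool,
    (f x = true ↔ t ≤ ∑ e ∈ S, w e * (if x e then 1 else 0)))

/-- the heaviest open edges of type `X` of a gate -/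
noncomputable def phi {n m : ℕ} (w : Ed n → ℝ) (J : ℕ) (S : Finset (Ed n)) (L : Lab n m)
    (X : Fin 3) : Finset (Ed n) := topJ w J (S.filter fun e => e.1 = X ∧ opn L e)

/-- two edges of the triple are among the heaviest open edges -/
def IC {n m : ℕ} (w : Ed n → ℝ) (J : ℕ) (S : Finset (Ed n)) (L : Lab n m) (T : Tr n) : Prop :=
  ∃ s t, s ≠ t ∧ te T s ∈ phi w J S L s ∧ te T t ∈ phi w J S L t

/-- the main estimate for one gate and one triple -/
def GateProb : Prop := ∀ (n D : ℕ), 1 ≤ D → ∀ (I : Type) [Fintype I] [DecidableEq I]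
    (own : Ed n → Fin D → Option I) (w : I → Ed n → ℝ) (i : I) (u : Ed n → Fin D)
    (S : Finset (Ed n)), (∀ e ∈ S, own e (u e) = some i) →
    (∀ e ∈ S, ∀ a, own e a = some i → a = u e) →
    ∀ (f : (Ed n → Bool) → Bool), GateW S D f (w i) → ∀ (T : Tr n),
    ((Set.ncard {p : Lab n (2 * 10 ^ 10 * D ^ 5) × (Ed n → Fin D × Fin (200 * D)) ×
        (I → Fin (200 * D + 1)) | liveT p.1 T ∧ ¬ IC (w i) (5 * 10 ^ 7 * D ^ 4) S p.1 T ∧
          ¬ Good S f p.1 (xval own w p.2.1 p.2.2)} : ℕ) : ℝ) * (12 * D) ≤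
      ((univ.filter fun L : Lab n (2 * 10 ^ 10 * D ^ 5) => liveT L T).card : ℝ) *
        Fintype.card (Ed n → Fin D × Fin (200 * D)) * Fintype.card (I → Fin (200 * D + 1))

end Pool.Agent.L5helper32.TC
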