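import Pool.Agent.L5helper32.TC.Defs

/-!
# Statements of the two stages, and circuits
-/

set_option autoImplicit false

open Finset

namespace Pool.Agent.L5helper32.TC

/-- the conclusion of a stage: a smaller graph `G'` and values for the other edges of `G` which
create no triangle, such that each of the functions `f i` depends on at most one edge of `G'` -/
def Concl {n : ℕ} (q : ℕ) (G : Finset (Ed n)) {I : Type} (f : I → (Ed n → Bool) → Bool) : Prop :=
  ∃ (G' : Finset (Ed n)) (b : Ed n → Bool), G' ⊆ G ∧ (tris G).card ≤ q * (tris G').card ∧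
    (∀ T : Tr n, (∀ t, te T t ∈ G' ∨ (te T t ∈ G ∧ b (te T t) = true)) → ∀ t, te T t ∈ G') ∧
    ∀ i, ∃ o : Option (Ed n), (∀ e ∈ o, e ∈ G') ∧
      ∀ z z' : Ed n → Bool, (∀ e ∈ o, z e = z' e) → f i (ext G' b z) = f i (ext G' b z')

/-- a stage when all edges are read by at most `D` gates -/
def Stage2Stmt : Prop := ∀ (n D : ℕ), 1 ≤ D → ∀ (G : Finset (Ed n)) (I : Type) [Fintype I]
    [DecidableEq I] (S : I → Finset (Ed n)) (f : I → (Ed n → Bool) → Bool),
    (∀ i, S i ⊆ G) → (∀ i, Gate (S i) D (f i)) →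
    (∀ e ∈ G, (univ.filter fun i => e ∈ S i).card ≤ D) →
    12 * (∑ i, (S i).card) * (5 * 10 ^ 7 * D ^ 4) ^ 2 * (2 * 10 ^ 10 * D ^ 5) ^ 3 ≤ (tris G).card →
    Concl (2 * (2 * 10 ^ 10 * D ^ 5) ^ 6) G f

/-- a stage -/
def StageStmt : Prop := ∀ (n D : ℕ), 1 ≤ D → 10 ^ 47 * D ^ 24 ≤ n → ∀ (G : Finset (Ed n))
    (I : Type) [Fintype I] [DecidableEq I] (S : I → Finset (Ed n)) (f : I → (Ed n → Bool) → Bool),
    (∀ i, S i ⊆ G) → (∀ i, Gate (S i) D (f i)) →
    4 * n * (∑ i, (S i).card) ≤ D * (tris G).card →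
    Concl (2 * 10 ^ 62 * D ^ 30) G f

/-- A circuit with inputs indexed by `ι`: finitely many gates; gate `i` computes the Boolean
function `fn i` of the inputs and gates in `ins i` (its wires). -/
structure Circuit (ι : Type) where
  /-- number of gates -/
  size : ℕ
  /-- the wires of a gate -/
  ins : Fin size → Finset (ι ⊕ Fin size)
  /-- the function of a gate -/
  fn : Fin size → (ι ⊕ Fin size → Bool) → Bool
  /-- it depends only on the values on the wires -/
  loc : ∀ i x y, (∀ a ∈ ins i, x a = y a) → fn i x = fn i y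
  /-- the output gate -/
  out : Fin size

namespace Circuit

variable {ι : Type}

/-- number of wires -/
def wires (C : Circuit ι) : ℕ := ∑ i, (C.ins i).card

/-- the values of the gates after `k` rounds (for a circuit of depth `d` they do not change after
round `d`) -/
def run (C : Circuit ι) (x : ι → Bool) : ℕ → Fin C.size → Bool
  | 0, _ => false
  | k + 1, i => C.fn i (Sum.elim x (C.run x k))

/-- every path of gates has at most `d` gates -/
def HasDepth (C : Circuit ι) (d : ℕ) : Prop :=
  ∃ lev : Fin C.size → ℕ, (∀ i, 1 ≤ lev i ∧ lev i ≤ d) ∧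
    ∀ i j, Sum.inr j ∈ C.ins i → lev j < lev i

/-- gate `i` is a threshold gate with real weights -/
def Threshold (C : Circuit ι) (i : Fin C.size) : Prop :=
  ∃ (w : ι ⊕ Fin C.size → ℝ) (t : ℝ), ∀ x : ι ⊕ Fin C.size → Bool,
    (C.fn i x = true ↔ t ≤ ∑ a ∈ C.ins i, w a * (if x a then 1 else 0))

end Circuit

end Pool.Agent.L5helper32.TC
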