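import Pool.Agent.L5helper32.TC.Cheb

/-!
# The heaviest edges of a gate, and the random increments
-/

set_option autoImplicit false

open Finset

namespace Pool.Agent.L5helper32.TC

theorem exists_top {E : Type} [DecidableEq E] (w : E → ℝ) (J : ℕ) (O : Finset E) :
    ∃ T : Finset E, T ⊆ O ∧ T.card ≤ J ∧ (O.card ≤ J → T = O) ∧ (T ≠ O → T.card = J) ∧
      ∀ e ∈ T, ∀ e' ∈ O, e' ∉ T → |w e'| ≤ |w e| := by
  induction J with
  | zero => exact ⟨∅, by simp, by simp, fun h => by
      rw [Finset.card_eq_zero.1 (Nat.le_zero.1 h)], by simp, by simp⟩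
  | succ J ih =>
    obtain ⟨T, h1, h2, h3, h4, h5⟩ := ih
    by_cases hT : T = O
    · exact ⟨T, h1, h2.trans (Nat.le_succ _), fun _ => hT, fun h => absurd hT h, h5⟩
    · have hne : (O \ T).Nonempty := by
        rw [Finset.sdiff_nonempty]
        intro h
        exact hT (Finset.Subset.antisymm h1 h)
      obtain ⟨a, ha, hmax⟩ := Finset.exists_max_image (O \ T) (fun e => |w e|) hne
      rw [Finset.mem_sdiff] at ha
      have hc : (insert a T).card = J + 1 := by
        rw [Finset.card_insert_of_notMem ha.2, h4 hT]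
      refine ⟨insert a T, ?_, hc.le, ?_, fun _ => hc, ?_⟩
      · exact Finset.insert_subset ha.1 h1
      · intro h
        exact Finset.eq_of_subset_of_card_le (Finset.insert_subset ha.1 h1) (by rw [hc]; exact h)
      · intro e he e' he' hne'
        rw [Finset.mem_insert, not_or] at hne'
        rcases Finset.mem_insert.1 he with rfl | he
        · exact hmax e' (Finset.mem_sdiff.2 ⟨he', hne'.2⟩)
        · exact h5 e he e' he' hne'.2

/-- the `J` heaviest elements of `O` -/
noncomputable def topJ {E : Type} [DecidableEq E] (w : E → ℝ) (J : ℕ) (O : Finset E) : Finset E :=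
  (exists_top w J O).choose

section
variable {E : Type} [DecidableEq E] (w : E → ℝ) (J : ℕ) (O : Finset E)

theorem topJ_subset : topJ w J O ⊆ O := (exists_top w J O).choose_spec.1

theorem topJ_card : (topJ w J O).card ≤ J := (exists_top w J O).choose_spec.2.1

theorem topJ_eq (h : O.card ≤ J) : topJ w J O = O := (exists_top w J O).choose_spec.2.2.1 h

theorem topJ_card_eq (h : topJ w J O ≠ O) : (topJ w J O).card = J :=
  (exists_top w J O).choose_spec.2.2.2.1 h

theorem topJ_le : ∀ e ∈ topJ w J O, ∀ e' ∈ O, e' ∉ topJ w J O → |w e'| ≤ |w e| :=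
  (exists_top w J O).choose_spec.2.2.2.2

end

/-- The increments are large for most votes. -/
theorem incr_count {E Z : Type} [Fintype E] [DecidableEq E] [Fintype Z] [DecidableEq Z]
    [Nonempty Z] (w : E → ℝ) (J : ℕ) (O K : Finset E) (e0 : E)
    (hJ : 4 * Fintype.card Z + 2 < J)
    (h1 : ∀ e ∈ topJ w J O, e ∈ K → e = e0)
    (h2 : ∑ e ∈ ((O \ topJ w J O) ∩ K).erase e0, |w e| ≤
      (∑ e ∈ O \ topJ w J O, |w e|) / (8 * Fintype.card Z))
    (h3 : 0 < ∑ e ∈ (O \ topJ w J O) ∩ K, |w e|) (u : E → Z) :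
    ((univ.filter fun v : E → Z => ∑ e ∈ (O \ K).filter (fun e => v e = u e), |w e| ≤
        2 * ∑ e ∈ (O \ topJ w J O) ∩ K, |w e|).card : ℝ) * (J - 2) ≤
      4 * Fintype.card Z * Fintype.card (E → Z) := by
  set φ := topJ w J O with hφ
  set N : ℝ := (Fintype.card Z : ℝ) with hN
  have hN1 : (1 : ℝ) ≤ N := by
    rw [hN]; exact_mod_cast Fintype.card_pos
  have hJ' : 4 * N + 2 < J := by rw [hN]; exact_mod_cast hJ
  set W := ∑ e ∈ O \ φ, |w e| with hW
  -- the low part is not empty
  have hlow : ((O \ φ) ∩ K).Nonempty := by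
    by_contra hne
    rw [Finset.not_nonempty_iff_eq_empty] at hne
    rw [hne] at h3
    simp at h3
  obtain ⟨a, ha⟩ := hlow
  rw [Finset.mem_inter, Finset.mem_sdiff] at ha
  have hφne : φ ≠ O := fun h => ha.1.2 (h ▸ ha.1.1)
  have hcard : φ.card = J := topJ_card_eq w J O hφne
  have hφn : φ.Nonempty := by
    rw [← Finset.card_pos, hcard]; omega
  obtain ⟨b, hb, hbmin⟩ := Finset.exists_min_image φ (fun e => |w e|) hφn
  set ω := |w b| with hω
  have hω1 : ∀ e ∈ φ, ω ≤ |w e| := hbmin
  have hω2 : ∀ e ∈ O, e ∉ φ → |w e| ≤ ω := fun e he hne => topJ_le w J O b hb e he hne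
  have hω0 : 0 ≤ ω := abs_nonneg _
  have hωpos : 0 < ω := by
    by_contra hcon
    have hz : ω = 0 := le_antisymm (not_lt.1 hcon) hω0
    have : ∑ e ∈ (O \ φ) ∩ K, |w e| = 0 := by
      refine Finset.sum_eq_zero fun e he => ?_
      rw [Finset.mem_inter, Finset.mem_sdiff] at he
      have := hω2 e he.1.1 he.1.2
      rw [hz] at this
      exact le_antisymm this (abs_nonneg _)
    rw [this] at h3
    exact lt_irrefl _ h3
  set r := ∑ e ∈ (O \ φ) ∩ K, |w e| with hr
  -- bound on r
  have hr1 : r ≤ W / (8 * N) + ω := by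
    by_cases he0 : e0 ∈ (O \ φ) ∩ K
    · rw [hr, ← Finset.add_sum_erase _ _ he0]
      rw [Finset.mem_inter, Finset.mem_sdiff] at he0
      have := hω2 e0 he0.1.1 he0.1.2
      linarith
    · rw [Finset.erase_eq_of_notMem he0] at h2
      linarith
  have hW0 : 0 ≤ W := Finset.sum_nonneg fun _ _ => abs_nonneg _
  -- the capped weights
  set c : E → ℝ := fun e => min |w e| ω with hc
  set M := ∑ e ∈ O \ K, c e with hM
  have hMge : (J - 2) * ω + (1 - 1 / (8 * N)) * W ≤ M := by
    have e1 : ∑ e ∈ φ \ K, c e + ∑ e ∈ (O \ φ) \ K, c e = M := by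
      rw [hM, ← Finset.sum_union]
      · congr 1
        ext e
        simp only [Finset.mem_union, Finset.mem_sdiff]
        constructor
        · rintro (⟨h, h'⟩ | ⟨h, h'⟩)
          · exact ⟨topJ_subset w J O h, h'⟩
          · exact ⟨h.1, h'⟩
        · rintro ⟨h, h'⟩
          by_cases hh : e ∈ φ
          · exact Or.inl ⟨hh, h'⟩
          · exact Or.inr ⟨⟨h, hh⟩, h'⟩
      · rw [Finset.disjoint_left]
        intro e he he'
        rw [Finset.mem_sdiff] at he he'
        rw [Finset.mem_sdiff] at he'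
        exact he'.1.2 he.1
    have e2 : (J - 1 : ℝ) * ω ≤ ∑ e ∈ φ \ K, c e := by
      have hcd : J ≤ (φ \ K).card + 1 := by
        have hsub : φ ⊆ insert e0 (φ \ K) := by
          intro e he
          rw [Finset.mem_insert, Finset.mem_sdiff]
          by_cases hk : e ∈ K
          · exact Or.inl (h1 e he hk)
          · exact Or.inr ⟨he, hk⟩
        calc J = φ.card := hcard.symm
          _ ≤ (insert e0 (φ \ K)).card := Finset.card_le_card hsub
          _ ≤ (φ \ K).card + 1 := Finset.card_insert_le _ _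
      have hcd' : (J : ℝ) - 1 ≤ (φ \ K).card := by
        have : (J : ℝ) ≤ (φ \ K).card + 1 := by exact_mod_cast hcd
        linarith
      calc (J - 1 : ℝ) * ω ≤ (φ \ K).card * ω := mul_le_mul_of_nonneg_right hcd' hω0
        _ = ∑ e ∈ φ \ K, ω := by rw [Finset.sum_const, nsmul_eq_mul]
        _ ≤ ∑ e ∈ φ \ K, c e := by
            refine Finset.sum_le_sum fun e he => ?_
            rw [Finset.mem_sdiff] at he
            exact le_min (hω1 e he.1) le_rfl
    have e3 : W - r ≤ ∑ e ∈ (O \ φ) \ K, c e := by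
      have e4 : ∑ e ∈ (O \ φ) \ K, c e = ∑ e ∈ (O \ φ) \ K, |w e| := by
        refine Finset.sum_congr rfl fun e he => ?_
        rw [Finset.mem_sdiff, Finset.mem_sdiff] at he
        exact min_eq_left (hω2 e he.1.1 he.1.2)
      have e5 : r + ∑ e ∈ (O \ φ) \ K, |w e| = W := by
        rw [hr, hW]
        exact Finset.sum_inter_add_sum_sdiff (O \ φ) K _
      rw [e4]; linarith
    have e6 : (1 - 1 / (8 * N)) * W = W - W / (8 * N) := by ring
    rw [e6, ← e1]
    have e7 : ((J : ℝ) - 2) * ω = (J - 1) * ω - ω := by ring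
    rw [e7]
    linarith
  have hMpos : 0 < M := by
    have h8 : 0 ≤ (1 - 1 / (8 * N)) * W := by
      refine mul_nonneg ?_ hW0
      rw [sub_nonneg, div_le_one (by positivity)]
      linarith
    have h9 : 0 < ((J : ℝ) - 2) * ω := mul_pos (by linarith) hωpos
    linarith
  have hkey : 2 * r < M / (2 * N) := by
    rw [lt_div_iff₀ (by positivity)]
    have h8 : 2 * r * (2 * N) ≤ (2 * (W / (8 * N) + ω)) * (2 * N) := by
      have : 0 ≤ 2 * N := by positivity
      nlinarith
    have h9 : (2 * (W / (8 * N) + ω)) * (2 * N) = W / 2 + 4 * N * ω := by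
      field_simp; ring
    have h10 : W / 2 ≤ (1 - 1 / (8 * N)) * W := by
      have : 1 / (8 * N) ≤ 1 / 2 := by
        apply one_div_le_one_div_of_le (by norm_num); linarith
      nlinarith
    have h11 : 4 * N * ω < ((J : ℝ) - 2) * ω := mul_lt_mul_of_pos_right (by linarith) hωpos
    linarith
  -- Chebyshev
  have hch := cheb (Z := Z) (O \ K) c ω hω0 (fun e _ => ⟨le_min (abs_nonneg _) hω0, min_le_right _ _⟩) u
  rw [← hM, ← hN] at hch
  have hsub : (univ.filter fun v : E → Z => ∑ e ∈ (O \ K).filter (fun e => v e = u e), |w e| ≤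
        2 * r).card ≤ (univ.filter fun v : E → Z =>
          ∑ e ∈ (O \ K).filter (fun e => v e = u e), c e ≤ M / (2 * N)).card := by
    refine Finset.card_le_card fun v hv => ?_
    rw [Finset.mem_filter] at hv ⊢
    refine ⟨hv.1, ?_⟩
    have : ∑ e ∈ (O \ K).filter (fun e => v e = u e), c e ≤
        ∑ e ∈ (O \ K).filter (fun e => v e = u e), |w e| :=
      Finset.sum_le_sum fun e _ => min_le_left _ _
    linarith [hv.2]
  have hsub' : ((univ.filter fun v : E → Z => ∑ e ∈ (O \ K).filter (fun e => v e = u e), |w e| ≤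
        2 * r).card : ℝ) ≤ ((univ.filter fun v : E → Z =>
          ∑ e ∈ (O \ K).filter (fun e => v e = u e), c e ≤ M / (2 * N)).card : ℝ) := by
    exact_mod_cast hsub
  set q := ((univ.filter fun v : E → Z =>
          ∑ e ∈ (O \ K).filter (fun e => v e = u e), c e ≤ M / (2 * N)).card : ℝ) with hq
  have hq0 : 0 ≤ q := by positivity
  have hM2 : ((J : ℝ) - 2) * ω ≤ M := by
    have h8 : 0 ≤ (1 - 1 / (8 * N)) * W := by
      refine mul_nonneg ?_ hW0
      rw [sub_nonneg, div_le_one (by positivity)]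
      linarith
    linarith
  have h12 : q * (((J : ℝ) - 2) * ω) ≤ 4 * N * ω * Fintype.card (E → Z) :=
    le_trans (mul_le_mul_of_nonneg_left hM2 hq0) hch
  have h13 : (q * ((J : ℝ) - 2)) * ω ≤ (4 * N * Fintype.card (E → Z)) * ω := by
    calc (q * ((J : ℝ) - 2)) * ω = q * (((J : ℝ) - 2) * ω) := by ring
      _ ≤ _ := h12
      _ = _ := by ring
  have h14 := le_of_mul_le_mul_right h13 hωpos
  refine le_trans (mul_le_mul_of_nonneg_right hsub' ?_) h14
  linarith

end Pool.Agent.L5helper32.TC
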