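import Pool.Agent.L5helper32.TC.Rand

/-!
# The direction of a gate: at most two bad values
-/

set_option autoImplicit false

open Finset

namespace Pool.Agent.L5helper32.TC

section
variable {n D H : ℕ} {I : Type} [DecidableEq I] (own : Ed n → Fin D → Option I)
  (w : I → Ed n → ℝ) (i : I) (u : Ed n → Fin D) (S : Finset (Ed n))

/-- the sum over the random edges as a function of the direction of the gate -/
noncomputable def FF (R : Finset (Ed n)) (v : Ed n → Fin D × Fin H) (η : I → Fin (H + 1))
    (h : Fin (H + 1)) : ℝ :=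
  ∑ e ∈ R, w i e * (if xval own w v (Function.update η i h) e then 1 else 0)

variable (hu : ∀ e ∈ S, own e (u e) = some i) (hu' : ∀ e ∈ S, ∀ a, own e a = some i → a = u e)
include hu hu'

theorem FF_step {R : Finset (Ed n)} (hR : R ⊆ S) (v : Ed n → Fin D × Fin H)
    (η : I → Fin (H + 1)) (h h' : Fin (H + 1)) (k : Fin H) (hk : k.val = h.val) (hh : h < h') :
    ∑ e ∈ R.filter (fun e => v e = (u e, k)), |w i e| ≤
      FF own w i R v η h' - FF own w i R v η h := by
  unfold FF
  rw [← Finset.sum_sub_distrib, Finset.sum_filter]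
  refine Finset.sum_le_sum fun e he => ?_
  have heS := hR he
  have hhv : h.val < h'.val := hh
  by_cases h1 : (v e).1 = u e
  · have ho : own e (v e).1 = some i := by rw [h1]; exact hu e heS
    have hx : ∀ g : Fin (H + 1), xval own w v (Function.update η i g) e =
        if 0 ≤ w i e then decide ((v e).2.val < g.val) else decide (g.val ≤ (v e).2.val) := by
      intro g
      unfold xval
      rw [ho]
      simp
    rw [hx, hx]
    by_cases hw : 0 ≤ w i e
    · simp only [hw, if_true, decide_eq_true_eq, abs_of_nonneg hw]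
      by_cases h2 : v e = (u e, k)
      · have h3 : (v e).2.val = h.val := by rw [h2]; exact hk
        rw [if_pos h2, if_pos (by omega), if_neg (by omega)]
        simp
      · rw [if_neg h2]
        by_cases h4 : (v e).2.val < h.val
        · rw [if_pos h4, if_pos (by omega)]; simp
        · rw [if_neg h4]
          split_ifs <;> simp [hw]
    · have hw' : w i e < 0 := not_le.1 hw
      simp only [hw, if_false, decide_eq_true_eq, abs_of_neg hw']
      by_cases h2 : v e = (u e, k)
      · have h3 : (v e).2.val = h.val := by rw [h2]; exact hk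
        rw [if_pos h2, if_neg (by omega), if_pos (by omega)]
        simp
      · rw [if_neg h2]
        by_cases h4 : h'.val ≤ (v e).2.val
        · rw [if_pos h4, if_pos (by omega)]; simp
        · rw [if_neg h4]
          split_ifs <;> simp [hw'.le]
  · have hno : ∀ g : Fin (H + 1), xval own w v (Function.update η i g) e = xval own w v η e := by
      intro g
      unfold xval
      cases hc : own e (v e).1 with
      | none => rfl
      | some j =>
        have hj : j ≠ i := by
          rintro rfl
          exact h1 (hu' e heS _ hc)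
        simp [Function.update_of_ne hj]
    rw [hno, hno, sub_self, if_neg]
    intro h2
    exact h1 (by rw [h2])

theorem window_card {R : Finset (Ed n)} (hR : R ⊆ S) (v : Ed n → Fin D × Fin H)
    (η : I → Fin (H + 1)) (r : ℝ)
    (hr : ∀ k : Fin H, 2 * r < ∑ e ∈ R.filter (fun e => v e = (u e, k)), |w i e|) (t : ℝ) :
    (univ.filter fun h : Fin (H + 1) => |FF own w i R v η h - t| ≤ r).card ≤ 1 := by
  rw [Finset.card_le_one]
  have key : ∀ a b : Fin (H + 1), a < b → |FF own w i R v η a - t| ≤ r →
      |FF own w i R v η b - t| ≤ r → False := by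
    intro a b hab ha hb
    have haH : a.val < H := by
      have := b.2
      have h2 : a.val < b.val := hab
      omega
    have h1 := FF_step own w i u S hu hu' hR v η a b ⟨a.val, haH⟩ rfl hab
    have h2 := hr ⟨a.val, haH⟩
    have h3 := abs_le.1 ha
    have h4 := abs_le.1 hb
    linarith [h3.1, h3.2, h4.1, h4.2]
  intro a ha b hb
  rw [Finset.mem_filter] at ha hb
  rcases lt_trichotomy a b with h | h | h
  · exact (key a b h ha.2 hb.2).elim
  · exact h
  · exact (key b a h hb.2 ha.2).elim

end

theorem good_of_few {n m : ℕ} {S : Finset (Ed n)} {f : (Ed n → Bool) → Bool}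
    (hf : ∀ x y : Ed n → Bool, (∀ e ∈ S, x e = y e) → f x = f y) (L : Lab n m)
    (X : Ed n → Bool) (o : Option (Ed n)) (ho : ∀ e ∈ o, e ∈ S ∧ live L e)
    (h : ∀ e ∈ S, live L e → e ∈ o) : Good S f L X := by
  refine ⟨o, ho, fun z z' hz => hf _ _ fun e he => ?_⟩
  unfold fl
  by_cases hl : live L e
  · rw [if_pos hl, if_pos hl, hz e (h e he hl)]
  · rw [if_neg hl, if_neg hl]

theorem fl_sum {n m : ℕ} (S : Finset (Ed n)) (w : Ed n → ℝ) (L : Lab n m) (X z : Ed n → Bool)
    (hc : ∀ e, live L e → cand L e) :
    ∑ e ∈ S, w e * (if fl L X z e then 1 else 0) =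
      ∑ e ∈ S.filter (fun e => live L e), w e * (if z e then 1 else 0) +
      ∑ e ∈ S.filter (fun e => opn L e ∧ ¬ cand L e), w e * (if X e then 1 else 0) := by
  rw [Finset.sum_filter, Finset.sum_filter, ← Finset.sum_add_distrib]
  refine Finset.sum_congr rfl fun e _ => ?_
  unfold fl
  by_cases hl : live L e
  · simp [hl, hc e hl]
  · by_cases ho : opn L e
    · by_cases hk : cand L e
      · simp [hl, ho, hk]
      · simp [hl, ho, hk]
    · simp [hl, ho]

theorem good_of_window {n m : ℕ} {S : Finset (Ed n)} {f : (Ed n → Bool) → Bool} (w : Ed n → ℝ)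
    (t : ℝ) (hf : ∀ x : Ed n → Bool, (f x = true ↔ t ≤ ∑ e ∈ S, w e * (if x e then 1 else 0)))
    (L : Lab n m) (X : Ed n → Bool) (o : Option (Ed n)) (ho : ∀ e ∈ o, e ∈ S ∧ live L e)
    (hc : ∀ e, live L e → cand L e)
    (F : ℝ) (hF : F = ∑ e ∈ S.filter (fun e => opn L e ∧ ¬ cand L e), w e * (if X e then 1 else 0))
    (h : (∑ e ∈ S.filter (fun e => live L e ∧ e ∉ o), |w e|) = 0 ∨
      ((∑ e ∈ S.filter (fun e => live L e ∧ e ∉ o), |w e|) < |F - t| ∧
        ∀ e ∈ o, (∑ e ∈ S.filter (fun e => live L e ∧ e ∉ o), |w e|) < |F - (t - w e)|)) :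
    Good S f L X := by
  classical
  refine ⟨o, ho, fun z z' hz => ?_⟩
  set r := ∑ e ∈ S.filter (fun e => live L e ∧ e ∉ o), |w e| with hr
  let P : (Ed n → Bool) → ℝ := fun z =>
    ∑ e ∈ S.filter (fun e => live L e ∧ e ∈ o), w e * (if z e then 1 else 0)
  let Q : (Ed n → Bool) → ℝ := fun z =>
    ∑ e ∈ S.filter (fun e => live L e ∧ e ∉ o), w e * (if z e then 1 else 0)
  have hsplit : ∀ z, ∑ e ∈ S, w e * (if fl L X z e then 1 else 0) = P z + Q z + F := by
    intro z
    rw [fl_sum S w L X z hc, hF]
    congr 1
    simp only [P, Q]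
    rw [Finset.sum_filter, Finset.sum_filter, Finset.sum_filter, ← Finset.sum_add_distrib]
    refine Finset.sum_congr rfl fun e _ => ?_
    by_cases h1 : live L e <;> by_cases h2 : e ∈ o <;> simp [h1, h2]
  have hQ : ∀ z, |Q z| ≤ r := by
    intro z
    refine (Finset.abs_sum_le_sum_abs _ _).trans (Finset.sum_le_sum fun e _ => ?_)
    split_ifs <;> simp
  have hP : P z = P z' := by
    refine Finset.sum_congr rfl fun e he => ?_
    rw [Finset.mem_filter] at he
    rw [hz e he.2.2]
  have hPv : P z = 0 ∨ ∃ e ∈ o, P z = w e := by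
    cases hoo : o with
    | none => left; simp [P, hoo]
    | some a =>
      have ha := ho a (by rw [hoo]; rfl)
      have hfil : S.filter (fun e => live L e ∧ e ∈ o) = {a} := by
        ext e
        simp only [Finset.mem_filter, Finset.mem_singleton, hoo, Option.mem_def, Option.some.injEq]
        constructor
        · rintro ⟨_, _, h⟩; exact h.symm
        · rintro rfl; exact ⟨ha.1, ha.2, rfl⟩
      have : P z = w a * (if z a then 1 else 0) := by
        simp only [P]
        rw [hfil, Finset.sum_singleton]
      by_cases hza : z a = true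
      · right
        exact ⟨a, rfl, by rw [this]; simp [hza]⟩
      · left
        rw [this]; simp [hza]
  rw [Bool.eq_iff_iff, hf, hf, hsplit, hsplit, ← hP]
  have q1 := abs_le.1 (hQ z)
  have q2 := abs_le.1 (hQ z')
  rcases h with h | ⟨h1, h2⟩
  · rw [h] at q1 q2
    have e1 : Q z = 0 := by linarith [q1.1, q1.2]
    have e2 : Q z' = 0 := by linarith [q2.1, q2.2]
    rw [e1, e2]
  · have h3 : r < |F - (t - P z)| := by
      rcases hPv with h0 | ⟨e, he, h0⟩
      · rw [h0, sub_zero]; exact h1
      · rw [h0]; exact h2 e he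
    rcases lt_abs.1 h3 with h4 | h4
    · constructor <;> intro _ <;> linarith [q1.1, q1.2, q2.1, q2.2]
    · constructor <;> intro _ <;> linarith [q1.1, q1.2, q2.1, q2.2]

end Pool.Agent.L5helper32.TC
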